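import Pool.Agent.Lib.PO69.E2Div

/-! TANK MR, rough lift: coprimality facts and the range of primes. -/

set_option autoImplicit false

namespace Pool.Agent.MRZ

open Finset

/-- A range of primes not dividing `P`, with a large sum of reciprocals. -/
theorem exists_W0Z (w0 P : ℕ) (hP : 1 ≤ P) (S : ℝ) :
    ∃ W0 : ℕ, S ≤ ∑ s ∈ (Icc w0 W0).filter (fun s => s.Prime ∧ ¬ s ∣ P), 1 / (s : ℝ) := by
  obtain ⟨W0, hW0⟩ := Pool.Agent.Lib.PO69.exists_W0 (max w0 (P + 1)) S
  refine ⟨W0, hW0.trans (sum_le_sum_of_subset_of_nonneg ?_ fun s _ _ => by positivity)⟩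
  intro s hs
  rw [mem_filter, mem_Icc] at hs ⊢
  obtain ⟨⟨h1, h2⟩, h3⟩ := hs
  have h4 := le_max_left w0 (P + 1)
  have h5 := le_max_right w0 (P + 1)
  refine ⟨⟨h4.trans h1, h2⟩, h3, fun h6 => ?_⟩
  have := Nat.le_of_dvd (by omega) h6
  omega

/-- A number below a prime is coprime to it. -/
theorem cop_of_lt {p m : ℕ} (hp : p.Prime) (hm : 0 < m) (h : m < p) : Nat.Coprime m p := by
  rw [Nat.coprime_comm, Nat.Prime.coprime_iff_not_dvd hp]
  intro h1
  have := Nat.le_of_dvd hm h1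
  omega

/-- All coprimality facts of the family. -/
theorem copZ {b B P s L : ℕ} (hb : b.Prime) (hB : B.Prime) (hs : s.Prime) (hbB : b < B)
    (hsb : s < b) (hPb : P < b) (hP : 1 ≤ P) (hsP : ¬ s ∣ P) (hsL : ¬ s ∣ L)
    (hlt : B * s < b * P * L) :
    Nat.Coprime b (b * P * L - B * s) ∧ Nat.Coprime (s * P) (b * P * L - B * s) ∧
      Nat.Coprime (b * P) (b * P * L - B * s) ∧ Nat.Coprime (b * P) (B * s) := by
  have hbBc : Nat.Coprime b B := cop_of_lt hB hb.pos hbB
  have hsbc : Nat.Coprime s b := cop_of_lt hb hs.pos hsb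
  have hPBc : Nat.Coprime P B := cop_of_lt hB hP (hPb.trans hbB)
  have hPsc : Nat.Coprime P s := ((Nat.Prime.coprime_iff_not_dvd hs).2 hsP).symm
  have hPBs : Nat.Coprime P (B * s) := hPBc.mul_right hPsc
  have hbBs : Nat.Coprime b (B * s) := hbBc.mul_right hsbc.symm
  have key : ∀ m : ℕ, m ∣ b * P * L → Nat.Coprime m (B * s) →
      Nat.Coprime m (b * P * L - B * s) := by
    intro m hm h
    rw [Nat.coprime_iff_gcd_eq_one] at h ⊢
    have h1 : Nat.gcd m (b * P * L - B * s) ∣ B * s := by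
      have h2 := Nat.gcd_dvd_left m (b * P * L - B * s)
      have h3 := Nat.gcd_dvd_right m (b * P * L - B * s)
      exact (Nat.dvd_sub_iff_right hlt.le (h2.trans hm)).1 h3
    have h4 : Nat.gcd m (b * P * L - B * s) ∣ Nat.gcd m (B * s) :=
      Nat.dvd_gcd (Nat.gcd_dvd_left _ _) h1
    rw [h] at h4
    exact Nat.dvd_one.1 h4
  have e1 : Nat.Coprime b (b * P * L - B * s) :=
    key b ⟨P * L, by ring⟩ hbBs
  have e2 : Nat.Coprime P (b * P * L - B * s) :=
    key P ⟨b * L, by ring⟩ hPBs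
  have e3 : Nat.Coprime s (b * P * L - B * s) := by
    rw [Nat.Prime.coprime_iff_not_dvd hs]
    intro hd
    have h1 : s ∣ b * P * L := (Nat.dvd_sub_iff_left hlt.le (dvd_mul_left s B)).1 hd
    rcases (Nat.Prime.dvd_mul hs).1 h1 with h2 | h2
    · rcases (Nat.Prime.dvd_mul hs).1 h2 with h3 | h3
      · exact (Nat.Prime.coprime_iff_not_dvd hs).1 hsbc h3
      · exact hsP h3
    · exact hsL h2
  exact ⟨e1, e3.mul_left e2, e1.mul_left e2, hbBs.mul_left hPBs⟩

end Pool.Agent.MRZ
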