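import Pool.Agent.Lib.MRZ.Touch

/-! TANK MR, quantitative lift, exponent `7/5` (helper67, helper9, helper95, helper1): typical
integers have at most `(log x)^{0.7}` divisors. -/

set_option autoImplicit false

namespace Pool.Agent.MRZ

open Finset

/-- Almost all integers have at most `(1 + e) log log x` prime factors. -/
def Typ : Prop := ∀ e δ : ℝ, 0 < e → 0 < δ → ∃ x0 : ℝ, ∀ x : ℝ, x0 ≤ x →
  (((Finset.Icc 1 ⌊x⌋₊).filter (fun n => (1 + e) * Real.log (Real.log x) <
    (ArithmeticFunction.cardFactors n : ℝ))).card : ℝ) ≤ δ * x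

theorem card_divisors_le_two_pow (n : ℕ) (hn : n ≠ 0) :
    n.divisors.card ≤ 2 ^ (ArithmeticFunction.cardFactors n) := by
  induction n using induction_on_primes with
  | zero => exact absurd rfl hn
  | one => simp
  | prime_mul p a hp ih =>
    have ha : a ≠ 0 := by
      rintro rfl
      exact hn (mul_zero _)
    rw [ArithmeticFunction.cardFactors_mul hp.ne_zero ha,
      ArithmeticFunction.cardFactors_apply_prime hp, pow_add, pow_one]
    refine (card_divisors_mul_le p a).trans ?_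
    have h2 : p.divisors.card = 2 := by
      rw [hp.divisors, Finset.card_pair hp.one_lt.ne]
    rw [h2]
    exact Nat.mul_le_mul_left 2 (ih ha)

/-- The sum of a nonnegative weight over the divisors of size `√t` of the exceptional integers. -/
theorem sum_f_E {c a1 a2 : ℝ} (hc : 0 < c) (h1 : 0 < a1) {t : ℝ} (ht : 1 ≤ t)
    (E : Finset ℕ) (hE : ∀ N ∈ E, t < (N : ℝ) ∧ (N : ℝ) < t + c * √t)
    (f : ℕ → ℝ) (hf : ∀ n, 0 ≤ f n) :
    (∑ N ∈ E, ∑ u ∈ N.divisors.filter (fun u : ℕ => a1 * √t ≤ (u : ℝ) ∧ (u : ℝ) ≤ a2 * √t),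
      f u) ≤ (c / a1 + 1) * ∑ u ∈ Icc 1 ⌊a2 * √t⌋₊, f u := by
  have hst : 0 < √t := Real.sqrt_pos.2 (by linarith)
  have hswap : (∑ N ∈ E, ∑ u ∈ N.divisors.filter
        (fun u : ℕ => a1 * √t ≤ (u : ℝ) ∧ (u : ℝ) ≤ a2 * √t), f u) =
      ∑ u ∈ (Icc 1 ⌊a2 * √t⌋₊).filter (fun u : ℕ => a1 * √t ≤ (u : ℝ)),
        ∑ N ∈ E.filter (fun N => u ∣ N), f u := by
    apply Finset.sum_comm'
    intro N u
    simp only [Finset.mem_filter, Nat.mem_divisors, Finset.mem_Icc]
    constructor
    · rintro ⟨hN, ⟨hd, h0⟩, hu1, hu2⟩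
      exact ⟨⟨hN, hd⟩, ⟨Nat.pos_of_dvd_of_pos hd (Nat.pos_of_ne_zero h0), Nat.le_floor hu2⟩, hu1⟩
    · rintro ⟨⟨hN, hd⟩, ⟨hu0, hu2⟩, hu1⟩
      have h0 : (N : ℝ) ≠ 0 := by
        have := (hE N hN).1
        linarith
      refine ⟨hN, ⟨hd, by exact_mod_cast h0⟩, hu1, ?_⟩
      exact (Nat.le_floor_iff' (by omega)).1 hu2
  rw [hswap]
  have hone : ∀ u ∈ (Icc 1 ⌊a2 * √t⌋₊).filter (fun u : ℕ => a1 * √t ≤ (u : ℝ)),
      ∑ N ∈ E.filter (fun N => u ∣ N), f u ≤ (c / a1 + 1) * f u := by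
    intro u hu
    rw [Finset.mem_filter, Finset.mem_Icc] at hu
    rw [Finset.sum_const, nsmul_eq_mul]
    apply mul_le_mul_of_nonneg_right _ (hf u)
    refine (mult_count E hE (by positivity) u (by omega)).trans ?_
    have hu0 : (0 : ℝ) < u := by exact_mod_cast hu.1.1
    have : c * √t / u ≤ c / a1 := by
      rw [div_le_div_iff₀ hu0 h1]
      nlinarith [hu.2]
    linarith
  refine (Finset.sum_le_sum hone).trans ?_
  rw [← Finset.mul_sum]
  apply mul_le_mul_of_nonneg_left _ (by positivity)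
  exact Finset.sum_le_sum_of_subset_of_nonneg (Finset.filter_subset _ _) (fun i _ _ => hf i)

theorem touch_core {c a1 a2 : ℝ} (hc : 0 < c) (h1 : 0 < a1) (h2 : 0 < a2) {t : ℝ} (ht : 1 ≤ t)
    (hcs : c ≤ √t) (E : Finset ℕ) (hE : ∀ N ∈ E, t < (N : ℝ) ∧ (N : ℝ) < t + c * √t)
    {Z : ℝ} (hZpos : 0 ≤ Z) :
    ((∑ N ∈ E, (N.divisors.filter
        (fun u : ℕ => a1 * √t ≤ (u : ℝ) ∧ (u : ℝ) ≤ a2 * √t)).card : ℕ) : ℝ) ≤
      (E.card : ℝ) * Z ^ 2 +
      (c / a1 + 1) * (((Icc 1 ⌊a2 * √t⌋₊).filter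
        (fun u => Z < (u.divisors.card : ℝ))).card : ℝ) +
      (c / (1 / a2) + 1) * (((Icc 1 ⌊2 / a1 * √t⌋₊).filter
        (fun u => Z < (u.divisors.card : ℝ))).card : ℝ) := by
  have hst : 0 < √t := Real.sqrt_pos.2 (by linarith)
  have hsq : √t * √t = t := Real.mul_self_sqrt (by linarith)
  have hNpos : ∀ N ∈ E, 0 < N := by
    intro N hN
    have h7 := (hE N hN).1
    have h8 : (0 : ℝ) < N := by linarith
    exact_mod_cast h8
  set F : ℕ → Finset ℕ := fun N => N.divisors.filter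
    (fun u : ℕ => a1 * √t ≤ (u : ℝ) ∧ (u : ℝ) ≤ a2 * √t) with hF
  set f : ℕ → ℝ := fun n => if Z < (n.divisors.card : ℝ) then 1 else 0 with hf
  have hf0 : ∀ n, 0 ≤ f n := by
    intro n
    simp only [hf]
    split_ifs <;> norm_num
  -- pointwise bound
  have hpt : ∀ N ∈ E, ((F N).card : ℝ) ≤ Z ^ 2 + (∑ u ∈ F N, f u) + (∑ u ∈ F N, f (N / u)) := by
    intro N hN
    have hN0 := hNpos N hN
    -- the good divisors
    have hgood : (((F N).filter (fun u => (u.divisors.card : ℝ) ≤ Z ∧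
        ((N / u).divisors.card : ℝ) ≤ Z)).card : ℝ) ≤ Z ^ 2 := by
      by_cases hne : ((F N).filter (fun u => (u.divisors.card : ℝ) ≤ Z ∧
        ((N / u).divisors.card : ℝ) ≤ Z)).Nonempty
      · obtain ⟨u, hu⟩ := hne
        rw [Finset.mem_filter] at hu
        obtain ⟨hu1, hu2, hu3⟩ := hu
        rw [hF] at hu1
        simp only [Finset.mem_filter, Nat.mem_divisors] at hu1
        have h7 : (((F N).filter (fun u => (u.divisors.card : ℝ) ≤ Z ∧
            ((N / u).divisors.card : ℝ) ≤ Z)).card : ℝ) ≤ (N.divisors.card : ℝ) := by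
          have : ((F N).filter (fun u => (u.divisors.card : ℝ) ≤ Z ∧
            ((N / u).divisors.card : ℝ) ≤ Z)).card ≤ N.divisors.card := by
            apply Finset.card_le_card
            exact (Finset.filter_subset _ _).trans (Finset.filter_subset _ _)
          exact_mod_cast this
        have h8 : (N.divisors.card : ℝ) ≤ (u.divisors.card : ℝ) * ((N / u).divisors.card : ℝ) := by
          have h9 := card_divisors_mul_le u (N / u)
          rw [Nat.mul_div_cancel' hu1.1.1] at h9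
          exact_mod_cast h9
        calc _ ≤ (N.divisors.card : ℝ) := h7
          _ ≤ (u.divisors.card : ℝ) * ((N / u).divisors.card : ℝ) := h8
          _ ≤ Z * Z := mul_le_mul hu2 hu3 (Nat.cast_nonneg _) hZpos
          _ = Z ^ 2 := by ring
      · rw [Finset.not_nonempty_iff_eq_empty] at hne
        rw [hne]
        simp only [Finset.card_empty, Nat.cast_zero]
        positivity
    have hbad : (((F N).filter (fun u => ¬ ((u.divisors.card : ℝ) ≤ Z ∧
        ((N / u).divisors.card : ℝ) ≤ Z))).card : ℝ) ≤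
        (∑ u ∈ F N, f u) + (∑ u ∈ F N, f (N / u)) := by
      rw [Finset.card_eq_sum_ones, Nat.cast_sum, ← Finset.sum_add_distrib]
      refine le_trans ?_ (Finset.sum_le_sum_of_subset_of_nonneg
        (Finset.filter_subset (fun u => ¬ ((u.divisors.card : ℝ) ≤ Z ∧
        ((N / u).divisors.card : ℝ) ≤ Z)) (F N)) (fun i _ _ => add_nonneg (hf0 _) (hf0 _)))
      apply Finset.sum_le_sum
      intro u hu
      rw [Finset.mem_filter] at hu
      have hu2 := hu.2
      rw [not_and_or, not_le, not_le] at hu2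
      rw [Nat.cast_one]
      rcases hu2 with h | h
      · have e1 : f u = 1 := by simp only [hf, if_pos h]
        have e2 := hf0 (N / u)
        linarith
      · have e1 : f (N / u) = 1 := by simp only [hf, if_pos h]
        have e2 := hf0 u
        linarith
    have hsplit := Finset.card_filter_add_card_filter_not (s := F N)
      (fun u => (u.divisors.card : ℝ) ≤ Z ∧ ((N / u).divisors.card : ℝ) ≤ Z)
    have hsplit' : ((F N).card : ℝ) = (((F N).filter (fun u => (u.divisors.card : ℝ) ≤ Z ∧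
        ((N / u).divisors.card : ℝ) ≤ Z)).card : ℝ) +
        (((F N).filter (fun u => ¬ ((u.divisors.card : ℝ) ≤ Z ∧
        ((N / u).divisors.card : ℝ) ≤ Z))).card : ℝ) := by
      exact_mod_cast hsplit.symm
    rw [hsplit']
    linarith
  -- the complementary divisors
  have hcomp : (∑ N ∈ E, ∑ u ∈ F N, f (N / u)) ≤
      ∑ N ∈ E, ∑ u ∈ N.divisors.filter
        (fun u : ℕ => (1 / a2) * √t ≤ (u : ℝ) ∧ (u : ℝ) ≤ (2 / a1) * √t), f u := by
    apply Finset.sum_le_sum
    intro N hN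
    have hN0 := hNpos N hN
    have hinj : Set.InjOn (fun u => N / u) (F N : Set ℕ) := by
      intro x hx y hy hxy
      simp only [hF, Finset.coe_filter, Nat.mem_divisors, Set.mem_ofPred_eq] at hx hy
      have e1 := Nat.div_mul_cancel hx.1.1
      have e2 := Nat.div_mul_cancel hy.1.1
      simp only at hxy
      rw [hxy] at e1
      have e3 : 0 < N / y := by
        rcases Nat.eq_zero_or_pos (N / y) with h | h
        · rw [h] at e2; omega
        · exact h
      exact Nat.eq_of_mul_eq_mul_left e3 (e1.trans e2.symm)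
    rw [← Finset.sum_image (f := f) hinj]
    apply Finset.sum_le_sum_of_subset_of_nonneg
    · intro v hv
      rw [Finset.mem_image] at hv
      obtain ⟨u, hu, rfl⟩ := hv
      simp only [hF, Finset.mem_filter, Nat.mem_divisors] at hu
      obtain ⟨⟨hud, _⟩, hu1, hu2⟩ := hu
      have e1 : ((N / u : ℕ) : ℝ) * u = N := by exact_mod_cast Nat.div_mul_cancel hud
      have hu0 : (0 : ℝ) < u := lt_of_lt_of_le (by positivity) hu1
      have hv0 : (0 : ℝ) ≤ ((N / u : ℕ) : ℝ) := Nat.cast_nonneg _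
      obtain ⟨hN1, hN2⟩ := hE N hN
      rw [Finset.mem_filter, Nat.mem_divisors]
      refine ⟨⟨Nat.div_dvd_of_dvd hud, by omega⟩, ?_, ?_⟩
      · rw [div_mul_eq_mul_div, one_mul, div_le_iff₀ h2]
        have : √t * √t ≤ ((N / u : ℕ) : ℝ) * a2 * √t := by
          rw [hsq]
          calc t ≤ ((N / u : ℕ) : ℝ) * u := by rw [e1]; exact hN1.le
            _ ≤ ((N / u : ℕ) : ℝ) * (a2 * √t) := mul_le_mul_of_nonneg_left hu2 hv0
            _ = _ := by ring
        exact le_of_mul_le_mul_right this hst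
      · rw [div_mul_eq_mul_div, le_div_iff₀ h1]
        have : ((N / u : ℕ) : ℝ) * a1 * √t ≤ 2 * √t * √t := by
          calc ((N / u : ℕ) : ℝ) * a1 * √t = ((N / u : ℕ) : ℝ) * (a1 * √t) := by ring
            _ ≤ ((N / u : ℕ) : ℝ) * u := mul_le_mul_of_nonneg_left hu1 hv0
            _ = N := e1
            _ ≤ t + c * √t := hN2.le
            _ ≤ √t * √t + √t * √t := by nlinarith
            _ = 2 * √t * √t := by ring
        exact le_of_mul_le_mul_right this hst
    · intro i _ _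
      exact hf0 i
  have hA := sum_f_E (a2 := a2) hc h1 ht E hE f hf0
  have hB := sum_f_E (a2 := 2 / a1) hc (by positivity : (0 : ℝ) < 1 / a2) ht E hE f hf0
  have hcnt : ∀ U : ℕ, (∑ u ∈ Icc 1 U, f u) =
      (((Icc 1 U).filter (fun u => Z < (u.divisors.card : ℝ))).card : ℝ) := by
    intro U
    simp only [hf]
    rw [← Finset.sum_filter, Finset.sum_const, nsmul_eq_mul, mul_one]
  rw [hcnt] at hA hB
  have hsum : (∑ N ∈ E, ((F N).card : ℝ)) ≤ (E.card : ℝ) * Z ^ 2 +
      (∑ N ∈ E, ∑ u ∈ F N, f u) + (∑ N ∈ E, ∑ u ∈ F N, f (N / u)) := by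
    refine (Finset.sum_le_sum hpt).trans (le_of_eq ?_)
    rw [Finset.sum_add_distrib, Finset.sum_add_distrib, Finset.sum_const, nsmul_eq_mul]
  have hgoal : ((∑ N ∈ E, (F N).card : ℕ) : ℝ) = ∑ N ∈ E, ((F N).card : ℝ) := by
    push_cast
    rfl
  rw [hgoal]
  linarith [hcomp.trans hB]

/-- For typical integers `d(u) ≤ (log t)^{(1+e) log 2}`. -/
theorem count_big_div (H : Typ) {a e δ : ℝ} (ha : 0 < a) (he : 0 < e) (hδ : 0 < δ) :
    ∃ t1 : ℝ, ∀ t : ℝ, t1 ≤ t →
      (((Icc 1 ⌊a * √t⌋₊).filter (fun u => (Real.log t) ^ ((1 + e) * Real.log 2) <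
        (u.divisors.card : ℝ))).card : ℝ) ≤ δ * √t := by
  obtain ⟨x0, hx0⟩ := H e (δ / a) he (by positivity)
  refine ⟨max (max 1 (a ^ 2)) (((max x0 (Real.exp 1)) / a) ^ 2), fun t ht => ?_⟩
  have ht1 : 1 ≤ t := ((le_max_left _ _).trans (le_max_left _ _)).trans ht
  have ht2 : a ^ 2 ≤ t := ((le_max_right _ _).trans (le_max_left _ _)).trans ht
  have ht3 : ((max x0 (Real.exp 1)) / a) ^ 2 ≤ t := (le_max_right _ _).trans ht
  have hst : 0 < √t := Real.sqrt_pos.2 (by linarith)
  have hsq : √t * √t = t := Real.mul_self_sqrt (by linarith)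
  have hexp : 0 < Real.exp 1 := Real.exp_pos 1
  have hm : 0 < max x0 (Real.exp 1) := lt_of_lt_of_le hexp (le_max_right _ _)
  have has : a ≤ √t := by
    rw [← Real.sqrt_sq ha.le]
    exact Real.sqrt_le_sqrt ht2
  have hbig : max x0 (Real.exp 1) ≤ a * √t := by
    have h0 : 0 ≤ max x0 (Real.exp 1) / a := by positivity
    have h1 : max x0 (Real.exp 1) / a ≤ √t := by
      rw [← Real.sqrt_sq h0]
      exact Real.sqrt_le_sqrt ht3
    rw [div_le_iff₀ ha] at h1
    linarith
  have hx : x0 ≤ a * √t := (le_max_left _ _).trans hbig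
  have hex : Real.exp 1 ≤ a * √t := (le_max_right _ _).trans hbig
  have hxt : a * √t ≤ t := by nlinarith
  have hapos : 0 < a * √t := by positivity
  have hlog1 : 1 ≤ Real.log (a * √t) := (Real.le_log_iff_exp_le hapos).2 hex
  have hlog2 : Real.log (a * √t) ≤ Real.log t := Real.log_le_log hapos hxt
  have hlt : 0 < Real.log t := by linarith
  have h := hx0 (a * √t) hx
  refine le_trans ?_ (h.trans (le_of_eq (by field_simp)))
  have hsub : (Icc 1 ⌊a * √t⌋₊).filter (fun u => (Real.log t) ^ ((1 + e) * Real.log 2) <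
        (u.divisors.card : ℝ)) ⊆ (Icc 1 ⌊a * √t⌋₊).filter (fun n => (1 + e) *
          Real.log (Real.log (a * √t)) < (ArithmeticFunction.cardFactors n : ℝ)) := by
    intro u hu
    rw [Finset.mem_filter] at hu ⊢
    refine ⟨hu.1, ?_⟩
    have hu0 : u ≠ 0 := by
      have := (Finset.mem_Icc.1 hu.1).1
      omega
    by_contra hcon
    rw [not_lt] at hcon
    have h3 : (u.divisors.card : ℝ) ≤ (2 : ℝ) ^ (ArithmeticFunction.cardFactors u : ℝ) := by
      rw [Real.rpow_natCast]
      exact_mod_cast card_divisors_le_two_pow u hu0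
    have h4 : (2 : ℝ) ^ (ArithmeticFunction.cardFactors u : ℝ) ≤
        (2 : ℝ) ^ ((1 + e) * Real.log (Real.log t)) := by
      apply Real.rpow_le_rpow_of_exponent_le (by norm_num)
      refine hcon.trans ?_
      apply mul_le_mul_of_nonneg_left _ (by linarith)
      exact Real.log_le_log (by linarith) hlog2
    have h5 : (2 : ℝ) ^ ((1 + e) * Real.log (Real.log t)) =
        (Real.log t) ^ ((1 + e) * Real.log 2) := by
      rw [Real.rpow_def_of_pos (by norm_num), Real.rpow_def_of_pos hlt]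
      congr 1
      ring
    rw [h5] at h4
    linarith [hu.2]
  exact_mod_cast Finset.card_le_card hsub

/-- The balanced factorizations `N = u v`, `a1 √t ≤ u ≤ a2 √t`, of the members of a set of at most
`√t / (log t)^{7/5}` integers of `(t, t + c √t)` number at most `ε √t`. -/
theorem touch_pairs75 (H : Typ) {c a1 a2 ε : ℝ} (hc : 0 < c) (h1 : 0 < a1) (h2 : 0 < a2)
    (hε : 0 < ε) :
    ∃ t0 : ℝ, ∀ t : ℝ, t0 ≤ t → ∀ E : Finset ℕ,
      (∀ N ∈ E, t < (N : ℝ) ∧ (N : ℝ) < t + c * √t) →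
      (E.card : ℝ) ≤ √t / (Real.log t) ^ (7 / 5 : ℝ) →
      ((∑ N ∈ E, (N.divisors.filter
        (fun u : ℕ => a1 * √t ≤ (u : ℝ) ∧ (u : ℝ) ≤ a2 * √t)).card : ℕ) : ℝ) ≤ ε * √t := by
  set θ : ℝ := (1 + 1 / 200) * Real.log 2 with hθ
  have hκ : 0 < 7 / 5 - 2 * θ := by
    have := Real.log_two_lt_d9
    rw [hθ]
    linarith
  obtain ⟨t1, ht1⟩ := count_big_div H h2 (by norm_num : (0 : ℝ) < 1 / 200)
    (by positivity : 0 < ε / (3 * (c / a1 + 1)))
  obtain ⟨t2, ht2⟩ := count_big_div H (by positivity : 0 < 2 / a1) (by norm_num : (0 : ℝ) < 1 / 200)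
    (by positivity : 0 < ε / (3 * (c / (1 / a2) + 1)))
  have htend : Filter.Tendsto (fun t : ℝ => (Real.log t) ^ (-(7 / 5 - 2 * θ))) Filter.atTop
      (nhds 0) := (tendsto_rpow_neg_atTop hκ).comp Real.tendsto_log_atTop
  have hev := htend.eventually (Iic_mem_nhds (by positivity : (0 : ℝ) < ε / 3))
  obtain ⟨t3, ht3⟩ := Filter.eventually_atTop.1 hev
  refine ⟨max (max 3 (c ^ 2)) (max (max t1 t2) t3), ?_⟩
  intro t ht E hE hcard
  have h3 : 3 ≤ t := ((le_max_left _ _).trans (le_max_left _ _)).trans ht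
  have h4 : c ^ 2 ≤ t := ((le_max_right _ _).trans (le_max_left _ _)).trans ht
  have h5 : t1 ≤ t := ((le_max_left _ _).trans ((le_max_left _ _).trans (le_max_right _ _))).trans ht
  have h6 : t2 ≤ t := ((le_max_right _ _).trans ((le_max_left _ _).trans (le_max_right _ _))).trans ht
  have h7 : t3 ≤ t := ((le_max_right _ _).trans (le_max_right _ _)).trans ht
  have hst : 0 < √t := Real.sqrt_pos.2 (by linarith)
  have hcs : c ≤ √t := by
    rw [← Real.sqrt_sq hc.le]
    exact Real.sqrt_le_sqrt h4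
  have hL : 0 < Real.log t := Real.log_pos (by linarith)
  have hcore := touch_core (a1 := a1) (a2 := a2) hc h1 h2 (by linarith : (1 : ℝ) ≤ t) hcs E hE
    (Z := (Real.log t) ^ θ) (Real.rpow_nonneg hL.le _)
  refine hcore.trans ?_
  have hA := ht1 t h5
  have hB := ht2 t h6
  have hC := ht3 t h7
  rw [← hθ] at hA hB
  have hZ2 : ((Real.log t) ^ θ) ^ 2 = (Real.log t) ^ (2 * θ) := by
    rw [← Real.rpow_natCast, ← Real.rpow_mul hL.le]
    congr 1
    push_cast
    ring
  have hfirst : (E.card : ℝ) * ((Real.log t) ^ θ) ^ 2 ≤ ε / 3 * √t := by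
    rw [hZ2]
    calc (E.card : ℝ) * (Real.log t) ^ (2 * θ)
        ≤ √t / (Real.log t) ^ (7 / 5 : ℝ) * (Real.log t) ^ (2 * θ) :=
          mul_le_mul_of_nonneg_right hcard (Real.rpow_nonneg hL.le _)
      _ = (Real.log t) ^ (-(7 / 5 - 2 * θ)) * √t := by
          have : (Real.log t) ^ (-(7 / 5 - 2 * θ)) =
              (Real.log t) ^ (2 * θ) / (Real.log t) ^ (7 / 5 : ℝ) := by
            rw [← Real.rpow_sub hL]
            congr 1
            ring
          rw [this]
          ring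
      _ ≤ ε / 3 * √t := mul_le_mul_of_nonneg_right hC hst.le
  have hA' : (c / a1 + 1) * (((Icc 1 ⌊a2 * √t⌋₊).filter
        (fun u => (Real.log t) ^ θ < (u.divisors.card : ℝ))).card : ℝ) ≤ ε / 3 * √t := by
    refine (mul_le_mul_of_nonneg_left hA (by positivity)).trans (le_of_eq ?_)
    field_simp
  have hB' : (c / (1 / a2) + 1) * (((Icc 1 ⌊2 / a1 * √t⌋₊).filter
        (fun u => (Real.log t) ^ θ < (u.divisors.card : ℝ))).card : ℝ) ≤ ε / 3 * √t := by
    refine (mul_le_mul_of_nonneg_left hB (by positivity)).trans (le_of_eq ?_)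
    have : c / (1 / a2) + 1 ≠ 0 := by positivity
    generalize c / (1 / a2) + 1 = q at this
    field_simp
  linarith

end Pool.Agent.MRZ
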