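import Pool.Agent.Lib.MRZ.SMZ

/-! Row SecondMomentZ. -/

set_option autoImplicit false

namespace Pool.Agent.MRZ

open Finset Pool.Agent.Lib.PO69

theorem secondMomentZ : SecondMomentZ := by
  classical
  intro P κ δ hP hκ hκ1 hδ
  have hP' : (1 : ℝ) ≤ P := by exact_mod_cast hP
  have hP0 : (0 : ℝ) < P := by linarith
  -- choose w0, W0
  obtain ⟨w0, hw0⟩ : ∃ w0 : ℕ, 2 * P / κ ≤ w0 := exists_nat_ge _
  have hw0' : 2 * P ≤ κ * w0 := by
    rw [div_le_iff₀ hκ] at hw0; linarith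
  have hw01 : 1 ≤ w0 := by
    rcases Nat.eq_zero_or_pos w0 with h | h
    · rw [h] at hw0'; norm_num at hw0'; linarith
    · exact h
  obtain ⟨W0, hW0⟩ := exists_W0Z w0 P hP ((1 + 2 / δ) / (9.5e-5 * κ / (P : ℝ) ^ 2))
  have hS0 : 0 < (1 + 2 / δ) / (9.5e-5 * κ / (P : ℝ) ^ 2) := by positivity
  have hW01 : 1 ≤ W0 := by
    rcases Nat.eq_zero_or_pos W0 with h | h
    · rw [h] at hW0
      have : (Icc w0 0).filter (fun s => s.Prime ∧ ¬ s ∣ P) = ∅ := by
        rw [Icc_eq_empty (by omega), filter_empty]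
      rw [this, sum_empty] at hW0
      linarith
    · exact h
  -- choose b0
  obtain ⟨b0, hb0⟩ : ∃ b0 : ℕ, max (max (max ((W0 : ℝ) + 1) ((P : ℝ) + 1)) (100 * (W0 * P) / κ))
      (((W0 : ℝ) ^ 6 / κ * (2 / δ)) ^ 2) ≤ b0 := exists_nat_ge _
  refine ⟨b0, ?_⟩
  intro b B hb hB hb0b hbB hlog f hf hf1
  have hbb : (b0 : ℝ) ≤ b := by exact_mod_cast hb0b
  have hb' : (0 : ℝ) < b := by exact_mod_cast hb.pos
  have hbB' : (b : ℝ) < B := by exact_mod_cast hbB
  have hB' : (0 : ℝ) < B := by linarith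
  have hWb : W0 < b := by
    have : (W0 : ℝ) + 1 ≤ b := (((le_max_left _ _).trans (le_max_left _ _)).trans
      (le_max_left _ _)).trans (hb0.trans hbb)
    have : ((W0 + 1 : ℕ) : ℝ) ≤ b := by push_cast; linarith
    have : W0 + 1 ≤ b := by exact_mod_cast this
    omega
  have hPb : P < b := by
    have : (P : ℝ) + 1 ≤ b := (((le_max_right _ _).trans (le_max_left _ _)).trans
      (le_max_left _ _)).trans (hb0.trans hbb)
    have : ((P + 1 : ℕ) : ℝ) ≤ b := by push_cast; linarith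
    have : P + 1 ≤ b := by exact_mod_cast this
    omega
  have hbig : 100 * ((W0 : ℝ) * P) ≤ κ * b := by
    have : 100 * ((W0 : ℝ) * P) / κ ≤ b :=
      ((le_max_right _ _).trans (le_max_left _ _)).trans (hb0.trans hbb)
    rw [div_le_iff₀ hκ] at this
    linarith
  have hsq : (W0 : ℝ) ^ 6 / κ * (2 / δ) ≤ √b := by
    have : ((W0 : ℝ) ^ 6 / κ * (2 / δ)) ^ 2 ≤ b := (le_max_right _ _).trans (hb0.trans hbb)
    exact Real.le_sqrt_of_sq_le this
  set X0 : ℝ := f + 0.35 * κ with hX0def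
  have hX : 0.35 * κ ≤ X0 := by linarith
  have hX1 : X0 ≤ 0.006 := by norm_num at hf1 hκ1 ⊢; linarith
  have hX0 : 0 < X0 := by linarith
  set F := FZ κ X0 b B P w0 W0 with hF
  have hmem : ∀ p ∈ F, w0 ≤ p.1 ∧ p.1 ≤ W0 ∧ ¬ p.1 ∣ P ∧ Adm κ X0 (b * P) B p :=
    fun p hp => mem_FZ hp
  have hlt : ∀ p ∈ F, B * p.1 < b * P * p.2 := fun p hp => (hmem p hp).2.2.2.lt hκ hX0 hB.pos
  have hdpos : ∀ p ∈ F, 0 < dd (b * P) B p := fun p hp => Nat.sub_pos_of_lt (hlt p hp)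
  have hcop : ∀ p ∈ F, Nat.Coprime b (dd (b * P) B p) ∧
      Nat.Coprime (p.1 * P) (dd (b * P) B p) := by
    intro p hp
    obtain ⟨_, h2, h3, h4⟩ := hmem p hp
    obtain ⟨p1, p2, _, _⟩ := copZ (L := p.2) hb hB h4.1 hbB (by omega) hPb hP h3 h4.2.1 (hlt p hp)
    exact ⟨p1, p2⟩
  set Q : ℕ := ∏ p ∈ F, dd (b * P) B p with hQ
  have hQ0 : 0 < Q := prod_pos hdpos
  have hdvd1 : ∀ p ∈ F, dd (b * P) B p ∣ Q := fun p hp => dvd_prod_of_mem _ hp
  have hdvd2 : ∀ p ∈ F, ∀ q ∈ F, p ≠ q → dd (b * P) B p * dd (b * P) B q ∣ Q := by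
    intro p hp q hq hne
    rw [hQ, ← mul_prod_erase F _ hp]
    exact mul_dvd_mul_left _ (dvd_prod_of_mem _ (mem_erase.2 ⟨hne.symm, hq⟩))
  have hbs : ∀ p ∈ F, 100 ≤ κ * ((b : ℝ) / (p.1 * P : ℕ)) := by
    intro p hp
    have h1 : (0 : ℝ) < p.1 := by exact_mod_cast (hmem p hp).2.2.2.pos.1
    have h2 : (p.1 : ℝ) ≤ W0 := by exact_mod_cast (hmem p hp).2.1
    push_cast
    rw [← mul_div_assoc, le_div_iff₀ (by positivity)]
    have : (p.1 : ℝ) * P ≤ W0 * P := mul_le_mul_of_nonneg_right h2 hP0.le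
    linarith
  set X : ℕ × ℕ → ℕ → ℝ := fun p M =>
    cnt b (p.1 * P) (dd (b * P) B p) (lo κ X0 b (p.1 * P)) (hi κ X0 b (p.1 * P)) M with hXX
  set E : ℝ := ∑ p ∈ F, rhoZ κ X0 b B P p with hE
  have hE1 : 1 + 2 / δ ≤ E := by
    have h1 := EN_geZ (b := b) (B := B) hκ hX hX1 hb.pos hbB hP hw0' hbig
    have h2 : (1 + 2 / δ) = 9.5e-5 * κ / (P : ℝ) ^ 2
        * ((1 + 2 / δ) / (9.5e-5 * κ / (P : ℝ) ^ 2)) := by
      field_simp
    rw [h2]
    refine le_trans ?_ h1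
    exact mul_le_mul_of_nonneg_left hW0 (by positivity)
  have hE0 : 0 < E := by
    have : 0 < 2 / δ := by positivity
    linarith
  have hEge1 : 1 ≤ E := by
    have : 0 < 2 / δ := by positivity
    linarith
  -- the off diagonal total
  set G : ℝ := ∑ p ∈ F, ∑ q ∈ F.erase p,
      ((Nat.gcd (b * P * p.2 - B * p.1) (b * P * q.2 - B * q.1) : ℕ) : ℝ) with hGdef
  have hGle : G ≤ (W0 : ℝ) ^ 2 * (37 * (W0 : ℝ) ^ 4 * (B / b) ^ 2 * (1 + Real.log B)) :=
    gcd_totalZ hκ hX hb hB hbB hP hPb hW01 hw01 hWb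
  set K : ℝ := 0.07 * (X0 * b / B) * (3 * (X0 / κ) / B) with hK
  have hK0 : 0 ≤ K := by positivity
  have hKG : K * G ≤ δ / 2 := by
    have h1 : K * G ≤ K * ((W0 : ℝ) ^ 2 * (37 * (W0 : ℝ) ^ 4 * (B / b) ^ 2 * (1 + Real.log B))) :=
      mul_le_mul_of_nonneg_left hGle hK0
    have h2 : K * ((W0 : ℝ) ^ 2 * (37 * (W0 : ℝ) ^ 4 * (B / b) ^ 2 * (1 + Real.log B)))
        = (0.07 * 3 * 37) * X0 ^ 2 * ((W0 : ℝ) ^ 6 / κ) * ((1 + Real.log B) / b) := by
      rw [hK]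
      field_simp
    have h3 : (1 + Real.log B) / b ≤ 1 / √b := by
      rw [div_le_div_iff₀ hb' (by positivity)]
      have h4 : √(b : ℝ) * √b = b := Real.mul_self_sqrt hb'.le
      have h5 : 0 ≤ √(b : ℝ) := Real.sqrt_nonneg _
      nlinarith
    have h6 : X0 ^ 2 ≤ 0.006 ^ 2 := pow_le_pow_left₀ hX0.le hX1 2
    have h7 : (0.07 * 3 * 37) * X0 ^ 2 ≤ 1 := by nlinarith
    have h8 : (0 : ℝ) ≤ (W0 : ℝ) ^ 6 / κ := by positivity
    have hB1 : (1 : ℝ) ≤ B := by exact_mod_cast hB.one_lt.le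
    have h9 : 0 ≤ (1 + Real.log B) / b := by
      have := Real.log_nonneg hB1
      positivity
    have h10 : (W0 : ℝ) ^ 6 / κ * (1 / √b) ≤ δ / 2 := by
      rw [mul_one_div, div_le_iff₀ (Real.sqrt_pos.2 hb')]
      have h11 : (W0 : ℝ) ^ 6 / κ * (2 / δ) * (δ / 2) ≤ √b * (δ / 2) :=
        mul_le_mul_of_nonneg_right hsq (by positivity)
      have h12 : (W0 : ℝ) ^ 6 / κ * (2 / δ) * (δ / 2) = (W0 : ℝ) ^ 6 / κ := by
        field_simp
      linarith
    calc K * G ≤ (0.07 * 3 * 37) * X0 ^ 2 * ((W0 : ℝ) ^ 6 / κ) * ((1 + Real.log B) / b) :=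
          h2 ▸ h1
      _ ≤ 1 * ((W0 : ℝ) ^ 6 / κ) * ((1 + Real.log B) / b) := by gcongr
      _ ≤ 1 * ((W0 : ℝ) ^ 6 / κ) * (1 / √b) := by gcongr
      _ ≤ δ / 2 := by linarith
  have hsm := sm_total F Q X (fun p => rhoZ κ X0 b B P p) (δ / 2) ?_ ?_ ?_ hE0
  · refine ⟨Q, hQ0, (range Q).filter (fun M => ∀ i ∈ F, X i M = 0), filter_subset _ _, ?_, ?_⟩
    · refine hsm.trans (mul_le_mul_of_nonneg_right ?_ (Nat.cast_nonneg _))
      rw [div_le_iff₀ (by positivity)]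
      have h1 : 1 ≤ δ / 2 * E := by
        have : 2 / δ ≤ E := by linarith
        rw [div_le_iff₀ hδ] at this
        linarith
      nlinarith
    · intro M hM
      have hMQ : M % Q ∈ range Q := mem_range.2 (Nat.mod_lt _ hQ0)
      rw [mem_filter, not_and] at hM
      have h1 := hM hMQ
      push Not at h1
      obtain ⟨p, hpF, hp⟩ := h1
      obtain ⟨_, hpW, hpP, hpA⟩ := hmem p hpF
      have h2 : ((Ico (lo κ X0 b (p.1 * P)) (hi κ X0 b (p.1 * P))).filter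
          (fun D => dd (b * P) B p ∣ b * (M % Q) + p.1 * P * D)).Nonempty := by
        rw [nonempty_iff_ne_empty]
        intro h3
        apply hp
        rw [hXX]
        simp only [cnt]
        rw [h3, card_empty, Nat.cast_zero]
      obtain ⟨D, hD⟩ := h2
      rw [mem_filter] at hD
      obtain ⟨hDI, hDd⟩ := hD
      have hdM : dd (b * P) B p ∣ b * M + p.1 * (P * D) := by
        have h3 : b * M + p.1 * (P * D) ≡ b * (M % Q) + p.1 * P * D [MOD dd (b * P) B p] := by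
          rw [← mul_assoc]
          refine Nat.ModEq.add_right _ (Nat.ModEq.mul_left _ ?_)
          exact ((Nat.mod_modEq M Q).symm).of_dvd (hdvd1 p hpF)
        exact (Nat.modEq_zero_iff_dvd).1 (h3.trans ((Nat.modEq_zero_iff_dvd).2 hDd))
      have hBd : B * p.1 + dd (b * P) B p = b * (P * p.2) := by
        have := hlt p hpF
        unfold dd
        rw [← mul_assoc]
        omega
      have hcopb := (hcop p hpF).1
      obtain ⟨a1, a2, a3, a4⟩ := windowZ hpA hκ hX hb.pos hB.pos hP hDI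
      have hD0 : 0 < D := by
        have := (mem_Ico.1 hDI).1
        unfold lo at this
        omega
      have hsP : p.1.Coprime P := (Nat.Prime.coprime_iff_not_dvd hpA.1).2 hpP
      refine ⟨P * D, p.1, P * p.2, dd (b * P) B p, Nat.mul_pos hP hD0, hpA.pos.1,
        Nat.mul_pos hP hpA.pos.2, hdpos p hpF, dvd_mul_right _ _, dvd_mul_right _ _, hsP, hBd,
        hdM, ?_, by linarith, by linarith, by linarith, by linarith⟩
      have h3 : dd (b * P) B p ∣ b * (B * M + P * p.2 * (P * D)) := by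
        have h4 : b * (B * M + P * p.2 * (P * D))
            = B * (b * M + p.1 * (P * D)) + dd (b * P) B p * (P * D) := by
          have h5 : b * (B * M + P * p.2 * (P * D))
              = B * (b * M) + (b * (P * p.2)) * (P * D) := by ring
          rw [h5, ← hBd]
          ring
        rw [h4]
        exact dvd_add (hdM.mul_left _) (dvd_mul_right _ _)
      exact (Nat.Coprime.dvd_of_dvd_mul_left hcopb.symm h3)
  · intro p hp
    have := sum_cnt b (p.1 * P) (dd (b * P) B p) (lo κ X0 b (p.1 * P)) (hi κ X0 b (p.1 * P)) Q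
      (hdpos p hp) (hcop p hp).1 (hdvd1 p hp)
    rw [hXX]
    exact this
  · intro p hp
    obtain ⟨_, hpW, hpP, hpA⟩ := hmem p hp
    have := sum_cnt_sq b (p.1 * P) (dd (b * P) B p) (lo κ X0 b (p.1 * P))
      (hi κ X0 b (p.1 * P)) Q (hdpos p hp) (hcop p hp).1 (hdvd1 p hp)
      (hcop p hp).2 (hi_leZ hpA hκ hX hX1 hb.pos hbB hP (hbs p hp))
    rw [hXX]
    exact this
  · have h1 : ∀ p ∈ F, ∑ q ∈ F.erase p, ∑ M ∈ range Q, X p M * X q M
        ≤ ∑ q ∈ F.erase p, (rhoZ κ X0 b B P p * rhoZ κ X0 b B P q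
          + K * (Nat.gcd (b * P * p.2 - B * p.1) (b * P * q.2 - B * q.1) : ℕ)) * Q := by
      intro p hp
      refine sum_le_sum fun q hq => ?_
      rw [mem_erase] at hq
      obtain ⟨_, hpW, hpP, hpA⟩ := hmem p hp
      obtain ⟨_, hqW, hqP, hqA⟩ := hmem q hq.2
      exact mixedZ hpA hqA Q hκ hX hb hB hbB hP hPb hpP hqP (by omega) (by omega) (hbs p hp)
        (hdvd2 p hp q hq.2 hq.1.symm)
    refine (sum_le_sum h1).trans ?_
    have h2 : ∑ p ∈ F, ∑ q ∈ F.erase p, (rhoZ κ X0 b B P p * rhoZ κ X0 b B P q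
          + K * (Nat.gcd (b * P * p.2 - B * p.1) (b * P * q.2 - B * q.1) : ℕ)) * (Q : ℝ)
        = (∑ p ∈ F, ∑ q ∈ F.erase p, rhoZ κ X0 b B P p * rhoZ κ X0 b B P q + K * G) * Q := by
      rw [hGdef, mul_sum, ← sum_add_distrib, sum_mul]
      refine sum_congr rfl fun p _ => ?_
      rw [mul_sum, ← sum_add_distrib, sum_mul]
    rw [h2]
    refine mul_le_mul_of_nonneg_right ?_ (Nat.cast_nonneg _)
    have h3 : ∑ p ∈ F, ∑ q ∈ F.erase p, rhoZ κ X0 b B P p * rhoZ κ X0 b B P q ≤ E ^ 2 := by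
      rw [sq, hE, sum_mul_sum]
      refine sum_le_sum fun p _ => ?_
      exact sum_le_sum_of_subset_of_nonneg (erase_subset _ _) fun q _ _ =>
        mul_nonneg (rhoZ_nonneg p) (rhoZ_nonneg q)
    linarith

end Pool.Agent.MRZ
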