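import Pool.Agent.Lib.MRL.ML
import Pool.Agent.Lib.MP_663568_nt.TK

/-! TANK MR, quantitative lift (helper9): almost all `n ≤ x` have `Ω(n) ≤ (1 + e) log log x`
(`typ`), by the Turán–Kubilius inequality and Mertens' upper bound. -/

set_option autoImplicit false

namespace Pool.Agent.MRZ

open Finset

/-- the primes up to `Y` -/
noncomputable def PrY (Y : ℕ) : Finset ℕ := (Ioc 0 Y).filter Nat.Prime

/-- the number of `(p, i)` with `i ≥ 2` and `p ^ i ∣ n` -/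
noncomputable def exO (Y n : ℕ) : ℝ :=
  ∑ p ∈ PrY Y, ∑ i ∈ Ico 2 (Y + 1), if p ^ i ∣ n then (1 : ℝ) else 0

open Pool.Agent.Lib.MP_663568_nt.Katai in
theorem omega_le {Y n : ℕ} (hn1 : 1 ≤ n) (hnY : n ≤ Y) :
    (ArithmeticFunction.cardFactors n : ℝ) ≤ om (PrY Y) n + exO Y n := by
  have h1 : ArithmeticFunction.cardFactors n = ∑ p ∈ n.primeFactors, n.factorization p := by
    rw [ArithmeticFunction.cardFactors_eq_sum_factorization]
    rfl
  have hsub : n.primeFactors ⊆ PrY Y := by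
    intro p hp
    rw [PrY, Finset.mem_filter, Finset.mem_Ioc]
    have hpp := Nat.prime_of_mem_primeFactors hp
    exact ⟨⟨hpp.pos, (Nat.le_of_dvd (by omega) (Nat.dvd_of_mem_primeFactors hp)).trans hnY⟩, hpp⟩
  have h2 : ∀ p ∈ PrY Y, (n.factorization p : ℝ) ≤ (if p ∣ n then (1 : ℝ) else 0)
      + ∑ i ∈ Ico 2 (Y + 1), if p ^ i ∣ n then (1 : ℝ) else 0 := by
    intro p hp
    rw [PrY, Finset.mem_filter, Finset.mem_Ioc] at hp
    have hpp := hp.2
    have hY1 : 1 ≤ Y := hn1.trans hnY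
    have e1 : (if p ∣ n then (1 : ℝ) else 0)
        + ∑ i ∈ Ico 2 (Y + 1), (if p ^ i ∣ n then (1 : ℝ) else 0)
        = ∑ i ∈ Ico 1 (Y + 1), if p ^ i ∣ n then (1 : ℝ) else 0 := by
      rw [Finset.sum_eq_sum_Ico_succ_bot (by omega : 1 < Y + 1), pow_one]
    rw [e1, ← Finset.sum_filter, Finset.sum_const, nsmul_eq_mul, mul_one,
      Nat.factorization_eq_card_pow_dvd n hpp]
    exact_mod_cast Finset.card_le_card (Finset.filter_subset_filter _
      (Finset.Ico_subset_Ico_right (by omega)))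
  rw [h1]
  push_cast
  calc ∑ p ∈ n.primeFactors, (n.factorization p : ℝ) ≤ ∑ p ∈ PrY Y, (n.factorization p : ℝ) :=
        Finset.sum_le_sum_of_subset_of_nonneg hsub (fun _ _ _ => Nat.cast_nonneg _)
    _ ≤ ∑ p ∈ PrY Y, ((if p ∣ n then (1 : ℝ) else 0)
          + ∑ i ∈ Ico 2 (Y + 1), if p ^ i ∣ n then (1 : ℝ) else 0) := Finset.sum_le_sum h2
    _ = om (PrY Y) n + exO Y n := by rw [Finset.sum_add_distrib]; rfl

open Pool.Agent.Lib.MP_663568_nt.Katai in
theorem sum_exO (Y : ℕ) : ∑ n ∈ Icc 1 Y, exO Y n ≤ 2 * (Y : ℝ) := by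
  rcases Nat.eq_zero_or_pos Y with h0 | hY
  · subst h0; simp
  unfold exO
  rw [Finset.sum_comm]
  have h1 : ∀ p ∈ PrY Y, ∑ n ∈ Icc 1 Y, ∑ i ∈ Ico 2 (Y + 1), (if p ^ i ∣ n then (1 : ℝ) else 0)
      ≤ 2 * (Y : ℝ) * ((p : ℝ) ^ 2)⁻¹ := by
    intro p hp
    rw [PrY, Finset.mem_filter, Finset.mem_Ioc] at hp
    have hpp := hp.2
    have hp2 : (2 : ℝ) ≤ p := by exact_mod_cast hpp.two_le
    have hp0 : (0 : ℝ) < p := by linarith
    rw [Finset.sum_comm]
    have h2 : ∀ i ∈ Ico 2 (Y + 1), ∑ n ∈ Icc 1 Y, (if p ^ i ∣ n then (1 : ℝ) else 0)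
        ≤ (Y : ℝ) * ((p : ℝ)⁻¹) ^ i := by
      intro i _
      rw [sum_dvd]
      refine (div_le_real Y (p ^ i)).trans ?_
      rw [Nat.cast_pow, div_eq_mul_inv, inv_pow]
    refine (Finset.sum_le_sum h2).trans ?_
    rw [← Finset.mul_sum]
    have hx0 : (0 : ℝ) ≤ (p : ℝ)⁻¹ := by positivity
    have hx1 : (p : ℝ)⁻¹ ≤ 1 / 2 := by
      rw [one_div]; exact inv_anti₀ (by norm_num) hp2
    have h3 := geom_sum_Ico_le_of_lt_one (m := 2) (n := Y + 1) hx0 (by linarith)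
    have h4 : ((p : ℝ)⁻¹) ^ 2 / (1 - (p : ℝ)⁻¹) ≤ 2 * ((p : ℝ) ^ 2)⁻¹ := by
      rw [div_le_iff₀ (by linarith), inv_pow]
      have : (0 : ℝ) ≤ ((p : ℝ) ^ 2)⁻¹ := by positivity
      nlinarith
    calc (Y : ℝ) * ∑ i ∈ Ico 2 (Y + 1), ((p : ℝ)⁻¹) ^ i ≤ (Y : ℝ) * (2 * ((p : ℝ) ^ 2)⁻¹) :=
          mul_le_mul_of_nonneg_left (h3.trans h4) (Nat.cast_nonneg _)
      _ = 2 * (Y : ℝ) * ((p : ℝ) ^ 2)⁻¹ := by ring
  refine (Finset.sum_le_sum h1).trans ?_
  rw [← Finset.mul_sum]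
  have h5 : ∑ p ∈ PrY Y, ((p : ℝ) ^ 2)⁻¹ ≤ ∑ m ∈ Ioc 1 Y, ((m : ℝ) ^ 2)⁻¹ := by
    apply Finset.sum_le_sum_of_subset_of_nonneg
    · intro p hp
      rw [PrY, Finset.mem_filter, Finset.mem_Ioc] at hp
      rw [Finset.mem_Ioc]
      exact ⟨hp.2.one_lt, hp.1.2⟩
    · intro _ _ _; positivity
  have h6 := sum_Ioc_inv_sq_le_sub (α := ℝ) (k := 1) (n := Y) (by norm_num) hY
  have h7 : (0 : ℝ) ≤ (Y : ℝ)⁻¹ := by positivity
  have h8 : ∑ p ∈ PrY Y, ((p : ℝ) ^ 2)⁻¹ ≤ 1 := by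
    refine h5.trans (h6.trans ?_)
    push_cast
    linarith
  have hY0 : (0 : ℝ) ≤ 2 * (Y : ℝ) := by positivity
  nlinarith

open Pool.Agent.Lib.MP_663568_nt.Katai Pool.Agent.MRL in
/-- almost all `n ≤ x` have at most `(1 + e) log log x` prime factors (with multiplicity). -/
theorem typ : ∀ e δ : ℝ, 0 < e → 0 < δ → ∃ x0 : ℝ, ∀ x : ℝ, x0 ≤ x →
    (((Finset.Icc 1 ⌊x⌋₊).filter (fun n => (1 + e) * Real.log (Real.log x)
      < (ArithmeticFunction.cardFactors n : ℝ))).card : ℝ) ≤ δ * x := by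
  intro e δ he hδ
  set K : ℝ := 20 + 80 / e + 192 / (e ^ 2 * δ) + 8 / (e * δ) with hK
  have hev := ((Real.tendsto_log_atTop.comp Real.tendsto_log_atTop).eventually_ge_atTop K)
  obtain ⟨x1, hx1⟩ := Filter.eventually_atTop.mp hev
  refine ⟨max x1 3, fun x hx => ?_⟩
  have hx3 : (3 : ℝ) ≤ x := (le_max_right _ _).trans hx
  have hLLK : K ≤ Real.log (Real.log x) := hx1 x ((le_max_left _ _).trans hx)
  set LL := Real.log (Real.log x) with hLL
  set Y := ⌊x⌋₊ with hYdef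
  have hY3 : 3 ≤ Y := Nat.le_floor (by exact_mod_cast hx3)
  have hYx : (Y : ℝ) ≤ x := Nat.floor_le (by linarith)
  have hYr : (3 : ℝ) ≤ (Y : ℝ) := by exact_mod_cast hY3
  have a1 : 0 < 80 / e := by positivity
  have a2 : 0 < 192 / (e ^ 2 * δ) := by positivity
  have a3 : 0 < 8 / (e * δ) := by positivity
  have hLL20 : 20 ≤ LL := by linarith
  have hLL1 : 80 / e ≤ LL := by linarith
  have hLL2 : 192 / (e ^ 2 * δ) ≤ LL := by linarith
  have hLL3 : 8 / (e * δ) ≤ LL := by linarith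
  have hLL0 : 0 < LL := by linarith
  rw [div_le_iff₀ (by positivity)] at hLL1 hLL2 hLL3
  have hlogY : 1 < Real.log (Y : ℝ) := by
    rw [Real.lt_log_iff_exp_lt (by linarith)]
    have := Real.exp_one_lt_d9
    linarith
  have hLY : Real.log (Real.log (Y : ℝ)) ≤ LL :=
    Real.log_le_log (by linarith) (Real.log_le_log (by linarith) hYx)
  set W := WW (PrY Y) with hW
  have hWP : W = Mer.P Y := rfl
  have hW0 : 0 ≤ W := WW_nonneg _
  have hWle : W ≤ LL + 20 := by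
    rw [hWP]
    have := Mer.P_upper (n := Y) (by omega)
    linarith
  have hcard : ((PrY Y).card : ℝ) ≤ Y := by
    have : (PrY Y).card ≤ Y := by
      calc (PrY Y).card ≤ (Ioc 0 Y).card := Finset.card_filter_le _ _
        _ = Y := by simp
    exact_mod_cast this
  have hTK := turan_kubilius (PrY Y) (fun p hp => by
    rw [PrY, Finset.mem_filter] at hp; exact hp.2) Y
  rw [← hW] at hTK
  -- the two exceptional sets
  set A1 := (Icc 1 Y).filter (fun n => e / 4 * LL ≤ om (PrY Y) n - W) with hA1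
  set A2 := (Icc 1 Y).filter (fun n => e / 2 * LL ≤ exO Y n) with hA2
  have hsub : (Finset.Icc 1 Y).filter (fun n => (1 + e) * LL
      < (ArithmeticFunction.cardFactors n : ℝ)) ⊆ A1 ∪ A2 := by
    intro n hn
    rw [Finset.mem_filter, Finset.mem_Icc] at hn
    rw [Finset.mem_union, hA1, hA2, Finset.mem_filter, Finset.mem_filter, Finset.mem_Icc]
    by_contra hcon
    rw [not_or] at hcon
    obtain ⟨c1, c2⟩ := hcon
    have d1 : om (PrY Y) n - W < e / 4 * LL := by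
      by_contra h; exact c1 ⟨hn.1, not_lt.mp h⟩
    have d2 : exO Y n < e / 2 * LL := by
      by_contra h; exact c2 ⟨hn.1, not_lt.mp h⟩
    have d3 := omega_le hn.1.1 hn.1.2
    have d4 := hn.2
    nlinarith
  have hc1 : (A1.card : ℝ) * (e / 4 * LL) ^ 2 ≤ 3 * (LL + 20) * Y := by
    have s1 : (A1.card : ℝ) * (e / 4 * LL) ^ 2
        ≤ ∑ n ∈ A1, (om (PrY Y) n - W) ^ 2 := by
      rw [← nsmul_eq_mul]
      apply Finset.card_nsmul_le_sum
      intro n hn
      rw [hA1, Finset.mem_filter] at hn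
      exact pow_le_pow_left₀ (by positivity) hn.2 2
    have s2 : ∑ n ∈ A1, (om (PrY Y) n - W) ^ 2 ≤ ∑ n ∈ Icc 1 Y, (om (PrY Y) n - W) ^ 2 :=
      Finset.sum_le_sum_of_subset_of_nonneg (Finset.filter_subset _ _)
        (fun _ _ _ => sq_nonneg _)
    have s3 : W * Y + 2 * W * ((PrY Y).card : ℝ) ≤ 3 * (LL + 20) * Y := by
      have t1 : 2 * W * ((PrY Y).card : ℝ) ≤ 2 * W * Y :=
        mul_le_mul_of_nonneg_left hcard (by positivity)
      have t2 : W * Y ≤ (LL + 20) * Y := mul_le_mul_of_nonneg_right hWle (Nat.cast_nonneg _)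
      nlinarith
    linarith
  have hc2 : (A2.card : ℝ) * (e / 2 * LL) ≤ 2 * Y := by
    have s1 : (A2.card : ℝ) * (e / 2 * LL) ≤ ∑ n ∈ A2, exO Y n := by
      rw [← nsmul_eq_mul]
      apply Finset.card_nsmul_le_sum
      intro n hn
      rw [hA2, Finset.mem_filter] at hn
      exact hn.2
    have s2 : ∑ n ∈ A2, exO Y n ≤ ∑ n ∈ Icc 1 Y, exO Y n :=
      Finset.sum_le_sum_of_subset_of_nonneg (Finset.filter_subset _ _)
        (fun _ _ _ => Finset.sum_nonneg (fun _ _ => Finset.sum_nonneg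
          (fun _ _ => by split_ifs <;> norm_num)))
    have s3 := sum_exO Y
    linarith
  have hf1 : (A1.card : ℝ) ≤ δ / 2 * x := by
    have r1 : (A1.card : ℝ) * (e ^ 2 * LL) ≤ 96 * Y := by
      have : (A1.card : ℝ) * (e ^ 2 * LL) * LL ≤ 96 * Y * LL := by
        have h20 : 3 * (LL + 20) * Y ≤ 6 * LL * Y := by
          have : (0:ℝ) ≤ Y := by linarith
          nlinarith
        have : (A1.card : ℝ) * (e ^ 2 * LL) * LL = 16 * ((A1.card : ℝ) * (e / 4 * LL) ^ 2) := by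
          ring
        rw [this]
        nlinarith
      exact le_of_mul_le_mul_right this hLL0
    have r2 : (192 : ℝ) * Y ≤ e ^ 2 * LL * (δ * x) := by
      have : 192 ≤ LL * (e ^ 2 * δ) := hLL2
      calc (192 : ℝ) * Y ≤ (LL * (e ^ 2 * δ)) * Y :=
            mul_le_mul_of_nonneg_right this (by linarith)
        _ ≤ (LL * (e ^ 2 * δ)) * x := mul_le_mul_of_nonneg_left hYx (by positivity)
        _ = e ^ 2 * LL * (δ * x) := by ring
    have r3 : (0 : ℝ) < e ^ 2 * LL := by positivity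
    have r4 : (A1.card : ℝ) * (e ^ 2 * LL) ≤ (δ / 2 * x) * (e ^ 2 * LL) := by
      calc (A1.card : ℝ) * (e ^ 2 * LL) ≤ 96 * Y := r1
        _ = (192 * Y) / 2 := by ring
        _ ≤ (e ^ 2 * LL * (δ * x)) / 2 := by linarith
        _ = (δ / 2 * x) * (e ^ 2 * LL) := by ring
    exact le_of_mul_le_mul_right r4 r3
  have hf2 : (A2.card : ℝ) ≤ δ / 2 * x := by
    have r3 : (0 : ℝ) < e / 2 * LL := by positivity
    have r2 : (8 : ℝ) * Y ≤ e * LL * (δ * x) := by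
      calc (8 : ℝ) * Y ≤ (LL * (e * δ)) * Y :=
            mul_le_mul_of_nonneg_right hLL3 (by linarith)
        _ ≤ (LL * (e * δ)) * x := mul_le_mul_of_nonneg_left hYx (by positivity)
        _ = e * LL * (δ * x) := by ring
    have r4 : (A2.card : ℝ) * (e / 2 * LL) ≤ (δ / 2 * x) * (e / 2 * LL) := by
      calc (A2.card : ℝ) * (e / 2 * LL) ≤ 2 * Y := hc2
        _ = (8 * Y) / 4 := by ring
        _ ≤ (e * LL * (δ * x)) / 4 := by linarith
        _ = (δ / 2 * x) * (e / 2 * LL) := by ring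
    exact le_of_mul_le_mul_right r4 r3
  calc (((Finset.Icc 1 Y).filter (fun n => (1 + e) * LL
        < (ArithmeticFunction.cardFactors n : ℝ))).card : ℝ) ≤ ((A1 ∪ A2).card : ℝ) := by
        exact_mod_cast Finset.card_le_card hsub
    _ ≤ (A1.card : ℝ) + A2.card := by exact_mod_cast Finset.card_union_le _ _
    _ ≤ δ / 2 * x + δ / 2 * x := add_le_add hf1 hf2
    _ = δ * x := by ring

end Pool.Agent.MRZ
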