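import Pool.Agent.Lib.MRZ.Stat
import Pool.Agent.Lib.PO69.E1

/-!
# ChainZ: the linking configuration with gap `g`, for integers coprime to `P`

`n = b1 n1`, `n + g = b2 n2`, `d = ±(b1 w - b2 w')`, `p = ±(n2 w - n1 w')`,
`d m1 = b1 M + w' D`, `d m2 = b2 M + w D`: the four products `n1 d m1`, `b2 p m1`, `b1 p m2`, `n2 d m2`
lie in `(t, t + c √t)` and are coprime to `P`.
-/

set_option autoImplicit false

namespace Pool.Agent.MRZ

open Finset Pool.Agent.MRL

namespace E1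

/-- numerical bound for the two extra terms -/
theorem extra_bound {c R st T A V W G : ℝ} (hc : 0 < c) (hR0 : 0 < R)
    (hc1 : c ≤ 1) (hst : 100 ≤ st) (hA : A ≤ 0.00595 * c ^ 2) (hT0 : 0 < T)
    (hT : T ≤ st / R) (hV0 : 0 < V) (hV : V ≤ 0.95 * (c / R))
    (hG : 0.3 * (c / R) ≤ G) (hW0 : 0 ≤ W) (hW : W * G = A * (T + V)) :
    W ≤ 0.0205 * (c * st) := by
  obtain ⟨r, hr⟩ : ∃ r, r = 1 / R := ⟨_, rfl⟩
  have hr0 : 0 < r := by rw [hr]; positivity
  have hcr : c / R = c * r := by rw [hr]; ring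
  have hsr : st / R = st * r := by rw [hr]; ring
  rw [hcr] at hV hG
  rw [hsr] at hT
  have h3 : T + V ≤ 1.01 * (st * r) := by
    have h31 : c * r ≤ 1 * r := mul_le_mul_of_nonneg_right hc1 hr0.le
    have h32 : 100 * r ≤ st * r := mul_le_mul_of_nonneg_right hst hr0.le
    linarith
  have h4 : A * (T + V) ≤ (0.00595 * c ^ 2) * (1.01 * (st * r)) :=
    mul_le_mul hA h3 (by positivity) (by positivity)
  have h5 : W * (0.3 * (c * r)) ≤ (0.0205 * (c * st)) * (0.3 * (c * r)) := by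
    have h51 : W * (0.3 * (c * r)) ≤ W * G := mul_le_mul_of_nonneg_left hG hW0
    refine h51.trans (hW.le.trans (h4.trans ?_))
    have e : (0.0205 * (c * st)) * (0.3 * (c * r)) - (0.00595 * c ^ 2) * (1.01 * (st * r))
        = 0.0001405 * (c ^ 2 * (st * r)) := by ring
    have : 0 ≤ 0.0001405 * (c ^ 2 * (st * r)) := by
      have : 0 < st := by linarith
      positivity
    linarith
  exact le_of_mul_le_mul_right h5 (by positivity)

/-- real values of the four numbers -/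
theorem base {t th X Y G : ℝ} {n g b1 b2 n1 n2 D w w' M d m1 m2 : ℕ} (hn0 : 0 < n) (hb1 : 0 < b1)
    (hb2 : 0 < b2) (hD : 0 < D) (hd : 0 < d) (hn1 : n = b1 * n1) (hn2 : n + g = b2 * n2)
    (hth : th = t / n - M) (hX : X = (w' : ℝ) * D / b1 - th) (hY : Y = (w : ℝ) * D / b2 - th)
    (hG : (d : ℝ) * D = b1 * b2 * G) (hm1 : b1 * M + w' * D = d * m1)
    (hm2 : b2 * M + w * D = d * m2) :
    ((n1 * (d * m1) : ℕ) : ℝ) = t + n * X ∧ ((n2 * (d * m2) : ℕ) : ℝ) = t + g * (t / n) + (n + g) * Y ∧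
      (w : ℝ) * m1 * G = (th + Y) * (t / n + X) ∧ (w' : ℝ) * m2 * G = (th + X) * (t / n + Y) := by
  have hn0r : (0 : ℝ) < n := by exact_mod_cast hn0
  have hb1r : (0 : ℝ) < b1 := by exact_mod_cast hb1
  have hb2r : (0 : ℝ) < b2 := by exact_mod_cast hb2
  have hDr : (0 : ℝ) < D := by exact_mod_cast hD
  have hdr : (0 : ℝ) < d := by exact_mod_cast hd
  have hw' : (w' : ℝ) * D = b1 * (th + X) := by
    have : (w' : ℝ) * D / b1 = th + X := by rw [hX]; ring
    rw [← this]; field_simp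
  have hw : (w : ℝ) * D = b2 * (th + Y) := by
    have : (w : ℝ) * D / b2 = th + Y := by rw [hY]; ring
    rw [← this]; field_simp
  have htn : t = (n : ℝ) * (t / n) := by field_simp
  have hMth : (M : ℝ) + th = t / n := by rw [hth]; ring
  have hnr : (n : ℝ) = b1 * n1 := by rw [hn1]; push_cast; ring
  have hnr1 : (n : ℝ) + g = b2 * n2 := by
    have : ((n + g : ℕ) : ℝ) = ((b2 * n2 : ℕ) : ℝ) := by rw [hn2]
    push_cast at this
    exact this
  have hm1r : (d : ℝ) * m1 = b1 * (t / n + X) := by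
    have : ((b1 * M + w' * D : ℕ) : ℝ) = ((d * m1 : ℕ) : ℝ) := by rw [hm1]
    push_cast at this
    rw [← this, ← hMth]
    linear_combination hw'
  have hm2r : (d : ℝ) * m2 = b2 * (t / n + Y) := by
    have : ((b2 * M + w * D : ℕ) : ℝ) = ((d * m2 : ℕ) : ℝ) := by rw [hm2]
    push_cast at this
    rw [← this, ← hMth]
    linear_combination hw
  refine ⟨?_, ?_, ?_, ?_⟩
  · push_cast
    rw [hm1r]
    calc (n1 : ℝ) * (b1 * (t / n + X)) = (b1 * n1) * (t / n + X) := by ring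
      _ = n * (t / n) + n * X := by rw [← hnr]; ring
      _ = _ := by rw [← htn]
  · push_cast
    rw [hm2r]
    calc (n2 : ℝ) * (b2 * (t / n + Y)) = (b2 * n2) * (t / n + Y) := by ring
      _ = n * (t / n) + g * (t / n) + (n + g) * Y := by rw [← hnr1]; ring
      _ = _ := by rw [← htn]
  · have h1 : (d * D : ℝ) * ((w : ℝ) * m1 * G) = (d * D : ℝ) * ((th + Y) * (t / n + X)) := by
      calc (d : ℝ) * D * ((w : ℝ) * m1 * G)
          = (w * D) * (d * m1) * G := by ring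
        _ = (b2 * (th + Y)) * (b1 * (t / n + X)) * G := by rw [hw, hm1r]
        _ = (b1 * b2 * G) * ((th + Y) * (t / n + X)) := by ring
        _ = _ := by rw [hG]
    exact mul_left_cancel₀ (by positivity) h1
  · have h1 : (d * D : ℝ) * ((w' : ℝ) * m2 * G) = (d * D : ℝ) * ((th + X) * (t / n + Y)) := by
      calc (d : ℝ) * D * ((w' : ℝ) * m2 * G)
          = (w' * D) * (d * m2) * G := by ring
        _ = (b1 * (th + X)) * (b2 * (t / n + Y)) * G := by rw [hw', hm2r]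
        _ = (b1 * b2 * G) * ((th + X) * (t / n + Y)) := by ring
        _ = _ := by rw [hG]
    exact mul_left_cancel₀ (by positivity) h1

/-- the numbers depending on `R` only -/
theorem small {c R t : ℝ} {n g : ℕ} (hc : 0 < c) (hc1 : c ≤ 1) (hR0 : 0 < R) (hg : 1 ≤ g)
    (hR : 1000 * g ≤ c * R) (hst : 100 ≤ √t) (ht : 0 < t) (hn1 : R * √t < n) :
    0 < t / n ∧ t / n ≤ √t / R ∧ g * (t / n) ≤ 0.001 * (c * √t) ∧
      g * (c / R) ≤ 0.00001 * (c * √t) ∧ g * (c / R) ≤ 0.001 * c ^ 2 := by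
  have hst2 : √t * √t = t := Real.mul_self_sqrt ht.le
  have hst0 : 0 < √t := by linarith
  have hn0 : (0 : ℝ) < n := lt_trans (by positivity) hn1
  have hgr : (1 : ℝ) ≤ g := by exact_mod_cast hg
  have htn1 : t / n ≤ √t / R := by
    rw [div_le_div_iff₀ hn0 hR0]
    calc t * R = √t * (R * √t) := by rw [mul_left_comm, hst2]; ring
      _ ≤ √t * n := mul_le_mul_of_nonneg_left hn1.le hst0.le
  have hiR : g / R ≤ c / 1000 := by
    rw [div_le_div_iff₀ hR0 (by norm_num)]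
    linarith
  have e2 : (g : ℝ) * (c / R) = c * (g / R) := by ring
  refine ⟨by positivity, htn1, ?_, ?_, ?_⟩
  · calc (g : ℝ) * (t / n) ≤ g * (√t / R) := by gcongr
      _ = √t * (g / R) := by ring
      _ ≤ √t * (c / 1000) := mul_le_mul_of_nonneg_left hiR hst0.le
      _ = _ := by ring
  · rw [e2]
    have h1 : g / R ≤ 0.00001 * √t := by linarith
    have := mul_le_mul_of_nonneg_left h1 hc.le
    linarith
  · rw [e2]
    have := mul_le_mul_of_nonneg_left hiR hc.le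
    nlinarith

/-- conclusion from the four positions -/
theorem finish {c t : ℝ} {P n g b1 b2 n1 n2 d m1 m2 p : ℕ} (ht : 0 < t)
    (hI : ConstOn P t (c * √t))
    (hn0 : 0 < n) (hn1 : n = b1 * n1) (hn2 : n + g = b2 * n2) (k1 : (n1 * (d * m1)).Coprime P) (k2 : (b2 * p * m1).Coprime P)
    (k3 : (n2 * (d * m2)).Coprime P) (k4 : (b1 * p * m2).Coprime P)
    (q1 : t < ((n1 * (d * m1) : ℕ) : ℝ) ∧ ((n1 * (d * m1) : ℕ) : ℝ) < t + c * √t)
    (q2 : t < ((b2 * p * m1 : ℕ) : ℝ) ∧ ((b2 * p * m1 : ℕ) : ℝ) < t + c * √t)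
    (q3 : t < ((n2 * (d * m2) : ℕ) : ℝ) ∧ ((n2 * (d * m2) : ℕ) : ℝ) < t + c * √t)
    (q4 : t < ((b1 * p * m2 : ℕ) : ℝ) ∧ ((b1 * p * m2 : ℕ) : ℝ) < t + c * √t) :
    lam n = lam (n + g) := by
  have pos : ∀ k : ℕ, t < (k : ℝ) → k ≠ 0 := by
    intro k hk h
    rw [h, Nat.cast_zero] at hk
    linarith
  have r1 := pos _ q1.1
  have r2 := pos _ q2.1
  have r3 := pos _ q3.1
  simp only [ne_eq, mul_eq_zero, not_or] at r1 r2 r3
  obtain ⟨r11, r12, r13⟩ := r1
  obtain ⟨r31, r32, r33⟩ := r3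
  have hb1 : b1 ≠ 0 := by
    intro h
    rw [h, zero_mul] at hn1
    omega
  have key := Pool.Agent.PO69.E1.cfg_sign (b1 := b1) (n1 := n1) (b2 := b2) (n2 := n2) r12 r13 r33 r2.1.2 hb1 r2.1.1
    r11 r31 (hI _ _ q1.1 q1.2 k1 q2.1 q2.2 k2) (hI _ _ q4.1 q4.2 k4 q3.1 q3.2 k3)
  rw [← hn1, ← hn2] at key
  exact key

/-- coprimality of the four numbers -/
theorem cop {P n g b1 b2 n1 n2 D w w' M d m1 m2 p : ℕ} (hn1 : n = b1 * n1) (hn2 : n + g = b2 * n2)
    (hnP : n.Coprime P) (hnP2 : (n + g).Coprime P) (hMP : M.Coprime P) (hD : P ∣ D)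
    (hm1 : b1 * M + w' * D = d * m1) (hm2 : b2 * M + w * D = d * m2) (hp : p.Coprime P) :
    (n1 * (d * m1)).Coprime P ∧ (b2 * p * m1).Coprime P ∧
    (n2 * (d * m2)).Coprime P ∧ (b1 * p * m2).Coprime P := by
  rw [hn1] at hnP
  rw [hn2] at hnP2
  obtain ⟨c1, c2⟩ := Nat.coprime_mul_iff_left.1 hnP
  obtain ⟨c3, c4⟩ := Nat.coprime_mul_iff_left.1 hnP2
  obtain ⟨D', rfl⟩ := hD
  have h1 : (d * m1).Coprime P := by
    rw [← hm1]
    have e : b1 * M + w' * (P * D') = b1 * M + P * (w' * D') := by ring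
    rw [e, Nat.coprime_add_mul_left_left]
    exact Nat.Coprime.mul_left c1 hMP
  have h2 : (d * m2).Coprime P := by
    rw [← hm2]
    have e : b2 * M + w * (P * D') = b2 * M + P * (w * D') := by ring
    rw [e, Nat.coprime_add_mul_left_left]
    exact Nat.Coprime.mul_left c3 hMP
  have h3 := (Nat.coprime_mul_iff_left.1 h1).2
  have h4 := (Nat.coprime_mul_iff_left.1 h2).2
  exact ⟨Nat.Coprime.mul_left c2 h1, Nat.Coprime.mul_left (Nat.Coprime.mul_left c3 hp) h3,
    Nat.Coprime.mul_left c4 h2, Nat.Coprime.mul_left (Nat.Coprime.mul_left c1 hp) h4⟩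

/-- coprimality of `p` -/
theorem cop_p {P x y p : ℕ} (h : x = y + p) (hc : (P ∣ x ∧ y.Coprime P) ∨ (P ∣ y ∧ x.Coprime P)) :
    p.Coprime P := by
  rcases hc with ⟨h1, h2⟩ | ⟨h1, h2⟩
  · have h3 : Nat.gcd p P ∣ y := by
      have h4 : Nat.gcd p P ∣ y + p := by rw [← h]; exact (Nat.gcd_dvd_right _ _).trans h1
      exact (Nat.dvd_add_left (Nat.gcd_dvd_left _ _)).1 h4
    exact Nat.eq_one_of_dvd_one (h2 ▸ Nat.dvd_gcd h3 (Nat.gcd_dvd_right _ _))
  · have h3 : Nat.gcd p P ∣ x := by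
      rw [h]; exact dvd_add ((Nat.gcd_dvd_right _ _).trans h1) (Nat.gcd_dvd_left _ _)
    exact Nat.eq_one_of_dvd_one (h2 ▸ Nat.dvd_gcd h3 (Nat.gcd_dvd_right _ _))

end E1

open E1 in
theorem chainZ : ChainZ := by
  intro P g c R _ hg hc hc1 hR
  refine ⟨10000, ?_⟩
  intro t ht hI n b1 b2 D w w' M d _ _ hb1 hb2 hnP hnP2 hMP hn1 hn2 hM0 hM1 hD hw0 hw0' hd0 hPD hPw hdv1
    hdv2 hcase
  have ht0 : 0 < t := by linarith
  have hR0 : 0 < R := by
    by_contra h
    push Not at h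
    have : c * R ≤ 0 := mul_nonpos_of_nonneg_of_nonpos hc.le h
    have : (1 : ℝ) ≤ g := by exact_mod_cast hg
    linarith
  have hst : 100 ≤ √t := by
    rw [show (100 : ℝ) = √10000 by rw [show (10000 : ℝ) = 100 ^ 2 by norm_num]; exact (Real.sqrt_sq (by norm_num)).symm]
    exact Real.sqrt_le_sqrt ht
  have hst0 : 0 < √t := by linarith
  have hn0 : (0 : ℝ) < n := lt_trans (by positivity) hn1
  have hn0' : 0 < n := by exact_mod_cast hn0
  have hb10 : 0 < b1 := Nat.pos_of_dvd_of_pos hb1 hn0'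
  have hb20 : 0 < b2 := Nat.pos_of_dvd_of_pos hb2 (by omega)
  have hgr : (1 : ℝ) ≤ g := by exact_mod_cast hg
  have hg0 : (0 : ℝ) < g := by linarith
  have hb1r : (0 : ℝ) < b1 := by exact_mod_cast hb10
  have hb2r : (0 : ℝ) < b2 := by exact_mod_cast hb20
  have hDr : (0 : ℝ) < D := by exact_mod_cast hD
  have hdr0 : (0 : ℝ) < d := by exact_mod_cast hd0
  obtain ⟨n1, hn1e⟩ := hb1
  obtain ⟨n2, hn2e⟩ := hb2
  obtain ⟨m1, hm1⟩ := hdv1
  obtain ⟨m2, hm2⟩ := hdv2
  have hnn : b1 * n1 + g = b2 * n2 := by omega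
  obtain ⟨s1, s2, s3, s4, s5⟩ := small (n := n) hc hc1 hR0 hg hR hst ht0 hn1
  have s6 : 0 < (g : ℝ) * (t / n) := by positivity
  obtain ⟨th, hth⟩ : ∃ th : ℝ, th = t / n - M := ⟨_, rfl⟩
  have hth0 : 0 ≤ th := by rw [hth]; linarith
  have hth1 : th ≤ c ^ 2 / (200 * g) := by rw [hth]; linarith
  have hgth : g * th ≤ c ^ 2 / 200 := by
    have h1 := mul_le_mul_of_nonneg_left hth1 hg0.le
    have e : (g : ℝ) * (c ^ 2 / (200 * g)) = c ^ 2 / 200 := by field_simp
    rw [e] at h1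
    exact h1
  obtain ⟨X, hX⟩ : ∃ X, X = (w' : ℝ) * D / b1 - th := ⟨_, rfl⟩
  obtain ⟨Y, hY⟩ : ∃ Y, Y = (w : ℝ) * D / b2 - th := ⟨_, rfl⟩
  have hkap : 0 < c / R := div_pos hc hR0
  have hcs : 0 < c * √t := by positivity
  have hRR : R * (1 / R) = 1 := by field_simp
  have up : ∀ Z : ℝ, 0 < Z → Z < 0.95 * (c / R) → ((n : ℝ) + g) * Z ≤ 0.9596 * (c * √t) := by
    intro Z hZ0 hZ
    have h1 : ((n : ℝ) + g) * Z ≤ (1.01 * R * √t + g) * (0.95 * (c / R)) :=
      mul_le_mul (by linarith) hZ.le hZ0.le (by positivity)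
    have e : (1.01 * R * √t + g) * (0.95 * (c / R))
        = 0.9595 * (c * √t) * (R * (1 / R)) + 0.95 * (g * (c / R)) := by
      ring
    rw [e, hRR, mul_one] at h1
    linarith
  have hA : ∀ Z : ℝ, Z ≤ 0.95 * (c / R) → g * (th + Z) ≤ 0.00595 * c ^ 2 := by
    intro Z hZ
    have h1 := mul_le_mul_of_nonneg_left hZ hg0.le
    have e : (g : ℝ) * (0.95 * (c / R)) = 0.95 * (g * (c / R)) := by ring
    rw [e] at h1
    linarith
  have lo : ∀ Z : ℝ, 0.25 * (c / R) < Z → 0.25 * (c * √t) ≤ (n : ℝ) * Z := by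
    intro Z hZ
    have h1 : (R * √t) * (0.25 * (c / R)) ≤ (n : ℝ) * Z :=
      mul_le_mul hn1.le hZ.le (by positivity) hn0.le
    have e : (R * √t) * (0.25 * (c / R)) = 0.25 * (c * √t) * (R * (1 / R)) := by ring
    rw [e, hRR, mul_one] at h1
    exact h1
  have hnZ : ∀ Z : ℝ, 0 < Z → (n : ℝ) * Z ≤ ((n : ℝ) + g) * Z := by
    intro Z hZ
    have : 0 ≤ (g : ℝ) * Z := by positivity
    linarith
  rcases hcase with ⟨hde, x1, x2, y1, y2⟩ | ⟨hde, y1, y2, x1, x2⟩
  · -- sign plus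
    rw [← hth] at x1 x2 y1 y2
    have hX0 : 0.25 * (c / R) < X := by rw [hX]; linarith
    have hX1 : X < 0.45 * (c / R) := by rw [hX]; linarith
    have hY0 : 0.75 * (c / R) < Y := by rw [hY]; linarith
    have hY1 : Y < 0.95 * (c / R) := by rw [hY]; linarith
    have hXp : 0 < X := by linarith
    have hYp : 0 < Y := by linarith
    have hdr : (d : ℝ) = (b1 : ℝ) * w - b2 * w' := by
      have : ((b2 * w' + d : ℕ) : ℝ) = ((b1 * w : ℕ) : ℝ) := by rw [hde]
      push_cast at this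
      linarith
    have hG : (d : ℝ) * D = b1 * b2 * (Y - X) := by
      rw [hdr, hX, hY]
      field_simp
      ring
    obtain ⟨P1, P3, e1, e2⟩ := base hn0' hb10 hb20 hD hd0 hn1e hn2e hth hX hY hG hm1 hm2
    have hple : n1 * w' ≤ n2 * w := by
      have h1 : b1 * b2 * (n1 * w') ≤ b1 * b2 * (n2 * w) := by
        have e : b1 * b2 * (n2 * w) = b1 * b2 * (n1 * w') + (b1 * n1 * d + g * (b1 * w)) := by
          zify at hde hnn ⊢
          linear_combination (-(b1 : ℤ) * w) * hnn - (b1 * n1 : ℤ) * hde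
        rw [e]
        exact Nat.le_add_right _ _
      exact Nat.le_of_mul_le_mul_left h1 (by positivity)
    obtain ⟨p, hp⟩ := Nat.exists_eq_add_of_le hple
    have id1 : b2 * p = n1 * d + g * w := by
      zify at hde hnn hp ⊢
      linear_combination -(b2 : ℤ) * hp - w * hnn - n1 * hde
    have id2 : b1 * p = n2 * d + g * w' := by
      zify at hde hnn hp ⊢
      linear_combination -(b1 : ℤ) * hp - w' * hnn - n2 * hde
    have P2 : ((b2 * p * m1 : ℕ) : ℝ) = t + n * X + g * (w * m1) := by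
      rw [← P1, id1]
      push_cast
      ring
    have P4 : ((b1 * p * m2 : ℕ) : ℝ) = t + g * (t / n) + (n + g) * Y + g * (w' * m2) := by
      rw [← P3, id2]
      push_cast
      ring
    have hm1n : (0 : ℝ) ≤ g * ((w : ℝ) * m1) := by positivity
    have hm2n : (0 : ℝ) ≤ g * ((w' : ℝ) * m2) := by positivity
    have e1 : g * ((w : ℝ) * m1) * (Y - X) = (g * (th + Y)) * (t / n + X) := by
      rw [mul_assoc, e1]; ring
    have e2 : g * ((w' : ℝ) * m2) * (Y - X) = (g * (th + X)) * (t / n + Y) := by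
      rw [mul_assoc, e2]; ring
    have B1 : g * ((w : ℝ) * m1) ≤ 0.0205 * (c * √t) :=
      extra_bound hc hR0 hc1 hst (hA Y hY1.le) s1 s2 hXp (by linarith) (by linarith) hm1n e1
    have B2 : g * ((w' : ℝ) * m2) ≤ 0.0205 * (c * √t) :=
      extra_bound hc hR0 hc1 hst (hA X (by linarith)) s1 s2 hYp hY1.le (by linarith) hm2n e2
    have u1 := up X hXp (by linarith)
    have u2 := up Y hYp hY1
    have l1 := lo X hX0
    have l2 := lo Y (by linarith)
    have z1 := hnZ X hXp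
    have z2 := hnZ Y hYp
    have hn1P : n1.Coprime P := by
      rw [hn1e] at hnP; exact (Nat.coprime_mul_iff_left.1 hnP).2
    have hn2P : n2.Coprime P := by
      rw [hn2e] at hnP2; exact (Nat.coprime_mul_iff_left.1 hnP2).2
    have hpP : p.Coprime P := by
      refine cop_p hp ?_
      rcases hPw with ⟨h1, h2⟩ | ⟨h1, h2⟩
      · exact Or.inl ⟨Dvd.dvd.mul_left h1 _, Nat.Coprime.mul_left hn1P h2⟩
      · exact Or.inr ⟨Dvd.dvd.mul_left h1 _, Nat.Coprime.mul_left hn2P h2⟩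
    obtain ⟨k1, k2, k3, k4⟩ := cop hn1e hn2e hnP hnP2 hMP hPD hm1 hm2 hpP
    refine finish ht0 hI hn0' hn1e hn2e k1 k2 k3 k4 ?_ ?_ ?_ ?_
    · rw [P1]; constructor <;> linarith
    · rw [P2]; constructor <;> linarith
    · rw [P3]; constructor <;> linarith
    · rw [P4]; constructor <;> linarith
  · -- sign minus
    rw [← hth] at x1 x2 y1 y2
    have hX0 : 0.75 * (c / R) < X := by rw [hX]; linarith
    have hX1 : X < 0.95 * (c / R) := by rw [hX]; linarith
    have hY0 : 0.25 * (c / R) < Y := by rw [hY]; linarith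
    have hY1 : Y < 0.45 * (c / R) := by rw [hY]; linarith
    have hXp : 0 < X := by linarith
    have hYp : 0 < Y := by linarith
    have hdr : (d : ℝ) = (b2 : ℝ) * w' - b1 * w := by
      have : ((b1 * w + d : ℕ) : ℝ) = ((b2 * w' : ℕ) : ℝ) := by rw [hde]
      push_cast at this
      linarith
    have hG : (d : ℝ) * D = b1 * b2 * (X - Y) := by
      rw [hdr, hX, hY]
      field_simp
      ring
    obtain ⟨P1, P3, e1, e2⟩ := base hn0' hb10 hb20 hD hd0 hn1e hn2e hth hX hY hG hm1 hm2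
    have hm1n : (0 : ℝ) ≤ g * ((w : ℝ) * m1) := by positivity
    have hm2n : (0 : ℝ) ≤ g * ((w' : ℝ) * m2) := by positivity
    have e1 : g * ((w : ℝ) * m1) * (X - Y) = (g * (th + Y)) * (t / n + X) := by
      rw [mul_assoc, e1]; ring
    have e2 : g * ((w' : ℝ) * m2) * (X - Y) = (g * (th + X)) * (t / n + Y) := by
      rw [mul_assoc, e2]; ring
    have B1 : g * ((w : ℝ) * m1) ≤ 0.0205 * (c * √t) :=
      extra_bound hc hR0 hc1 hst (hA Y (by linarith)) s1 s2 hXp hX1.le (by linarith) hm1n e1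
    have B2 : g * ((w' : ℝ) * m2) ≤ 0.0205 * (c * √t) :=
      extra_bound hc hR0 hc1 hst (hA X hX1.le) s1 s2 hYp (by linarith) (by linarith) hm2n e2
    have u1 := up X hXp hX1
    have u2 := up Y hYp (by linarith)
    have l1 := lo X (by linarith)
    have l2 := lo Y hY0
    have z1 := hnZ X hXp
    have z2 := hnZ Y hYp
    have hwd : g * w ≤ n1 * d := by
      have h1 : ((g * w * m1 : ℕ) : ℝ) < ((n1 * d * m1 : ℕ) : ℝ) := by
        have e : ((n1 * d * m1 : ℕ) : ℝ) = ((n1 * (d * m1) : ℕ) : ℝ) := by rw [mul_assoc]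
        rw [e, P1]
        push_cast
        rw [mul_assoc]
        linarith
      have h2 : g * w * m1 < n1 * d * m1 := by exact_mod_cast h1
      exact (Nat.lt_of_mul_lt_mul_right h2).le
    have hple : n2 * w ≤ n1 * w' := by
      have h1 : b1 * b2 * (n2 * w) ≤ b1 * b2 * (n1 * w') := by
        have e : b1 * b2 * (n1 * w') + b1 * (g * w) = b1 * b2 * (n2 * w) + b1 * (n1 * d) := by
          zify at hde hnn ⊢
          linear_combination (b1 * w : ℤ) * hnn - (b1 * n1 : ℤ) * hde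
        have h2 : b1 * (g * w) ≤ b1 * (n1 * d) := Nat.mul_le_mul_left _ hwd
        omega
      exact Nat.le_of_mul_le_mul_left h1 (by positivity)
    obtain ⟨p, hp⟩ := Nat.exists_eq_add_of_le hple
    have id1 : b2 * p + g * w = n1 * d := by
      zify at hde hnn hp ⊢
      linear_combination -(b2 : ℤ) * hp + w * hnn - n1 * hde
    have id2 : b1 * p + g * w' = n2 * d := by
      zify at hde hnn hp ⊢
      linear_combination -(b1 : ℤ) * hp + w' * hnn - n2 * hde
    have P2 : ((b2 * p * m1 : ℕ) : ℝ) = t + n * X - g * (w * m1) := by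
      rw [← P1]
      have : ((n1 * (d * m1) : ℕ) : ℝ) = (((b2 * p + g * w) * m1 : ℕ) : ℝ) := by rw [id1, mul_assoc]
      rw [this]
      push_cast
      ring
    have P4 : ((b1 * p * m2 : ℕ) : ℝ) = t + g * (t / n) + (n + g) * Y - g * (w' * m2) := by
      rw [← P3]
      have : ((n2 * (d * m2) : ℕ) : ℝ) = (((b1 * p + g * w') * m2 : ℕ) : ℝ) := by rw [id2, mul_assoc]
      rw [this]
      push_cast
      ring
    have hn1P : n1.Coprime P := by
      rw [hn1e] at hnP; exact (Nat.coprime_mul_iff_left.1 hnP).2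
    have hn2P : n2.Coprime P := by
      rw [hn2e] at hnP2; exact (Nat.coprime_mul_iff_left.1 hnP2).2
    have hpP : p.Coprime P := by
      refine cop_p hp ?_
      rcases hPw with ⟨h1, h2⟩ | ⟨h1, h2⟩
      · exact Or.inr ⟨Dvd.dvd.mul_left h1 _, Nat.Coprime.mul_left hn1P h2⟩
      · exact Or.inl ⟨Dvd.dvd.mul_left h1 _, Nat.Coprime.mul_left hn2P h2⟩
    obtain ⟨k1, k2, k3, k4⟩ := cop hn1e hn2e hnP hnP2 hMP hPD hm1 hm2 hpP
    refine finish ht0 hI hn0' hn1e hn2e k1 k2 k3 k4 ?_ ?_ ?_ ?_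
    · rw [P1]; constructor <;> linarith
    · rw [P2]; constructor <;> linarith
    · rw [P3]; constructor <;> linarith
    · rw [P4]; constructor <;> linarith

end Pool.Agent.MRZ
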