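import Pool.Agent.Lib.MRZ.StatE
import Pool.Agent.Lib.MRZ.E1

/-!
# The linking configuration with the four integers made explicit

`chain_four`: for `n` as in `ChainZ` there are four integers `N1, N2, N3, N4` in `(t, t + c √t)`, coprime to
`P`, with `lam N1 = lam N2` and `lam N4 = lam N3` together giving `lam n = lam (n + g)`.
`chainE : ChainE` is the version with an exceptional set.
-/

set_option autoImplicit false

namespace Pool.Agent.MRZ

open Finset Pool.Agent.MRL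

/-- `N` is an integer of `(t, t + ℓ)` coprime to `P`. -/
def InI (P : ℕ) (t ℓ : ℝ) (N : ℕ) : Prop := t < (N : ℝ) ∧ (N : ℝ) < t + ℓ ∧ N.Coprime P

namespace E1

/-- conclusion from the four positions -/
theorem finish4 {c t : ℝ} {P n g b1 b2 n1 n2 d m1 m2 p M D w w' : ℕ} (ht : 0 < t)
    (hn0 : 0 < n) (hn1 : n = b1 * n1) (hn2 : n + g = b2 * n2)
    (hm1 : b1 * M + w' * D = d * m1) (hm2 : b2 * M + w * D = d * m2)
    (hp : d * n + b1 * w * g = b1 * b2 * p ∨ b1 * b2 * p + b1 * w * g = d * n)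
    (k1 : (n1 * (d * m1)).Coprime P) (k2 : (b2 * p * m1).Coprime P)
    (k3 : (n2 * (d * m2)).Coprime P) (k4 : (b1 * p * m2).Coprime P)
    (q1 : t < ((n1 * (d * m1) : ℕ) : ℝ) ∧ ((n1 * (d * m1) : ℕ) : ℝ) < t + c * √t)
    (q2 : t < ((b2 * p * m1 : ℕ) : ℝ) ∧ ((b2 * p * m1 : ℕ) : ℝ) < t + c * √t)
    (q3 : t < ((n2 * (d * m2) : ℕ) : ℝ) ∧ ((n2 * (d * m2) : ℕ) : ℝ) < t + c * √t)
    (q4 : t < ((b1 * p * m2 : ℕ) : ℝ) ∧ ((b1 * p * m2 : ℕ) : ℝ) < t + c * √t) :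
    ∃ n1 n2 m1 m2 p : ℕ, n = b1 * n1 ∧ n + g = b2 * n2 ∧ b1 * M + w' * D = d * m1 ∧
      b2 * M + w * D = d * m2 ∧
      (d * n + b1 * w * g = b1 * b2 * p ∨ b1 * b2 * p + b1 * w * g = d * n) ∧
      InI P t (c * √t) (n1 * (d * m1)) ∧ InI P t (c * √t) (b2 * p * m1) ∧
      InI P t (c * √t) (n2 * (d * m2)) ∧ InI P t (c * √t) (b1 * p * m2) ∧
      (lam (n1 * (d * m1)) = lam (b2 * p * m1) → lam (b1 * p * m2) = lam (n2 * (d * m2)) →
        lam n = lam (n + g)) := by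
  refine ⟨n1, n2, m1, m2, p, hn1, hn2, hm1, hm2, hp, ⟨q1.1, q1.2, k1⟩, ⟨q2.1, q2.2, k2⟩,
    ⟨q3.1, q3.2, k3⟩, ⟨q4.1, q4.2, k4⟩, ?_⟩
  intro l1 l2
  have pos : ∀ k : ℕ, t < (k : ℝ) → k ≠ 0 := by
    intro k hk h
    rw [h, Nat.cast_zero] at hk
    linarith
  have r1 := pos _ q1.1
  have r2 := pos _ q2.1
  have r3 := pos _ q3.1
  simp only [ne_eq, mul_eq_zero, not_or] at r1 r2 r3
  obtain ⟨r11, r12, r13⟩ := r1
  obtain ⟨r31, r32, r33⟩ := r3
  have hb1 : b1 ≠ 0 := by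
    intro h
    rw [h, zero_mul] at hn1
    omega
  have key := Pool.Agent.PO69.E1.cfg_sign (b1 := b1) (n1 := n1) (b2 := b2) (n2 := n2) r12 r13 r33
    r2.1.2 hb1 r2.1.1 r11 r31 l1 l2
  rw [← hn1, ← hn2] at key
  exact key

end E1

open E1 in
/-- **The four integers.** -/
theorem chain_four {P g : ℕ} {c R t : ℝ} (hg : 1 ≤ g) (hc : 0 < c) (hc1 : c ≤ 1)
    (hR : 1000 * g ≤ c * R) (ht : 10000 ≤ t) {n b1 b2 D w w' M d : ℕ}
    (hb1 : b1 ∣ n) (hb2 : b2 ∣ n + g) (hnP : n.Coprime P) (hnP2 : (n + g).Coprime P)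
    (hMP : M.Coprime P) (hn1 : R * √t < n) (hn2 : (n : ℝ) ≤ 1.01 * R * √t)
    (hM0 : (M : ℝ) ≤ t / n) (hM1 : t / n < M + c ^ 2 / (200 * g))
    (hD : 0 < D) (hd0 : 0 < d) (hPD : P ∣ D)
    (hPw : (P ∣ w ∧ w'.Coprime P) ∨ (P ∣ w' ∧ w.Coprime P))
    (hdv1 : d ∣ b1 * M + w' * D) (hdv2 : d ∣ b2 * M + w * D)
    (hcase : (b2 * w' + d = b1 * w ∧
        (t / n - M + 0.25 * (c / R) < (w' : ℝ) * D / b1) ∧ ((w' : ℝ) * D / b1 < t / n - M + 0.45 * (c / R)) ∧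
        (t / n - M + 0.75 * (c / R) < (w : ℝ) * D / b2) ∧ ((w : ℝ) * D / b2 < t / n - M + 0.95 * (c / R))) ∨
      (b1 * w + d = b2 * w' ∧
        (t / n - M + 0.25 * (c / R) < (w : ℝ) * D / b2) ∧ ((w : ℝ) * D / b2 < t / n - M + 0.45 * (c / R)) ∧
        (t / n - M + 0.75 * (c / R) < (w' : ℝ) * D / b1) ∧ ((w' : ℝ) * D / b1 < t / n - M + 0.95 * (c / R)))) :
    ∃ n1 n2 m1 m2 p : ℕ, n = b1 * n1 ∧ n + g = b2 * n2 ∧ b1 * M + w' * D = d * m1 ∧
      b2 * M + w * D = d * m2 ∧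
      (d * n + b1 * w * g = b1 * b2 * p ∨ b1 * b2 * p + b1 * w * g = d * n) ∧
      InI P t (c * √t) (n1 * (d * m1)) ∧ InI P t (c * √t) (b2 * p * m1) ∧
      InI P t (c * √t) (n2 * (d * m2)) ∧ InI P t (c * √t) (b1 * p * m2) ∧
      (lam (n1 * (d * m1)) = lam (b2 * p * m1) → lam (b1 * p * m2) = lam (n2 * (d * m2)) →
        lam n = lam (n + g)) := by
  have ht0 : 0 < t := by linarith
  have hR0 : 0 < R := by
    by_contra h
    push Not at h
    have : c * R ≤ 0 := mul_nonpos_of_nonneg_of_nonpos hc.le h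
    have : (1 : ℝ) ≤ g := by exact_mod_cast hg
    linarith
  have hst : 100 ≤ √t := by
    rw [show (100 : ℝ) = √10000 by rw [show (10000 : ℝ) = 100 ^ 2 by norm_num]; exact (Real.sqrt_sq (by norm_num)).symm]
    exact Real.sqrt_le_sqrt ht
  have hst0 : 0 < √t := by linarith
  have hn0 : (0 : ℝ) < n := lt_trans (by positivity) hn1
  have hn0' : 0 < n := by exact_mod_cast hn0
  have hb10 : 0 < b1 := Nat.pos_of_dvd_of_pos hb1 hn0'
  have hb20 : 0 < b2 := Nat.pos_of_dvd_of_pos hb2 (by omega)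
  have hgr : (1 : ℝ) ≤ g := by exact_mod_cast hg
  have hg0 : (0 : ℝ) < g := by linarith
  have hb1r : (0 : ℝ) < b1 := by exact_mod_cast hb10
  have hb2r : (0 : ℝ) < b2 := by exact_mod_cast hb20
  have hDr : (0 : ℝ) < D := by exact_mod_cast hD
  have hdr0 : (0 : ℝ) < d := by exact_mod_cast hd0
  obtain ⟨n1, hn1e⟩ := hb1
  obtain ⟨n2, hn2e⟩ := hb2
  obtain ⟨m1, hm1⟩ := hdv1
  obtain ⟨m2, hm2⟩ := hdv2
  have hnn : b1 * n1 + g = b2 * n2 := by omega
  obtain ⟨s1, s2, s3, s4, s5⟩ := small (n := n) hc hc1 hR0 hg hR hst ht0 hn1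
  have s6 : 0 < (g : ℝ) * (t / n) := by positivity
  obtain ⟨th, hth⟩ : ∃ th : ℝ, th = t / n - M := ⟨_, rfl⟩
  have hth0 : 0 ≤ th := by rw [hth]; linarith
  have hth1 : th ≤ c ^ 2 / (200 * g) := by rw [hth]; linarith
  have hgth : g * th ≤ c ^ 2 / 200 := by
    have h1 := mul_le_mul_of_nonneg_left hth1 hg0.le
    have e : (g : ℝ) * (c ^ 2 / (200 * g)) = c ^ 2 / 200 := by field_simp
    rw [e] at h1
    exact h1
  obtain ⟨X, hX⟩ : ∃ X, X = (w' : ℝ) * D / b1 - th := ⟨_, rfl⟩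
  obtain ⟨Y, hY⟩ : ∃ Y, Y = (w : ℝ) * D / b2 - th := ⟨_, rfl⟩
  have hkap : 0 < c / R := div_pos hc hR0
  have hcs : 0 < c * √t := by positivity
  have hRR : R * (1 / R) = 1 := by field_simp
  have up : ∀ Z : ℝ, 0 < Z → Z < 0.95 * (c / R) → ((n : ℝ) + g) * Z ≤ 0.9596 * (c * √t) := by
    intro Z hZ0 hZ
    have h1 : ((n : ℝ) + g) * Z ≤ (1.01 * R * √t + g) * (0.95 * (c / R)) :=
      mul_le_mul (by linarith) hZ.le hZ0.le (by positivity)
    have e : (1.01 * R * √t + g) * (0.95 * (c / R))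
        = 0.9595 * (c * √t) * (R * (1 / R)) + 0.95 * (g * (c / R)) := by
      ring
    rw [e, hRR, mul_one] at h1
    linarith
  have hA : ∀ Z : ℝ, Z ≤ 0.95 * (c / R) → g * (th + Z) ≤ 0.00595 * c ^ 2 := by
    intro Z hZ
    have h1 := mul_le_mul_of_nonneg_left hZ hg0.le
    have e : (g : ℝ) * (0.95 * (c / R)) = 0.95 * (g * (c / R)) := by ring
    rw [e] at h1
    linarith
  have lo : ∀ Z : ℝ, 0.25 * (c / R) < Z → 0.25 * (c * √t) ≤ (n : ℝ) * Z := by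
    intro Z hZ
    have h1 : (R * √t) * (0.25 * (c / R)) ≤ (n : ℝ) * Z :=
      mul_le_mul hn1.le hZ.le (by positivity) hn0.le
    have e : (R * √t) * (0.25 * (c / R)) = 0.25 * (c * √t) * (R * (1 / R)) := by ring
    rw [e, hRR, mul_one] at h1
    exact h1
  have hnZ : ∀ Z : ℝ, 0 < Z → (n : ℝ) * Z ≤ ((n : ℝ) + g) * Z := by
    intro Z hZ
    have : 0 ≤ (g : ℝ) * Z := by positivity
    linarith
  rcases hcase with ⟨hde, x1, x2, y1, y2⟩ | ⟨hde, y1, y2, x1, x2⟩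
  · -- sign plus
    rw [← hth] at x1 x2 y1 y2
    have hX0 : 0.25 * (c / R) < X := by rw [hX]; linarith
    have hX1 : X < 0.45 * (c / R) := by rw [hX]; linarith
    have hY0 : 0.75 * (c / R) < Y := by rw [hY]; linarith
    have hY1 : Y < 0.95 * (c / R) := by rw [hY]; linarith
    have hXp : 0 < X := by linarith
    have hYp : 0 < Y := by linarith
    have hdr : (d : ℝ) = (b1 : ℝ) * w - b2 * w' := by
      have : ((b2 * w' + d : ℕ) : ℝ) = ((b1 * w : ℕ) : ℝ) := by rw [hde]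
      push_cast at this
      linarith
    have hG : (d : ℝ) * D = b1 * b2 * (Y - X) := by
      rw [hdr, hX, hY]
      field_simp
      ring
    obtain ⟨P1, P3, e1, e2⟩ := base hn0' hb10 hb20 hD hd0 hn1e hn2e hth hX hY hG hm1 hm2
    have hple : n1 * w' ≤ n2 * w := by
      have h1 : b1 * b2 * (n1 * w') ≤ b1 * b2 * (n2 * w) := by
        have e : b1 * b2 * (n2 * w) = b1 * b2 * (n1 * w') + (b1 * n1 * d + g * (b1 * w)) := by
          zify at hde hnn ⊢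
          linear_combination (-(b1 : ℤ) * w) * hnn - (b1 * n1 : ℤ) * hde
        rw [e]
        exact Nat.le_add_right _ _
      exact Nat.le_of_mul_le_mul_left h1 (by positivity)
    obtain ⟨p, hp⟩ := Nat.exists_eq_add_of_le hple
    have id1 : b2 * p = n1 * d + g * w := by
      zify at hde hnn hp ⊢
      linear_combination -(b2 : ℤ) * hp - w * hnn - n1 * hde
    have id2 : b1 * p = n2 * d + g * w' := by
      zify at hde hnn hp ⊢
      linear_combination -(b1 : ℤ) * hp - w' * hnn - n2 * hde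
    have P2 : ((b2 * p * m1 : ℕ) : ℝ) = t + n * X + g * (w * m1) := by
      rw [← P1, id1]
      push_cast
      ring
    have P4 : ((b1 * p * m2 : ℕ) : ℝ) = t + g * (t / n) + (n + g) * Y + g * (w' * m2) := by
      rw [← P3, id2]
      push_cast
      ring
    have hm1n : (0 : ℝ) ≤ g * ((w : ℝ) * m1) := by positivity
    have hm2n : (0 : ℝ) ≤ g * ((w' : ℝ) * m2) := by positivity
    have e1 : g * ((w : ℝ) * m1) * (Y - X) = (g * (th + Y)) * (t / n + X) := by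
      rw [mul_assoc, e1]; ring
    have e2 : g * ((w' : ℝ) * m2) * (Y - X) = (g * (th + X)) * (t / n + Y) := by
      rw [mul_assoc, e2]; ring
    have B1 : g * ((w : ℝ) * m1) ≤ 0.0205 * (c * √t) :=
      extra_bound hc hR0 hc1 hst (hA Y hY1.le) s1 s2 hXp (by linarith) (by linarith) hm1n e1
    have B2 : g * ((w' : ℝ) * m2) ≤ 0.0205 * (c * √t) :=
      extra_bound hc hR0 hc1 hst (hA X (by linarith)) s1 s2 hYp hY1.le (by linarith) hm2n e2
    have u1 := up X hXp (by linarith)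
    have u2 := up Y hYp hY1
    have l1 := lo X hX0
    have l2 := lo Y (by linarith)
    have z1 := hnZ X hXp
    have z2 := hnZ Y hYp
    have hn1P : n1.Coprime P := by
      rw [hn1e] at hnP; exact (Nat.coprime_mul_iff_left.1 hnP).2
    have hn2P : n2.Coprime P := by
      rw [hn2e] at hnP2; exact (Nat.coprime_mul_iff_left.1 hnP2).2
    have hpP : p.Coprime P := by
      refine cop_p hp ?_
      rcases hPw with ⟨h1, h2⟩ | ⟨h1, h2⟩
      · exact Or.inl ⟨Dvd.dvd.mul_left h1 _, Nat.Coprime.mul_left hn1P h2⟩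
      · exact Or.inr ⟨Dvd.dvd.mul_left h1 _, Nat.Coprime.mul_left hn2P h2⟩
    obtain ⟨k1, k2, k3, k4⟩ := cop hn1e hn2e hnP hnP2 hMP hPD hm1 hm2 hpP
    have hpe : d * n + b1 * w * g = b1 * b2 * p := by
      rw [hn1e, mul_assoc b1 b2 p, id1]
      ring
    refine finish4 ht0 hn0' hn1e hn2e hm1 hm2 (Or.inl hpe) k1 k2 k3 k4 ?_ ?_ ?_ ?_
    · rw [P1]; constructor <;> linarith
    · rw [P2]; constructor <;> linarith
    · rw [P3]; constructor <;> linarith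
    · rw [P4]; constructor <;> linarith
  · -- sign minus
    rw [← hth] at x1 x2 y1 y2
    have hX0 : 0.75 * (c / R) < X := by rw [hX]; linarith
    have hX1 : X < 0.95 * (c / R) := by rw [hX]; linarith
    have hY0 : 0.25 * (c / R) < Y := by rw [hY]; linarith
    have hY1 : Y < 0.45 * (c / R) := by rw [hY]; linarith
    have hXp : 0 < X := by linarith
    have hYp : 0 < Y := by linarith
    have hdr : (d : ℝ) = (b2 : ℝ) * w' - b1 * w := by
      have : ((b1 * w + d : ℕ) : ℝ) = ((b2 * w' : ℕ) : ℝ) := by rw [hde]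
      push_cast at this
      linarith
    have hG : (d : ℝ) * D = b1 * b2 * (X - Y) := by
      rw [hdr, hX, hY]
      field_simp
      ring
    obtain ⟨P1, P3, e1, e2⟩ := base hn0' hb10 hb20 hD hd0 hn1e hn2e hth hX hY hG hm1 hm2
    have hm1n : (0 : ℝ) ≤ g * ((w : ℝ) * m1) := by positivity
    have hm2n : (0 : ℝ) ≤ g * ((w' : ℝ) * m2) := by positivity
    have e1 : g * ((w : ℝ) * m1) * (X - Y) = (g * (th + Y)) * (t / n + X) := by
      rw [mul_assoc, e1]; ring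
    have e2 : g * ((w' : ℝ) * m2) * (X - Y) = (g * (th + X)) * (t / n + Y) := by
      rw [mul_assoc, e2]; ring
    have B1 : g * ((w : ℝ) * m1) ≤ 0.0205 * (c * √t) :=
      extra_bound hc hR0 hc1 hst (hA Y (by linarith)) s1 s2 hXp hX1.le (by linarith) hm1n e1
    have B2 : g * ((w' : ℝ) * m2) ≤ 0.0205 * (c * √t) :=
      extra_bound hc hR0 hc1 hst (hA X hX1.le) s1 s2 hYp (by linarith) (by linarith) hm2n e2
    have u1 := up X hXp hX1
    have u2 := up Y hYp (by linarith)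
    have l1 := lo X (by linarith)
    have l2 := lo Y hY0
    have z1 := hnZ X hXp
    have z2 := hnZ Y hYp
    have hwd : g * w ≤ n1 * d := by
      have h1 : ((g * w * m1 : ℕ) : ℝ) < ((n1 * d * m1 : ℕ) : ℝ) := by
        have e : ((n1 * d * m1 : ℕ) : ℝ) = ((n1 * (d * m1) : ℕ) : ℝ) := by rw [mul_assoc]
        rw [e, P1]
        push_cast
        rw [mul_assoc]
        linarith
      have h2 : g * w * m1 < n1 * d * m1 := by exact_mod_cast h1
      exact (Nat.lt_of_mul_lt_mul_right h2).le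
    have hple : n2 * w ≤ n1 * w' := by
      have h1 : b1 * b2 * (n2 * w) ≤ b1 * b2 * (n1 * w') := by
        have e : b1 * b2 * (n1 * w') + b1 * (g * w) = b1 * b2 * (n2 * w) + b1 * (n1 * d) := by
          zify at hde hnn ⊢
          linear_combination (b1 * w : ℤ) * hnn - (b1 * n1 : ℤ) * hde
        have h2 : b1 * (g * w) ≤ b1 * (n1 * d) := Nat.mul_le_mul_left _ hwd
        omega
      exact Nat.le_of_mul_le_mul_left h1 (by positivity)
    obtain ⟨p, hp⟩ := Nat.exists_eq_add_of_le hple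
    have id1 : b2 * p + g * w = n1 * d := by
      zify at hde hnn hp ⊢
      linear_combination -(b2 : ℤ) * hp + w * hnn - n1 * hde
    have id2 : b1 * p + g * w' = n2 * d := by
      zify at hde hnn hp ⊢
      linear_combination -(b1 : ℤ) * hp + w' * hnn - n2 * hde
    have P2 : ((b2 * p * m1 : ℕ) : ℝ) = t + n * X - g * (w * m1) := by
      rw [← P1]
      have : ((n1 * (d * m1) : ℕ) : ℝ) = (((b2 * p + g * w) * m1 : ℕ) : ℝ) := by rw [id1, mul_assoc]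
      rw [this]
      push_cast
      ring
    have P4 : ((b1 * p * m2 : ℕ) : ℝ) = t + g * (t / n) + (n + g) * Y - g * (w' * m2) := by
      rw [← P3]
      have : ((n2 * (d * m2) : ℕ) : ℝ) = (((b1 * p + g * w') * m2 : ℕ) : ℝ) := by rw [id2, mul_assoc]
      rw [this]
      push_cast
      ring
    have hn1P : n1.Coprime P := by
      rw [hn1e] at hnP; exact (Nat.coprime_mul_iff_left.1 hnP).2
    have hn2P : n2.Coprime P := by
      rw [hn2e] at hnP2; exact (Nat.coprime_mul_iff_left.1 hnP2).2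
    have hpP : p.Coprime P := by
      refine cop_p hp ?_
      rcases hPw with ⟨h1, h2⟩ | ⟨h1, h2⟩
      · exact Or.inr ⟨Dvd.dvd.mul_left h1 _, Nat.Coprime.mul_left hn1P h2⟩
      · exact Or.inl ⟨Dvd.dvd.mul_left h1 _, Nat.Coprime.mul_left hn2P h2⟩
    obtain ⟨k1, k2, k3, k4⟩ := cop hn1e hn2e hnP hnP2 hMP hPD hm1 hm2 hpP
    have hpe : b1 * b2 * p + b1 * w * g = d * n := by
      have e : b1 * b2 * p + b1 * w * g = b1 * (b2 * p + g * w) := by ring
      rw [e, id1, hn1e]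
      ring
    refine finish4 ht0 hn0' hn1e hn2e hm1 hm2 (Or.inr hpe) k1 k2 k3 k4 ?_ ?_ ?_ ?_
    · rw [P1]; constructor <;> linarith
    · rw [P2]; constructor <;> linarith
    · rw [P3]; constructor <;> linarith
    · rw [P4]; constructor <;> linarith

/-- ChainZ with an exceptional set. -/
theorem chainE : ChainE := by
  intro P g c R _ hg hc hc1 hR
  refine ⟨10000, ?_⟩
  intro t ht E hE n b1 b2 D w w' M d hp1 hp2 hb1 hb2 hnP hnP2 hMP hn1 hn2 hM0 hM1 hD _ _ hd0 hPD hPw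
    hdv1 hdv2 hcase
  have ht0 : 0 < t := by linarith
  obtain ⟨n1, n2, m1, m2, p, e1, e2, e3, e4, e5, i1, i2, i3, i4, key⟩ :=
    chain_four hg hc hc1 hR ht hb1 hb2 hnP hnP2 hMP hn1 hn2 hM0 hM1 hD hd0 hPD hPw hdv1 hdv2 hcase
  have pos : ∀ N : ℕ, InI P t (c * √t) N → 0 < N := by
    intro N hN
    have : (0 : ℝ) < N := ht0.trans hN.1
    exact_mod_cast this
  have f1 : n / b1 = n1 := by rw [e1]; exact Nat.mul_div_cancel_left _ hp1.pos
  have f2 : (n + g) / b2 = n2 := by rw [e2]; exact Nat.mul_div_cancel_left _ hp2.pos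
  by_cases h1 : n1 * (d * m1) ∈ E
  · exact Or.inr ⟨_, h1, pos _ i1, Or.inl (by rw [f1]; exact dvd_mul_right _ _)⟩
  by_cases h2 : b2 * p * m1 ∈ E
  · exact Or.inr ⟨_, h2, pos _ i2, Or.inr (Or.inr ⟨p, ⟨b2 * m1, by ring⟩, e5⟩)⟩
  by_cases h3 : n2 * (d * m2) ∈ E
  · exact Or.inr ⟨_, h3, pos _ i3, Or.inr (Or.inl (by rw [f2]; exact dvd_mul_right _ _))⟩
  by_cases h4 : b1 * p * m2 ∈ E
  · exact Or.inr ⟨_, h4, pos _ i4, Or.inr (Or.inr ⟨p, ⟨b1 * m2, by ring⟩, e5⟩)⟩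
  left
  exact key (hE _ _ i1.1 i1.2.1 i1.2.2 h1 i2.1 i2.2.1 i2.2.2 h2)
    (hE _ _ i4.1 i4.2.1 i4.2.2 h4 i3.1 i3.2.1 i3.2.2 h3)

/-- ChainZ where the hypothesis is used only at integers with one of four kinds of divisors. -/
theorem chain_touch {P g : ℕ} {c R t s : ℝ} (hg : 1 ≤ g) (hc : 0 < c) (hc1 : c ≤ 1)
    (hR : 1000 * g ≤ c * R) (ht : 10000 ≤ t) {n b1 b2 D w w' M d : ℕ}
    (hs : ∀ N : ℕ, t < (N : ℝ) → (N : ℝ) < t + c * √t → N.Coprime P →
      (∃ u : ℕ, u ∣ N ∧ (b1 * u = n ∨ b2 * u = n + g ∨ d * u = b1 * M + w' * D ∨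
        d * u = b2 * M + w * D)) → lam N = s)
    (hb1 : b1 ∣ n) (hb2 : b2 ∣ n + g) (hnP : n.Coprime P) (hnP2 : (n + g).Coprime P)
    (hMP : M.Coprime P) (hn1 : R * √t < n) (hn2 : (n : ℝ) ≤ 1.01 * R * √t)
    (hM0 : (M : ℝ) ≤ t / n) (hM1 : t / n < M + c ^ 2 / (200 * g))
    (hD : 0 < D) (hd0 : 0 < d) (hPD : P ∣ D)
    (hPw : (P ∣ w ∧ w'.Coprime P) ∨ (P ∣ w' ∧ w.Coprime P))
    (hdv1 : d ∣ b1 * M + w' * D) (hdv2 : d ∣ b2 * M + w * D)
    (hcase : (b2 * w' + d = b1 * w ∧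
        (t / n - M + 0.25 * (c / R) < (w' : ℝ) * D / b1) ∧ ((w' : ℝ) * D / b1 < t / n - M + 0.45 * (c / R)) ∧
        (t / n - M + 0.75 * (c / R) < (w : ℝ) * D / b2) ∧ ((w : ℝ) * D / b2 < t / n - M + 0.95 * (c / R))) ∨
      (b1 * w + d = b2 * w' ∧
        (t / n - M + 0.25 * (c / R) < (w : ℝ) * D / b2) ∧ ((w : ℝ) * D / b2 < t / n - M + 0.45 * (c / R)) ∧
        (t / n - M + 0.75 * (c / R) < (w' : ℝ) * D / b1) ∧ ((w' : ℝ) * D / b1 < t / n - M + 0.95 * (c / R)))) :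
    lam n = lam (n + g) := by
  obtain ⟨n1, n2, m1, m2, p, e1, e2, e3, e4, e5, i1, i2, i3, i4, key⟩ :=
    chain_four hg hc hc1 hR ht hb1 hb2 hnP hnP2 hMP hn1 hn2 hM0 hM1 hD hd0 hPD hPw hdv1 hdv2 hcase
  have h1 := hs _ i1.1 i1.2.1 i1.2.2 ⟨n1, dvd_mul_right _ _, Or.inl e1.symm⟩
  have h2 := hs _ i2.1 i2.2.1 i2.2.2 ⟨m1, dvd_mul_left _ _, Or.inr (Or.inr (Or.inl e3.symm))⟩
  have h3 := hs _ i3.1 i3.2.1 i3.2.2 ⟨n2, dvd_mul_right _ _, Or.inr (Or.inl e2.symm)⟩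
  have h4 := hs _ i4.1 i4.2.1 i4.2.2 ⟨m2, dvd_mul_left _ _, Or.inr (Or.inr (Or.inr e4.symm))⟩
  exact key (h1.trans h2.symm) (h4.trans h3.symm)

end Pool.Agent.MRZ
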