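import Pool.Agent.Lib.MRZ.Stat

/-! TANK MR, version with an exceptional set `E` (helper1, helper4): exact statements. -/

set_option autoImplicit false

namespace Pool.Agent.MRZ

open Finset Pool.Agent.MRL

/-- `lam` is constant on the integers coprime to `P` in `(t, t + ℓ)` outside of `E`. -/
def ConstOff (P : ℕ) (E : Finset ℕ) (t ℓ : ℝ) : Prop := ∀ m n : ℕ, t < m → (m : ℝ) < t + ℓ →
  m.Coprime P → m ∉ E → t < n → (n : ℝ) < t + ℓ → n.Coprime P → n ∉ E → lam m = lam n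

/-- The deterministic linking with gap `g` and an exceptional set. -/
def ChainE : Prop := ∀ (P g : ℕ) (c R : ℝ), 1 ≤ P → 1 ≤ g → 0 < c → c ≤ 1 → 1000 * g ≤ c * R →
  ∃ T0 : ℝ, ∀ t : ℝ, T0 ≤ t → ∀ E : Finset ℕ, ConstOff P E t (c * √t) →
  ∀ n b1 b2 D w w' M d : ℕ, b1.Prime → b2.Prime → b1 ∣ n → b2 ∣ n + g →
    n.Coprime P → (n + g).Coprime P → M.Coprime P →
    R * √t < n → (n : ℝ) ≤ 1.01 * R * √t →
    (M : ℝ) ≤ t / n → t / n < M + c ^ 2 / (200 * g) →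
    0 < D → 0 < w → 0 < w' → 0 < d → P ∣ D → ((P ∣ w ∧ w'.Coprime P) ∨ (P ∣ w' ∧ w.Coprime P)) →
    d ∣ b1 * M + w' * D → d ∣ b2 * M + w * D →
    ((b2 * w' + d = b1 * w ∧
        (t / n - M + 0.25 * (c / R) < (w' : ℝ) * D / b1) ∧ ((w' : ℝ) * D / b1 < t / n - M + 0.45 * (c / R)) ∧
        (t / n - M + 0.75 * (c / R) < (w : ℝ) * D / b2) ∧ ((w : ℝ) * D / b2 < t / n - M + 0.95 * (c / R))) ∨
      (b1 * w + d = b2 * w' ∧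
        (t / n - M + 0.25 * (c / R) < (w : ℝ) * D / b2) ∧ ((w : ℝ) * D / b2 < t / n - M + 0.45 * (c / R)) ∧
        (t / n - M + 0.75 * (c / R) < (w' : ℝ) * D / b1) ∧ ((w' : ℝ) * D / b1 < t / n - M + 0.95 * (c / R)))) →
    lam n = lam (n + g) ∨ ∃ N ∈ E, 0 < N ∧ (n / b1 ∣ N ∨ (n + g) / b2 ∣ N ∨
      ∃ p : ℕ, p ∣ N ∧ (d * n + b1 * w * g = b1 * b2 * p ∨ b1 * b2 * p + b1 * w * g = d * n))

/-- The linking statement with an exceptional set. -/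
def LinkE : Prop :=
  ∀ (P g : ℕ) (c R eps : ℝ), 1 ≤ P → 1 ≤ g → 0 < c → c ≤ 1 → 1000 * g ≤ c * R → 0 < eps →
    ∃ η : ℝ, 0 < η ∧ ∃ T₀ : ℝ, ∀ t : ℝ, T₀ ≤ t → ∀ E : Finset ℕ, ConstOff P E t (c * √t) →
    (∑ N ∈ E, (N.divisors.card : ℝ)) ≤ η * √t →
    ∀ s : Finset ℕ, (∀ n ∈ s, R * √t < n ∧ (n : ℝ) ≤ 1.01 * R * √t ∧
      n.Coprime P ∧ (n + g).Coprime P ∧ ⌊t / n⌋₊.Coprime P ∧
      Int.fract (t / n) < c ^ 2 / (200 * g) ∧ lam n ≠ lam (n + g)) →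
    (s.card : ℝ) ≤ eps * √t

/-- The linking statement with an exceptional set, counted by its divisors of size `√t`. -/
def LinkR : Prop :=
  ∀ (P g : ℕ) (c R eps : ℝ), 1 ≤ P → 1 ≤ g → 0 < c → c ≤ 1 → 1000 * g ≤ c * R → 0 < eps →
    ∃ a1 a2 η : ℝ, 0 < a1 ∧ 0 < a2 ∧ 0 < η ∧ ∃ T₀ : ℝ, ∀ t : ℝ, T₀ ≤ t → ∀ E : Finset ℕ,
    ConstOff P E t (c * √t) →
    (∑ N ∈ E, (((Nat.divisors N).filter
      (fun u : ℕ => a1 * √t ≤ (u : ℝ) ∧ (u : ℝ) ≤ a2 * √t)).card : ℝ)) ≤ η * √t →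
    ∀ s : Finset ℕ, (∀ n ∈ s, R * √t < n ∧ (n : ℝ) ≤ 1.01 * R * √t ∧
      n.Coprime P ∧ (n + g).Coprime P ∧ ⌊t / n⌋₊.Coprime P ∧
      Int.fract (t / n) < c ^ 2 / (200 * g) ∧ lam n ≠ lam (n + g)) →
    (s.card : ℝ) ≤ eps * √t

/-- The final theorem, counting balanced factorisations. -/
def FinalR : Prop := ∀ (P : ℕ) (c : ℝ), 1 ≤ P → 0 < c → ∃ a1 a2 η : ℝ, 0 < a1 ∧ 0 < a2 ∧ 0 < η ∧
  ∃ t0 : ℝ, ∀ t : ℝ, t0 ≤ t →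
  η * √t ≤ ∑ n ∈ (Finset.range (⌊t + c * √t⌋₊ + 1)).filter (fun n : ℕ => t < (n : ℝ) ∧
    (n : ℝ) < t + c * √t ∧ n.Coprime P ∧ Even (ArithmeticFunction.cardFactors n)),
      (((Nat.divisors n).filter
        (fun u : ℕ => a1 * √t ≤ (u : ℝ) ∧ (u : ℝ) ≤ a2 * √t)).card : ℝ) ∧
  η * √t ≤ ∑ n ∈ (Finset.range (⌊t + c * √t⌋₊ + 1)).filter (fun n : ℕ => t < (n : ℝ) ∧
    (n : ℝ) < t + c * √t ∧ n.Coprime P ∧ Odd (ArithmeticFunction.cardFactors n)),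
      (((Nat.divisors n).filter
        (fun u : ℕ => a1 * √t ≤ (u : ℝ) ∧ (u : ℝ) ≤ a2 * √t)).card : ℝ)

/-- The final theorem: divisor-weighted count of each parity. -/
def FinalE : Prop := ∀ (P : ℕ) (c : ℝ), 1 ≤ P → 0 < c → ∃ η : ℝ, 0 < η ∧ ∃ t0 : ℝ, ∀ t : ℝ,
  t0 ≤ t →
  η * √t ≤ ∑ n ∈ (Finset.range (⌊t + c * √t⌋₊ + 1)).filter (fun n : ℕ => t < (n : ℝ) ∧
    (n : ℝ) < t + c * √t ∧ n.Coprime P ∧ Even (ArithmeticFunction.cardFactors n)),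
      ((Nat.divisors n).card : ℝ) ∧
  η * √t ≤ ∑ n ∈ (Finset.range (⌊t + c * √t⌋₊ + 1)).filter (fun n : ℕ => t < (n : ℝ) ∧
    (n : ℝ) < t + c * √t ∧ n.Coprime P ∧ Odd (ArithmeticFunction.cardFactors n)),
      ((Nat.divisors n).card : ℝ)

end Pool.Agent.MRZ
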