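import Pool.Agent.Lib.MRZ.EndCore
import Pool.Agent.Lib.MRZ.StatE

/-! TANK MR: `LinkR` and `NoRunsZ` give `FinalR` (helper69). -/

set_option autoImplicit false

namespace Pool.Agent.MRZ

open Finset Pool.Agent.MRL

/-- number of divisors of `N` in `[a1 √t, a2 √t]`. -/
noncomputable def dc (a1 a2 t : ℝ) (N : ℕ) : ℕ :=
  ((Nat.divisors N).filter (fun u : ℕ => a1 * √t ≤ (u : ℝ) ∧ (u : ℝ) ≤ a2 * √t)).card

theorem dc_mono {a1 a2 b1 b2 t : ℝ} (h1 : b1 ≤ a1) (h2 : a2 ≤ b2) (N : ℕ) :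
    dc a1 a2 t N ≤ dc b1 b2 t N := by
  unfold dc
  apply card_le_card
  intro u hu
  rw [mem_filter] at hu ⊢
  have := Real.sqrt_nonneg t
  refine ⟨hu.1, ?_, ?_⟩
  · exact (mul_le_mul_of_nonneg_right h1 this).trans hu.2.1
  · exact hu.2.2.trans (mul_le_mul_of_nonneg_right h2 this)

/-- the conclusion of `LinkR` for one gap. -/
def LR (P : ℕ) (c R eps : ℝ) (g : ℕ) (a1 a2 η T : ℝ) : Prop :=
  ∀ t : ℝ, T ≤ t → ∀ E : Finset ℕ, ConstOff P E t (c * √t) →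
    (∑ N ∈ E, (dc a1 a2 t N : ℝ)) ≤ η * √t →
    ∀ s : Finset ℕ, (∀ n ∈ s, R * √t < n ∧ (n : ℝ) ≤ 1.01 * R * √t ∧
      n.Coprime P ∧ (n + g).Coprime P ∧ ⌊t / n⌋₊.Coprime P ∧
      Int.fract (t / n) < c ^ 2 / (200 * g) ∧ lam n ≠ lam (n + g)) →
    (s.card : ℝ) ≤ eps * √t

theorem LR.mono {P : ℕ} {c R eps : ℝ} {g : ℕ} {a1 a2 η T b1 b2 η' T' : ℝ}
    (h : LR P c R eps g a1 a2 η T) (h1 : b1 ≤ a1) (h2 : a2 ≤ b2) (h3 : η' ≤ η) (h4 : T ≤ T') :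
    LR P c R eps g b1 b2 η' T' := by
  intro t ht E hE hr s hs
  refine h t (h4.trans ht) E hE ?_ s hs
  have e1 : (∑ N ∈ E, (dc a1 a2 t N : ℝ)) ≤ ∑ N ∈ E, (dc b1 b2 t N : ℝ) :=
    sum_le_sum fun N _ => by exact_mod_cast dc_mono h1 h2 N
  exact e1.trans (hr.trans (mul_le_mul_of_nonneg_right h3 (Real.sqrt_nonneg t)))

theorem LR.fin {P : ℕ} {c R eps : ℝ} (F : Finset ℕ)
    (h : ∀ g ∈ F, ∃ a1 a2 η : ℝ, 0 < a1 ∧ 0 < a2 ∧ 0 < η ∧ ∃ T : ℝ, LR P c R eps g a1 a2 η T) :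
    ∃ a1 a2 η : ℝ, 0 < a1 ∧ 0 < a2 ∧ 0 < η ∧ ∃ T : ℝ, ∀ g ∈ F, LR P c R eps g a1 a2 η T := by
  classical
  induction F using Finset.induction_on with
  | empty => exact ⟨1, 1, 1, one_pos, one_pos, one_pos, 0, fun g hg => absurd hg (notMem_empty g)⟩
  | insert a F ha ih =>
    obtain ⟨a1, a2, η, q1, q2, q3, T, hT⟩ := ih fun g hg => h g (mem_insert_of_mem hg)
    obtain ⟨b1, b2, η', r1, r2, r3, T', hT'⟩ := h a (mem_insert_self _ _)
    refine ⟨min a1 b1, max a2 b2, min η η', lt_min q1 r1, lt_max_of_lt_left q2, lt_min q3 r3,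
      max T T', fun g hg => ?_⟩
    rw [mem_insert] at hg
    rcases hg with rfl | hg
    · exact hT'.mono (min_le_right _ _) (le_max_right _ _) (min_le_right _ _) (le_max_right _ _)
    · exact (hT g hg).mono (min_le_left _ _) (le_max_left _ _) (min_le_left _ _) (le_max_left _ _)

/-- the integers of one kind in the interval. -/
noncomputable def cls (P : ℕ) (t ℓ : ℝ) (p : ℕ → Prop) [DecidablePred p] : Finset ℕ :=
  (Finset.range (⌊t + ℓ⌋₊ + 1)).filter (fun n : ℕ => t < (n : ℝ) ∧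
    (n : ℝ) < t + ℓ ∧ n.Coprime P ∧ p n)

theorem mem_cls {P : ℕ} {t ℓ : ℝ} {p : ℕ → Prop} [DecidablePred p] {n : ℕ} :
    n ∈ cls P t ℓ p ↔ t < (n : ℝ) ∧ (n : ℝ) < t + ℓ ∧ n.Coprime P ∧ p n := by
  unfold cls
  rw [mem_filter, mem_range]
  constructor
  · exact fun h => h.2
  · intro h
    refine ⟨?_, h⟩
    have : n ≤ ⌊t + ℓ⌋₊ := Nat.le_floor h.2.1.le
    omega

theorem cls_mono {P : ℕ} {t ℓ ℓ' : ℝ} (h : ℓ ≤ ℓ') (p : ℕ → Prop) [DecidablePred p] :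
    cls P t ℓ p ⊆ cls P t ℓ' p := by
  intro n hn
  rw [mem_cls] at hn ⊢
  exact ⟨hn.1, by linarith [hn.2.1], hn.2.2⟩

theorem constOff_even {P : ℕ} {t ℓ : ℝ} :
    ConstOff P (cls P t ℓ (fun n => Even (ArithmeticFunction.cardFactors n))) t ℓ := by
  have key : ∀ k : ℕ, t < k → (k : ℝ) < t + ℓ → k.Coprime P →
      k ∉ cls P t ℓ (fun n => Even (ArithmeticFunction.cardFactors n)) → lam k = -1 := by
    intro k h1 h2 h3 h4
    apply lam_of_odd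
    rw [← Nat.not_even_iff_odd]
    intro h
    exact h4 (mem_cls.2 ⟨h1, h2, h3, h⟩)
  intro m n h1 h2 h3 h4 h5 h6 h7 h8
  rw [key m h1 h2 h3 h4, key n h5 h6 h7 h8]

theorem constOff_odd {P : ℕ} {t ℓ : ℝ} :
    ConstOff P (cls P t ℓ (fun n => Odd (ArithmeticFunction.cardFactors n))) t ℓ := by
  have key : ∀ k : ℕ, t < k → (k : ℝ) < t + ℓ → k.Coprime P →
      k ∉ cls P t ℓ (fun n => Odd (ArithmeticFunction.cardFactors n)) → lam k = 1 := by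
    intro k h1 h2 h3 h4
    apply lam_of_even
    rw [← Nat.not_odd_iff_even]
    intro h
    exact h4 (mem_cls.2 ⟨h1, h2, h3, h⟩)
  intro m n h1 h2 h3 h4 h5 h6 h7 h8
  rw [key m h1 h2 h3 h4, key n h5 h6 h7 h8]

/-- **The end**, counting balanced factorisations. -/
theorem finalR (hlink : LinkR) (hNR : NoRunsZ) : FinalR := by
  have key : ∀ (P : ℕ) (c : ℝ), 1 ≤ P → 0 < c → c ≤ 1 → ∃ a1 a2 η : ℝ, 0 < a1 ∧ 0 < a2 ∧ 0 < η ∧
      ∃ t0 : ℝ, ∀ t : ℝ, t0 ≤ t → ∀ E : Finset ℕ, ConstOff P E t (c * √t) →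
        η * √t ≤ ∑ N ∈ E, (dc a1 a2 t N : ℝ) := by
    intro P c hP hc hc1
    obtain ⟨R, eps, hR, heps, T0, hT⟩ := core hNR P hP c hc hc1
    obtain ⟨a1, a2, η, q1, q2, q3, T1, hT1⟩ := LR.fin (P := P) (c := c) (R := R) (eps := eps)
      (Icc 1 P) (by
        intro g hg
        rw [mem_Icc] at hg
        have hgP : (g : ℝ) ≤ P := by exact_mod_cast hg.2
        exact hlink P g c R eps hP hg.1 hc hc1 (by linarith) heps)
    refine ⟨a1, a2, η, q1, q2, q3, max T0 T1, fun t ht E hE => ?_⟩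
    by_contra hlt
    push Not at hlt
    refine hT t ((le_max_left _ _).trans ht) fun g hg1 hg2 s hs => ?_
    exact hT1 g (mem_Icc.2 ⟨hg1, hg2⟩) t ((le_max_right _ _).trans ht) E hE hlt.le s hs
  intro P c hP hc
  obtain ⟨a1, a2, η, q1, q2, q3, t0, h0⟩ := key P (min c 1) hP (lt_min hc one_pos) (min_le_right _ _)
  refine ⟨a1, a2, η, q1, q2, q3, t0, fun t ht => ?_⟩
  have hle : min c 1 * √t ≤ c * √t :=
    mul_le_mul_of_nonneg_right (min_le_left _ _) (Real.sqrt_nonneg t)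
  constructor
  · refine (h0 t ht _ constOff_even).trans ?_
    exact sum_le_sum_of_subset_of_nonneg (cls_mono hle _) fun _ _ _ => Nat.cast_nonneg _
  · refine (h0 t ht _ constOff_odd).trans ?_
    exact sum_le_sum_of_subset_of_nonneg (cls_mono hle _) fun _ _ _ => Nat.cast_nonneg _

end Pool.Agent.MRZ
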