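import Pool.Agent.Lib.MRZ.Link
import Pool.Agent.Lib.MRZ.StatE

/-! TANK MR: assembly of the linking statement with an exceptional set, `LinkR`. helper4. -/

set_option autoImplicit false

namespace Pool.Agent.MRZ

open Finset Pool.Agent.MRL Pool.Agent.PO69

/-- the `n` spoiled by an exceptional number with the divisors `Dv` -/
def spoil (g b1 b2 : ℕ) (Dv : Finset ℕ) : Finset ℕ :=
  (Dv.image (fun e => b1 * e) ∪ Dv.image (fun e => b2 * e - g)) ∪
    (range b2 ×ˢ range (b1 * b2)).biUnion (fun x =>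
      Dv.image (fun p => (b1 * b2 * p - b1 * x.1 * g) / x.2) ∪
      Dv.image (fun p => (b1 * b2 * p + b1 * x.1 * g) / x.2))

/-- the constant in `card_spoil` -/
def spK (b1 b2 : ℕ) : ℕ := 2 + 2 * (b2 * (b1 * b2))

theorem card_spoil (g b1 b2 : ℕ) (Dv : Finset ℕ) :
    (spoil g b1 b2 Dv).card ≤ spK b1 b2 * Dv.card := by
  unfold spoil spK
  refine (card_union_le _ _).trans ?_
  have h1 : (Dv.image (fun e => b1 * e) ∪ Dv.image (fun e => b2 * e - g)).card ≤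
      2 * Dv.card := by
    refine (card_union_le _ _).trans ?_
    have a1 : (Dv.image (fun e => b1 * e)).card ≤ Dv.card := card_image_le
    have a2 : (Dv.image (fun e => b2 * e - g)).card ≤ Dv.card := card_image_le
    omega
  have h2 : ((range b2 ×ˢ range (b1 * b2)).biUnion (fun x =>
      Dv.image (fun p => (b1 * b2 * p - b1 * x.1 * g) / x.2) ∪
      Dv.image (fun p => (b1 * b2 * p + b1 * x.1 * g) / x.2))).card ≤
      (b2 * (b1 * b2)) * (2 * Dv.card) := by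
    refine card_biUnion_le.trans ?_
    have h3 : ∀ x ∈ (range b2 ×ˢ range (b1 * b2)),
        (Dv.image (fun p => (b1 * b2 * p - b1 * x.1 * g) / x.2) ∪
        Dv.image (fun p => (b1 * b2 * p + b1 * x.1 * g) / x.2)).card ≤
        2 * Dv.card := by
      intro x _
      refine (card_union_le _ _).trans ?_
      have a1 : (Dv.image (fun p => (b1 * b2 * p - b1 * x.1 * g) / x.2)).card ≤
        Dv.card := card_image_le
      have a2 : (Dv.image (fun p => (b1 * b2 * p + b1 * x.1 * g) / x.2)).card ≤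
        Dv.card := card_image_le
      omega
    refine (sum_le_sum h3).trans (le_of_eq ?_)
    rw [sum_const, card_product, card_range, card_range, smul_eq_mul]
  calc _ ≤ 2 * Dv.card + (b2 * (b1 * b2)) * (2 * Dv.card) := Nat.add_le_add h1 h2
    _ = _ := by ring

/-- the divisors of `N` of size `√t` -/
noncomputable def dvr (a1 a2 t : ℝ) (N : ℕ) : Finset ℕ :=
  (Nat.divisors N).filter (fun u : ℕ => a1 * √t ≤ (u : ℝ) ∧ (u : ℝ) ≤ a2 * √t)

theorem mem_spoil {g b1 b2 N n : ℕ} {a1 a2 t R : ℝ} (hN : 0 < N) (h1 : b1 ∣ n) (h2 : b2 ∣ n + g)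
    (hb1 : 0 < b1) (hb2 : 0 < b2)
    {w d : ℕ} (hw : w < b2) (hd : d < b1 * b2) (hd0 : 0 < d)
    (h : n / b1 ∣ N ∨ (n + g) / b2 ∣ N ∨
      ∃ p : ℕ, p ∣ N ∧ (d * n + b1 * w * g = b1 * b2 * p ∨ b1 * b2 * p + b1 * w * g = d * n))
    (hR : 0 < R) (ha1 : a1 ≤ R / (2 * (b1 * b2))) (ha2 : 2 * R ≤ a2)
    (hn1 : R * √t < n) (hn2 : (n : ℝ) ≤ 1.01 * R * √t)
    (ht : 100 * (b1 : ℝ) * b2 * (g + 1) ≤ R * √t) :
    n ∈ spoil g b1 b2 (dvr a1 a2 t N) := by
  have hb1' : (1 : ℝ) ≤ b1 := by exact_mod_cast hb1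
  have hb2' : (1 : ℝ) ≤ b2 := by exact_mod_cast hb2
  have hg' : (0 : ℝ) ≤ g := Nat.cast_nonneg _
  have hRt : 0 < R * √t := by
    have : 0 < 100 * (b1 : ℝ) * b2 * (g + 1) := by positivity
    linarith
  have hgR : (g : ℝ) ≤ R * √t / 100 := by
    have : (1 : ℝ) ≤ b1 * b2 := one_le_mul_of_one_le_of_one_le hb1' hb2'
    nlinarith
  have hsq : 0 ≤ √t := Real.sqrt_nonneg t
  -- the bounds from the product with `b1 * b2`
  have hlow : ∀ u : ℝ, R * √t / 2 ≤ (b1 : ℝ) * b2 * u → a1 * √t ≤ u := by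
    intro u hu
    have e1 : a1 * √t ≤ R / (2 * (b1 * b2)) * √t := mul_le_mul_of_nonneg_right ha1 hsq
    have e2 : R / (2 * (b1 * b2)) * √t = (R * √t / 2) / (b1 * b2) := by
      field_simp
    rw [e2] at e1
    refine e1.trans ?_
    rw [div_le_iff₀ (by positivity)]
    linarith
  have hup : ∀ u : ℝ, u ≤ 2 * (R * √t) → u ≤ a2 * √t := by
    intro u hu
    have : 2 * R * √t ≤ a2 * √t := mul_le_mul_of_nonneg_right ha2 hsq
    linarith
  unfold spoil dvr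
  rw [mem_union, mem_union]
  rcases h with h | h | ⟨p, hp, h⟩
  · left; left
    rw [mem_image]
    have e : ((n : ℕ) : ℝ) = b1 * ((n / b1 : ℕ) : ℝ) := by
      exact_mod_cast (Nat.mul_div_cancel' h1).symm
    have e0 : (0 : ℝ) ≤ ((n / b1 : ℕ) : ℝ) := Nat.cast_nonneg _
    refine ⟨n / b1, mem_filter.2 ⟨Nat.mem_divisors.2 ⟨h, hN.ne'⟩, hlow _ ?_, hup _ ?_⟩,
      Nat.mul_div_cancel' h1⟩
    · have : (n : ℝ) ≤ b2 * n := by nlinarith [Nat.cast_nonneg (α := ℝ) n]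
      calc R * √t / 2 ≤ n := by linarith
        _ ≤ b2 * n := this
        _ = b1 * b2 * ((n / b1 : ℕ) : ℝ) := by rw [e]; ring
    · have : ((n / b1 : ℕ) : ℝ) ≤ n := by rw [e]; nlinarith
      linarith
  · left; right
    rw [mem_image]
    have e : ((n + g : ℕ) : ℝ) = b2 * (((n + g) / b2 : ℕ) : ℝ) := by
      exact_mod_cast (Nat.mul_div_cancel' h2).symm
    have e0 : (0 : ℝ) ≤ (((n + g) / b2 : ℕ) : ℝ) := Nat.cast_nonneg _
    refine ⟨(n + g) / b2, mem_filter.2 ⟨Nat.mem_divisors.2 ⟨h, hN.ne'⟩, hlow _ ?_, hup _ ?_⟩, ?_⟩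
    · have h5 : ((n + g : ℕ) : ℝ) ≤ b1 * ((n + g : ℕ) : ℝ) := by
        nlinarith [Nat.cast_nonneg (α := ℝ) (n + g)]
      calc R * √t / 2 ≤ ((n + g : ℕ) : ℝ) := by push_cast; linarith
        _ ≤ b1 * ((n + g : ℕ) : ℝ) := h5
        _ = b1 * b2 * (((n + g) / b2 : ℕ) : ℝ) := by rw [e]; ring
    · have : (((n + g) / b2 : ℕ) : ℝ) ≤ ((n + g : ℕ) : ℝ) := by rw [e]; nlinarith
      push_cast at this
      linarith
    · rw [Nat.mul_div_cancel' h2]
      omega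
  · right
    rw [mem_biUnion]
    refine ⟨(w, d), ?_, ?_⟩
    · rw [mem_product, mem_range, mem_range]
      exact ⟨hw, hd⟩
    · have hd1 : (1 : ℝ) ≤ d := by exact_mod_cast hd0
      have hd2 : (d : ℝ) ≤ b1 * b2 := by exact_mod_cast hd.le
      have hw2 : (w : ℝ) ≤ b2 := by exact_mod_cast hw.le
      have hbwg : (b1 : ℝ) * w * g ≤ R * √t / 100 := by
        have : (b1 : ℝ) * w * g ≤ b1 * b2 * g := by gcongr
        nlinarith [mul_nonneg (mul_nonneg (by linarith : (0:ℝ) ≤ b1) (by linarith : (0:ℝ) ≤ b2)) hg']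
      have hbwg0 : 0 ≤ (b1 : ℝ) * w * g := by positivity
      have hdn1 : R * √t ≤ d * n := by nlinarith
      have hdn2 : (d : ℝ) * n ≤ b1 * b2 * (1.01 * R * √t) := by
        apply mul_le_mul hd2 hn2 (Nat.cast_nonneg _) (by positivity)
      have hpb : R * √t / 2 ≤ (b1 : ℝ) * b2 * p ∧ (b1 : ℝ) * b2 * p ≤ b1 * b2 * (2 * (R * √t)) := by
        have hbb : R * √t / 100 ≤ b1 * b2 * (R * √t / 100) := by
          have : (1 : ℝ) ≤ b1 * b2 := one_le_mul_of_one_le_of_one_le hb1' hb2'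
          nlinarith
        have hbb2 : 0 ≤ b1 * b2 * (R * √t) := by positivity
        rcases h with h | h
        · have h' : (d : ℝ) * n + b1 * w * g = b1 * b2 * p := by exact_mod_cast h
          constructor <;> nlinarith
        · have h' : (b1 : ℝ) * b2 * p + b1 * w * g = d * n := by exact_mod_cast h
          constructor <;> nlinarith
      have hp1 : a1 * √t ≤ p := hlow _ hpb.1
      have hp2 : (p : ℝ) ≤ a2 * √t := hup _ (le_of_mul_le_mul_left hpb.2 (by positivity))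
      rw [mem_union]
      rcases h with h | h
      · left
        rw [mem_image]
        refine ⟨p, mem_filter.2 ⟨Nat.mem_divisors.2 ⟨hp, hN.ne'⟩, hp1, hp2⟩, ?_⟩
        simp only
        rw [← h, Nat.add_sub_cancel, Nat.mul_div_cancel_left _ hd0]
      · right
        rw [mem_image]
        refine ⟨p, mem_filter.2 ⟨Nat.mem_divisors.2 ⟨hp, hN.ne'⟩, hp1, hp2⟩, ?_⟩
        simp only
        rw [h, Nat.mul_div_cancel_left _ hd0]

/-- in the output of the second moment `w < b2` and `d < b1 b2` -/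
theorem data_bd {κ f : ℝ} (hκ0 : 0 < κ) (hκ1 : κ ≤ 1 / 1000) (hf : 0 ≤ f) (hf' : f ≤ 1 / 200)
    {b1 b2 D w w' d : ℕ} (hb1 : 0 < b1) (hb2 : 0 < b2) (hD : 0 < D)
    (h : ((b2 * w' + d = b1 * w ∧
        f + 0.3 * κ < (w' : ℝ) * D / b1 ∧ (w' : ℝ) * D / b1 < f + 0.4 * κ ∧
        f + 0.8 * κ < (w : ℝ) * D / b2 ∧ (w : ℝ) * D / b2 < f + 0.9 * κ) ∨
      (b1 * w + d = b2 * w' ∧
        f + 0.3 * κ < (w : ℝ) * D / b2 ∧ (w : ℝ) * D / b2 < f + 0.4 * κ ∧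
        f + 0.8 * κ < (w' : ℝ) * D / b1 ∧ (w' : ℝ) * D / b1 < f + 0.9 * κ))) :
    w < b2 ∧ d < b1 * b2 := by
  have key : ∀ (x b : ℕ), 0 < b → (x : ℝ) * D / b < 1 → x < b := by
    intro x b hb hx
    have hb' : (0 : ℝ) < b := by exact_mod_cast hb
    rw [div_lt_one hb'] at hx
    have h2 : x * D < b := by exact_mod_cast hx
    have h3 : x * 1 ≤ x * D := Nat.mul_le_mul_left _ hD
    omega
  norm_num at hκ1
  rcases h with ⟨e, g1, g2, g3, g4⟩ | ⟨e, g1, g2, g3, g4⟩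
  · have k1 : w < b2 := key w b2 hb2 (by linarith)
    refine ⟨k1, ?_⟩
    have k2 : b1 * w < b1 * b2 := Nat.mul_lt_mul_of_pos_left k1 hb1
    omega
  · have k1 : w < b2 := key w b2 hb2 (by linarith)
    have k2 : w' < b1 := key w' b1 hb1 (by linarith)
    refine ⟨k1, ?_⟩
    have k3 : b2 * w' < b2 * b1 := Nat.mul_lt_mul_of_pos_left k2 hb2
    have k4 : b2 * b1 = b1 * b2 := Nat.mul_comm _ _
    omega

/-- the bound for one pair of primes and one cell -/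
theorem pair_boundR (h1 : ChainE) (h3 : Equi) (P g : ℕ) (hP : 1 ≤ P) (hg : 1 ≤ g) (c R : ℝ)
    (hc : 0 < c) (hc1 : c ≤ 1) (hRg : 1000 * (g : ℝ) ≤ c * R) (b1 b2 : ℕ) (hp1 : b1.Prime) (hp2 : b2.Prime) (hne : b1 ≠ b2) (f δ : ℝ)
    (hf : 0 ≤ f) (hf' : f ≤ 1 / 200) (Q : ℕ) (bad : Finset ℕ)
    (hSM : SMoutZ P (c / R) δ f b1 b2 Q bad) (ε1 : ℝ) (hε1 : 0 < ε1) (hδ1 : δ ≤ 1)
    (a1 a2 : ℝ) (ha1 : a1 ≤ R / (2 * (b1 * b2))) (ha2 : 2 * R ≤ a2) :
    ∃ T0 : ℝ, ∀ t : ℝ, T0 ≤ t →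
    ∀ E : Finset ℕ, ConstOff P E t (c * √t) →
    ∀ s : Finset ℕ, (∀ n ∈ s, R * √t < n ∧ (n : ℝ) ≤ 1.01 * R * √t ∧
      n.Coprime P ∧ (n + g).Coprime P ∧ ⌊t / n⌋₊.Coprime P ∧
      Int.fract (t / n) < c ^ 2 / (200 * g) ∧ lam n ≠ lam (n + g) ∧ b1 ∣ n ∧ b2 ∣ n + g ∧
      f ≤ Int.fract (t / n) ∧ Int.fract (t / n) ≤ f + 0.05 * (c / R)) →
    (s.card : ℝ) ≤ (δ * (0.05 * (c / R) * (0.01 * R)) / (b1 * b2) + ε1) * √t +
      (spK b1 b2 : ℝ) * ∑ N ∈ E, ((dvr a1 a2 t N).card : ℝ) := by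
  classical
  have hg' : (1 : ℝ) ≤ g := by exact_mod_cast hg
  have hR : 1000 ≤ c * R := by linarith
  have hR0 : 0 < R := by
    by_contra hneg
    have : c * R ≤ 0 := mul_nonpos_of_nonneg_of_nonpos hc.le (not_lt.1 hneg)
    linarith
  have hκ0 : 0 < c / R := by positivity
  have hκ1 : c / R ≤ 1 / 1000 := by
    rw [div_le_div_iff₀ hR0 (by norm_num)]
    nlinarith
  obtain ⟨hQ, hbad, hgood⟩ := hSM
  have hQ' : (0 : ℝ) < Q := by exact_mod_cast hQ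
  have hb1 : (0 : ℝ) < b1 := by exact_mod_cast hp1.pos
  have hb2 : (0 : ℝ) < b2 := by exact_mod_cast hp2.pos
  have hco : Nat.Coprime b1 b2 := (Nat.coprime_primes hp1 hp2).2 hne
  obtain ⟨r, hr1, hr2⟩ := Nat.chineseRemainder hco 0 (b2 * g - g)
  obtain ⟨Tc, hTc⟩ := h1 P g c R hP hg hc hc1 hRg
  have hE := fun M0 : ℕ => h3 (b1 * b2) r Q M0 f (f + 0.05 * (c / R)) R (1.01 * R) (ε1 / Q)
    (Nat.mul_pos hp1.pos hp2.pos) hQ hf (by linarith) (by norm_num at hκ1 ⊢; linarith) hR0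
    (by linarith) (by positivity)
  choose T hT using hE
  refine ⟨max 1 (max (max Tc ((100 * (b1 : ℝ) * b2 * (g + 1) / R) ^ 2)) (∑ M0 ∈ bad, |T M0|)),
    fun t ht E hyp s0 hs0 => ?_⟩
  have ht4 : (100 * (b1 : ℝ) * b2 * (g + 1) / R) ^ 2 ≤ t :=
    ((le_max_right _ _).trans ((le_max_left _ _).trans (le_max_right _ _))).trans ht
  have ht5 : 100 * (b1 : ℝ) * b2 * (g + 1) ≤ R * √t := by
    have := Real.le_sqrt_of_sq_le ht4
    rw [div_le_iff₀ hR0] at this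
    linarith
  have ht1 : 1 ≤ t := (le_max_left _ _).trans ht
  have ht2 : Tc ≤ t :=
    ((le_max_left _ _).trans ((le_max_left _ _).trans (le_max_right _ _))).trans ht
  have ht3 : ∑ M0 ∈ bad, |T M0| ≤ t := ((le_max_right _ _).trans (le_max_right _ _)).trans ht
  have ht0 : 0 < t := by linarith
  have hsq : 0 < √t := Real.sqrt_pos.2 ht0
  have hRt : 0 < R * √t := by positivity
  -- the good `M` give elements spoiled by `E`
  have hsp : s0.filter (fun n : ℕ => ¬ ⌊t / n⌋₊ % Q ∈ bad) ⊆ E.biUnion (fun N => spoil g b1 b2 (dvr a1 a2 t N)) := by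
    intro n hn
    rw [mem_filter] at hn
    obtain ⟨hn, hnb⟩ := hn
    obtain ⟨g1, g2, gP1, gP2, gP3, g3, g4, g5, g6, g7, g8⟩ := hs0 n hn
    obtain ⟨D, w, w', d, hD, hw, hw', hd, i1, i2, e1, e2, hwin⟩ := hgood _ hnb
    have hn0 : (0 : ℝ) < n := by linarith
    have h5 : (0 : ℝ) ≤ t / n := by positivity
    have h6 : ((⌊t / (n : ℝ)⌋₊ : ℕ) : ℝ) = ((⌊t / (n : ℝ)⌋ : ℤ) : ℝ) :=
      natCast_floor_eq_intCast_floor h5
    have hfr : t / n - (⌊t / (n : ℝ)⌋₊ : ℕ) = Int.fract (t / n) := by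
      rw [h6]; exact Int.self_sub_floor _
    have hch := hTc t ht2 E hyp n b1 b2 D w w' _ d hp1 hp2 g5 g6 gP1 gP2 gP3 g1 g2
      (Nat.floor_le h5) (by linarith) hD hw hw' hd i1 i2 e1 e2 (by
        rw [hfr]
        rcases hwin with ⟨a1, a2, a3, a4, a5⟩ | ⟨a1, a2, a3, a4, a5⟩
        · exact Or.inl ⟨a1, by linarith, by linarith, by linarith, by linarith⟩
        · exact Or.inr ⟨a1, by linarith, by linarith, by linarith, by linarith⟩)
    rcases hch with hch | ⟨N, hN, hN0, hch⟩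
    · exact absurd hch g4
    · obtain ⟨k1, k2⟩ := data_bd hκ0 hκ1 hf hf' hp1.pos hp2.pos hD hwin
      rw [mem_biUnion]
      exact ⟨N, hN, mem_spoil hN0 g5 g6 hp1.pos hp2.pos k1 k2 hd hch hR0 ha1 ha2 g1 g2 ht5⟩
  have hsp2 : ((s0.filter (fun n : ℕ => ¬ ⌊t / n⌋₊ % Q ∈ bad)).card : ℝ) ≤
      (spK b1 b2 : ℝ) * ∑ N ∈ E, ((dvr a1 a2 t N).card : ℝ) := by
    have k1 := (card_le_card hsp).trans card_biUnion_le
    have k2 : ∑ N ∈ E, (spoil g b1 b2 (dvr a1 a2 t N)).card ≤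
        ∑ N ∈ E, spK b1 b2 * (dvr a1 a2 t N).card :=
      sum_le_sum fun N _ => card_spoil g b1 b2 _
    have k3 := k1.trans k2
    rw [← mul_sum] at k3
    exact_mod_cast k3
  have hsplit : (s0.card : ℝ) = ((s0.filter (fun n : ℕ => ⌊t / n⌋₊ % Q ∈ bad)).card : ℝ) +
      ((s0.filter (fun n : ℕ => ¬ ⌊t / n⌋₊ % Q ∈ bad)).card : ℝ) := by
    rw [← Nat.cast_add]
    congr 1
    exact (card_filter_add_card_filter_not _).symm
  rw [hsplit]
  refine add_le_add ?_ hsp2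
  set s : Finset ℕ := s0.filter (fun n : ℕ => ⌊t / n⌋₊ % Q ∈ bad) with hsdef
  have hs : ∀ n ∈ s, R * √t < n ∧ (n : ℝ) ≤ 1.01 * R * √t ∧
      n.Coprime P ∧ (n + g).Coprime P ∧ ⌊t / n⌋₊.Coprime P ∧
      Int.fract (t / n) < c ^ 2 / (200 * g) ∧ lam n ≠ lam (n + g) ∧ b1 ∣ n ∧ b2 ∣ n + g ∧
      f ≤ Int.fract (t / n) ∧ Int.fract (t / n) ≤ f + 0.05 * (c / R) := fun n hn =>
    hs0 n (mem_filter.1 hn).1
  have hM : ∀ n ∈ s, ⌊t / n⌋₊ % Q ∈ bad := fun n hn => (mem_filter.1 hn).2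
  have hcard : (s.card : ℝ) = ∑ M0 ∈ bad, (((s.filter fun n : ℕ => ⌊t / n⌋₊ % Q = M0).card : ℕ) : ℝ) := by
    rw [← Nat.cast_sum]
    congr 1
    exact card_eq_sum_card_fiberwise hM
  have heach : ∀ M0 ∈ bad, (((s.filter fun n : ℕ => ⌊t / n⌋₊ % Q = M0).card : ℕ) : ℝ) ≤
      (0.05 * (c / R) * (0.01 * R) / (b1 * b2 * Q) + ε1 / Q) * √t := by
    intro M0 hM0
    have hT0 : T M0 ≤ t := by
      have : |T M0| ≤ ∑ M0 ∈ bad, |T M0| :=
        single_le_sum (f := fun M0 => |T M0|) (fun _ _ => abs_nonneg _) hM0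
      linarith [le_abs_self (T M0)]
    have := hT M0 t hT0 (s.filter fun n : ℕ => ⌊t / n⌋₊ % Q = M0) (by
      intro n hn
      rw [mem_filter] at hn
      obtain ⟨g1, g2, gP1, gP2, gP3, g3, g4, g5, g6, g7, g8⟩ := hs n hn.1
      refine ⟨g1.le, g2, ?_, by rw [← hn.2, Nat.mod_mod], g7, g8⟩
      have k1 : n ≡ r [MOD b1] := ((Nat.modEq_zero_iff_dvd.2 g5).trans hr1.symm)
      have k2 : n ≡ r [MOD b2] := by
        refine Nat.ModEq.trans ?_ hr2.symm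
        have : n + g ≡ b2 * g - g + g [MOD b2] := by
          rw [Nat.sub_add_cancel (Nat.le_mul_of_pos_left g hp2.pos)]
          exact (Nat.modEq_zero_iff_dvd.2 g6).trans (Nat.modEq_zero_iff_dvd.2 ⟨g, rfl⟩).symm
        exact Nat.ModEq.add_right_cancel' g this
      exact (Nat.modEq_and_modEq_iff_modEq_mul hco).1 ⟨k1, k2⟩)
    refine this.trans (le_of_eq ?_)
    push_cast
    have e1 : f + 0.05 * (c / R) - f = 0.05 * (c / R) := by ring
    have e2 : 1.01 * R - R = 0.01 * R := by ring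
    rw [e1, e2]
  rw [hcard]
  refine (sum_le_sum heach).trans ?_
  rw [sum_const, nsmul_eq_mul]
  have hA : 0 ≤ (0.05 * (c / R) * (0.01 * R) / (b1 * b2 * Q) + ε1 / Q) * √t := by positivity
  refine (mul_le_mul_of_nonneg_right hbad hA).trans ?_
  have e1 : δ * Q * ((0.05 * (c / R) * (0.01 * R) / (b1 * b2 * Q) + ε1 / Q) * √t) =
      (δ * (0.05 * (c / R) * (0.01 * R)) / (b1 * b2) + δ * ε1) * √t := by
    field_simp
  rw [e1]
  apply mul_le_mul_of_nonneg_right _ hsq.le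
  nlinarith

theorem linkR (h1 : ChainE) (h2 : SecondMomentZ) (h3 : Equi) (h4 : SieveDensity) (h5 : PrimeSet) :
    LinkR := by
  intro P0 g c R eps hP0 hg hc hc1 hRg he
  have hg' : (1 : ℝ) ≤ g := by exact_mod_cast hg
  have hR : 1000 ≤ c * R := by linarith
  have hR0 : 0 < R := by
    by_contra hneg
    have : c * R ≤ 0 := mul_nonpos_of_nonneg_of_nonpos hc.le (not_lt.1 hneg)
    linarith
  set κ : ℝ := c / R with hκ
  have hκ0 : 0 < κ := by positivity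
  have hκ1 : κ ≤ 1 / 1000 := by
    rw [hκ, div_le_div_iff₀ hR0 (by norm_num)]
    nlinarith
  set S : ℝ := max 1 (Real.log (0.16 * R / eps)) with hS
  have hS1 : 1 ≤ S := le_max_left _ _
  have hSe : Real.exp (-S) ≤ eps / (0.16 * R) := by
    have h6 : Real.log (0.16 * R / eps) ≤ S := le_max_right _ _
    have h7 : 0.16 * R / eps ≤ Real.exp S := by
      rw [← Real.log_le_iff_le_exp (by positivity)]
      exact h6
    rw [Real.exp_neg, ← one_div, div_le_div_iff₀ (Real.exp_pos _) (by positivity)]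
    rw [div_le_iff₀ he] at h7
    linarith
  set δ : ℝ := min 1 (eps / (0.08 * R * (S + 1) ^ 2)) with hδ
  have hδ0 : 0 < δ := lt_min one_pos (by positivity)
  have hδ1 : δ ≤ 1 := min_le_left _ _
  have hδ2 : δ * (0.01 * R * (S + 1) ^ 2) ≤ eps / 8 := by
    have h6 : δ ≤ eps / (0.08 * R * (S + 1) ^ 2) := min_le_right _ _
    calc δ * (0.01 * R * (S + 1) ^ 2) ≤ eps / (0.08 * R * (S + 1) ^ 2) * (0.01 * R * (S + 1) ^ 2) := by
          gcongr
      _ = eps / 8 := by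
          field_simp
          norm_num
  obtain ⟨b0, hb0⟩ := sm_symZ h2 P0 hP0 κ δ hκ0 hκ1 hδ0
  obtain ⟨P, hP, hPS, hPS', hPlog⟩ := h5 S (by linarith) (max b0 (g + 1))
  have hPp : ∀ p ∈ P, p.Prime := fun p hp => (hP p hp).1
  obtain ⟨C0, hC0⟩ := h4 P hPp 0
  obtain ⟨C1, hC1⟩ := h4 P hPp g
  set J : ℕ := ⌊c ^ 2 / (200 * g) / (0.05 * κ)⌋₊ with hJ
  have h05 : 0 < 0.05 * κ := by positivity
  have hJ' : (J : ℝ) * (0.05 * κ) ≤ c ^ 2 / (200 * g) := by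
    have : (J : ℝ) ≤ c ^ 2 / (200 * g) / (0.05 * κ) := Nat.floor_le (by positivity)
    rwa [le_div_iff₀ h05] at this
  have hc2 : c ^ 2 ≤ 1 := by nlinarith
  have hc3 : c ^ 2 / (200 * g) ≤ 1 / 200 := by
    rw [div_le_div_iff₀ (by positivity) (by norm_num)]
    nlinarith
  set I : Finset (ℕ × ℕ × ℕ) := (P ×ˢ P ×ˢ range (J + 1)) with hI
  set I' : Finset (ℕ × ℕ × ℕ) := I.filter (fun i => i.1 ≠ i.2.1) with hI'
  set ε1 : ℝ := eps / (8 * (I'.card + 1)) with hε1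
  have hε10 : 0 < ε1 := by positivity
  obtain ⟨BB, hBB⟩ : ∃ BB : ℝ, BB = ∑ i ∈ I', ((i.1 : ℝ) * i.2.1) := ⟨_, rfl⟩
  have hBB0 : 0 ≤ BB := by
    rw [hBB]
    exact sum_nonneg fun i _ => by positivity
  obtain ⟨a1, ha1⟩ : ∃ a1 : ℝ, a1 = R / (2 * (BB + 1)) := ⟨_, rfl⟩
  have ha10 : 0 < a1 := by rw [ha1]; positivity
  obtain ⟨a2, ha2⟩ : ∃ a2 : ℝ, a2 = 2 * R := ⟨_, rfl⟩
  have hpair : ∀ i : ℕ × ℕ × ℕ, ∃ T0 : ℝ, i ∈ I' → ∀ t : ℝ, T0 ≤ t →
    ∀ E : Finset ℕ, ConstOff P0 E t (c * √t) →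
    ∀ s : Finset ℕ, (∀ n ∈ s, R * √t < n ∧ (n : ℝ) ≤ 1.01 * R * √t ∧
      n.Coprime P0 ∧ (n + g).Coprime P0 ∧ ⌊t / n⌋₊.Coprime P0 ∧
      Int.fract (t / n) < c ^ 2 / (200 * g) ∧ lam n ≠ lam (n + g) ∧ i.1 ∣ n ∧ i.2.1 ∣ n + g ∧
      (i.2.2 : ℝ) * (0.05 * κ) ≤ Int.fract (t / n) ∧
        Int.fract (t / n) ≤ (i.2.2 : ℝ) * (0.05 * κ) + 0.05 * κ) →
    (s.card : ℝ) ≤ (δ * (0.05 * κ * (0.01 * R)) / (i.1 * i.2.1) + ε1) * √t +
      (spK i.1 i.2.1 : ℝ) * ∑ N ∈ E, ((dvr a1 a2 t N).card : ℝ) := by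
    intro i
    by_cases hi : i ∈ I'
    · have hiB : (i.1 : ℝ) * i.2.1 ≤ BB := by
        rw [hBB]
        exact single_le_sum (f := fun i : ℕ × ℕ × ℕ => (i.1 : ℝ) * i.2.1)
          (fun i _ => by positivity) hi
      obtain ⟨b1, b2, j⟩ := i
      simp only at hiB
      simp only [hI', hI, mem_filter, mem_product, mem_range] at hi
      obtain ⟨⟨hb1, hb2, hj⟩, hne⟩ := hi
      have hjf : (j : ℝ) * (0.05 * κ) ≤ c ^ 2 / (200 * g) := by
        have : (j : ℝ) ≤ J := by exact_mod_cast Nat.lt_succ_iff.1 hj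
        exact (mul_le_mul_of_nonneg_right this h05.le).trans hJ'
      have hjf0 : 0 ≤ (j : ℝ) * (0.05 * κ) := by positivity
      obtain ⟨Q, bad, hSM⟩ := hb0 b1 b2 (hPp b1 hb1) (hPp b2 hb2) ((le_max_left _ _).trans (hP b1 hb1).2)
        ((le_max_left _ _).trans (hP b2 hb2).2) hne
        (hPlog b1 hb1 b2 hb2) (hPlog b2 hb2 b1 hb1) ((j : ℝ) * (0.05 * κ)) hjf0
        (by linarith)
      obtain ⟨T0, hT0⟩ := pair_boundR h1 h3 P0 g hP0 hg c R hc hc1 hRg b1 b2 (hPp b1 hb1) (hPp b2 hb2) hne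
        ((j : ℝ) * (0.05 * κ)) δ hjf0 (by linarith) Q bad hSM ε1 hε10 hδ1 a1 a2 (by
          have q1 : (0 : ℝ) < b1 := by exact_mod_cast (hPp b1 hb1).pos
          have q2 : (0 : ℝ) < b2 := by exact_mod_cast (hPp b2 hb2).pos
          rw [ha1]
          apply div_le_div_of_nonneg_left hR0.le (by positivity)
          linarith) ha2.ge
      exact ⟨T0, fun _ => hT0⟩
    · exact ⟨0, fun h => absurd h hi⟩
  choose T hT using hpair
  set CC : ℝ := |C0| + |C1| with hCC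
  obtain ⟨KK, hKK⟩ : ∃ KK : ℝ, KK = ∑ i ∈ I', (spK i.1 i.2.1 : ℝ) := ⟨_, rfl⟩
  have hKK0 : 0 ≤ KK := by
    rw [hKK]
    exact sum_nonneg fun i _ => Nat.cast_nonneg _
  have hKK1 : 0 < KK + 1 := by linarith
  refine ⟨a1, a2, eps / (8 * (KK + 1)), ha10, by rw [ha2]; positivity, by positivity,
    max 1 (max (∑ i ∈ I', |T i|) ((4 * CC / eps) ^ 2)), fun t ht E0 hyp hE0 s hs => ?_⟩
  have ht1 : 1 ≤ t := (le_max_left _ _).trans ht
  have ht2 : ∑ i ∈ I', |T i| ≤ t := ((le_max_left _ _).trans (le_max_right _ _)).trans ht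
  have ht3 : (4 * CC / eps) ^ 2 ≤ t := ((le_max_right _ _).trans (le_max_right _ _)).trans ht
  have ht0 : 0 < t := by linarith
  have hsq : 0 < √t := Real.sqrt_pos.2 ht0
  have hRt : 0 < R * √t := by positivity
  have hCCt : CC ≤ eps / 4 * √t := by
    have : 4 * CC / eps ≤ √t := Real.le_sqrt_of_sq_le ht3
    rw [div_le_iff₀ he] at this
    linarith
  classical
  set A1 : Finset ℕ := s.filter (fun n => ∀ p ∈ P, ¬ p ∣ n + 0) with hA1
  set A2 : Finset ℕ := s.filter (fun n => ∀ p ∈ P, ¬ p ∣ n + g) with hA2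
  set E : ℕ × ℕ × ℕ → Finset ℕ := fun i => s.filter (fun n => i.1 ∣ n ∧ i.2.1 ∣ n + g ∧
      (i.2.2 : ℝ) * (0.05 * κ) ≤ Int.fract (t / n) ∧
        Int.fract (t / n) ≤ (i.2.2 : ℝ) * (0.05 * κ) + 0.05 * κ) with hE
  have hcover : s ⊆ (A1 ∪ A2) ∪ I'.biUnion E := by
    intro n hn
    obtain ⟨g1, g2, gP1, gP2, gP3, g3, g4⟩ := hs n hn
    rw [mem_union, mem_union]
    by_cases k1 : ∀ p ∈ P, ¬ p ∣ n + 0
    · exact Or.inl (Or.inl (mem_filter.2 ⟨hn, k1⟩))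
    by_cases k2 : ∀ p ∈ P, ¬ p ∣ n + g
    · exact Or.inl (Or.inr (mem_filter.2 ⟨hn, k2⟩))
    right
    push Not at k1 k2
    obtain ⟨b1, hb1, hd1⟩ := k1
    obtain ⟨b2, hb2, hd2⟩ := k2
    rw [add_zero] at hd1
    have hne : b1 ≠ b2 := by
      rintro rfl
      have h6 : b1 ∣ g := (Nat.dvd_add_right hd1).1 hd2
      have h7 : g + 1 ≤ b1 := (le_max_right _ _).trans (hP b1 hb1).2
      have h8 := Nat.le_of_dvd (by omega) h6
      omega
    have hfr0 : 0 ≤ Int.fract (t / (n : ℝ)) := Int.fract_nonneg _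
    rw [mem_biUnion]
    refine ⟨(b1, b2, ⌊Int.fract (t / (n : ℝ)) / (0.05 * κ)⌋₊), ?_, ?_⟩
    · simp only [hI', hI, mem_filter, mem_product, mem_range]
      refine ⟨⟨hb1, hb2, ?_⟩, hne⟩
      apply Nat.lt_succ_of_le
      apply Nat.floor_le_floor
      gcongr
    · simp only [hE, mem_filter]
      have k3 : ((⌊Int.fract (t / (n : ℝ)) / (0.05 * κ)⌋₊ : ℕ) : ℝ) ≤
          Int.fract (t / (n : ℝ)) / (0.05 * κ) := Nat.floor_le (by positivity)
      have k4 := Nat.lt_floor_add_one (Int.fract (t / (n : ℝ)) / (0.05 * κ))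
      rw [le_div_iff₀ h05] at k3
      rw [div_lt_iff₀ h05] at k4
      exact ⟨hn, hd1, hd2, k3, by linarith⟩
  have hcs : (s.card : ℝ) ≤ (A1.card : ℝ) + A2.card + ∑ i ∈ I', ((E i).card : ℝ) := by
    have k1 := (card_le_card hcover).trans (card_union_le _ _)
    have k2 := card_union_le A1 A2
    have k3 : (I'.biUnion E).card ≤ ∑ i ∈ I', (E i).card := card_biUnion_le
    have k4 : s.card ≤ A1.card + A2.card + ∑ i ∈ I', (E i).card := by omega
    calc (s.card : ℝ) ≤ ((A1.card + A2.card + ∑ i ∈ I', (E i).card : ℕ) : ℝ) := by exact_mod_cast k4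
      _ = _ := by push_cast; ring
  have hprod : ∏ p ∈ P, (1 - 1 / (p : ℝ)) ≤ eps / (0.16 * R) := by
    refine (prod_one_sub_le P hPp).trans (le_trans ?_ hSe)
    apply Real.exp_le_exp.2
    linarith
  have hYX : 1.01 * R * √t - R * √t = 0.01 * R * √t := by ring
  have hApr : (1.01 * R * √t - R * √t) * ∏ p ∈ P, (1 - 1 / (p : ℝ)) ≤ eps / 16 * √t := by
    rw [hYX]
    calc 0.01 * R * √t * ∏ p ∈ P, (1 - 1 / (p : ℝ)) ≤ 0.01 * R * √t * (eps / (0.16 * R)) := by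
          gcongr
      _ = eps / 16 * √t := by
          field_simp
          norm_num
  have hA1c : (A1.card : ℝ) ≤ eps / 16 * √t + |C0| := by
    have := hC0 (R * √t) (1.01 * R * √t) hRt.le (by linarith) A1 (by
      intro n hn
      rw [hA1, mem_filter] at hn
      obtain ⟨g1, g2, -⟩ := hs n hn.1
      exact ⟨g1.le, g2, hn.2⟩)
    linarith [le_abs_self C0]
  have hA2c : (A2.card : ℝ) ≤ eps / 16 * √t + |C1| := by
    have := hC1 (R * √t) (1.01 * R * √t) hRt.le (by linarith) A2 (by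
      intro n hn
      rw [hA2, mem_filter] at hn
      obtain ⟨g1, g2, -⟩ := hs n hn.1
      exact ⟨g1.le, g2, hn.2⟩)
    linarith [le_abs_self C1]
  have hEc : ∀ i ∈ I', ((E i).card : ℝ) ≤
      (δ * (0.05 * κ * (0.01 * R)) / (i.1 * i.2.1) + ε1) * √t +
      (spK i.1 i.2.1 : ℝ) * ∑ N ∈ E0, ((dvr a1 a2 t N).card : ℝ) := by
    intro i hi
    have hTi : T i ≤ t := by
      have : |T i| ≤ ∑ i ∈ I', |T i| := single_le_sum (f := fun i => |T i|)
        (fun _ _ => abs_nonneg _) hi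
      linarith [le_abs_self (T i)]
    refine hT i hi t hTi E0 hyp (E i) ?_
    intro n hn
    simp only [hE, mem_filter] at hn
    obtain ⟨hn, q1, q2, q3, q4⟩ := hn
    obtain ⟨g1, g2, gP1, gP2, gP3, g3, g4⟩ := hs n hn
    exact ⟨g1, g2, gP1, gP2, gP3, g3, g4, q1, q2, q3, q4⟩
  have hE0' : ∑ N ∈ E0, ((dvr a1 a2 t N).card : ℝ) ≤ eps / (8 * (KK + 1)) * √t := hE0
  obtain ⟨rE, hrE⟩ : ∃ rE : ℝ, rE = ∑ N ∈ E0, ((dvr a1 a2 t N).card : ℝ) := ⟨_, rfl⟩
  have hrE0 : 0 ≤ rE := by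
    rw [hrE]
    exact sum_nonneg fun i _ => Nat.cast_nonneg _
  rw [← hrE] at hE0'
  have hKE : KK * rE ≤ eps / 8 * √t := by
    calc KK * rE ≤ (KK + 1) * (eps / (8 * (KK + 1)) * √t) :=
          mul_le_mul (by linarith) hE0' hrE0 hKK1.le
      _ = eps / 8 * √t := by
          field_simp
  have hEs : ∑ i ∈ I', ((E i).card : ℝ) ≤ eps / 4 * √t + eps / 8 * √t := by
    refine (sum_le_sum hEc).trans ?_
    rw [sum_add_distrib, ← sum_mul, ← sum_mul, ← hKK, ← hrE]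
    refine add_le_add ?_ hKE
    apply mul_le_mul_of_nonneg_right _ hsq.le
    rw [sum_add_distrib, sum_const, nsmul_eq_mul]
    have k1 : (I'.card : ℝ) * ε1 ≤ eps / 8 := by
      rw [hε1]
      calc (I'.card : ℝ) * (eps / (8 * (I'.card + 1))) ≤ (I'.card + 1) * (eps / (8 * (I'.card + 1))) := by
            gcongr
            linarith
        _ = eps / 8 := by field_simp
    have k2 : ∑ i ∈ I', δ * (0.05 * κ * (0.01 * R)) / ((i.1 : ℝ) * i.2.1) ≤
        ∑ i ∈ I, δ * (0.05 * κ * (0.01 * R)) / ((i.1 : ℝ) * i.2.1) := by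
      apply sum_le_sum_of_subset_of_nonneg (filter_subset _ _)
      intro i _ _
      positivity
    have k3 : ∑ i ∈ I, δ * (0.05 * κ * (0.01 * R)) / ((i.1 : ℝ) * i.2.1) =
        δ * (0.01 * R) * (((J : ℝ) + 1) * (0.05 * κ)) * (∑ p ∈ P, 1 / (p : ℝ)) ^ 2 := by
      rw [hI, sum_product, sq, sum_mul_sum, mul_sum]
      apply sum_congr rfl
      intro a _
      rw [sum_product, mul_sum]
      apply sum_congr rfl
      intro b _
      simp only [sum_const, card_range, nsmul_eq_mul]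
      push_cast
      field_simp
    have k4 : ((J : ℝ) + 1) * (0.05 * κ) ≤ 1 := by
      have : ((J : ℝ) + 1) * (0.05 * κ) = J * (0.05 * κ) + 0.05 * κ := by ring
      rw [this]
      norm_num at hκ1 ⊢
      linarith
    have hsum0 : 0 ≤ ∑ p ∈ P, 1 / (p : ℝ) := by linarith
    have k5 : δ * (0.01 * R) * (((J : ℝ) + 1) * (0.05 * κ)) * (∑ p ∈ P, 1 / (p : ℝ)) ^ 2 ≤
        δ * (0.01 * R) * 1 * (S + 1) ^ 2 := by
      gcongr
    have k6 : δ * (0.01 * R) * 1 * (S + 1) ^ 2 = δ * (0.01 * R * (S + 1) ^ 2) := by ring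
    linarith
  have e9 : 0 ≤ eps * √t := by positivity
  have : |C0| + |C1| ≤ eps / 4 * √t := hCCt
  linarith

end Pool.Agent.MRZ
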