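import Pool.Agent.Lib.MRL.Defs

/-! TANK MR, the lift to integers coprime to a fixed modulus `P` (helper67): exact statements. -/

set_option autoImplicit false

namespace Pool.Agent.MRZ

open Finset Pool.Agent.MRL

/-- `lam` is constant on the integers coprime to `P` in `(t, t + ℓ)`. -/
def ConstOn (P : ℕ) (t ℓ : ℝ) : Prop := ∀ m n : ℕ, t < m → (m : ℝ) < t + ℓ → m.Coprime P →
  t < n → (n : ℝ) < t + ℓ → n.Coprime P → lam m = lam n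

/-- The deterministic linking with gap `g`; all integers involved are coprime to `P`. -/
def ChainZ : Prop := ∀ (P g : ℕ) (c R : ℝ), 1 ≤ P → 1 ≤ g → 0 < c → c ≤ 1 → 1000 * g ≤ c * R →
  ∃ T0 : ℝ, ∀ t : ℝ, T0 ≤ t → ConstOn P t (c * √t) →
  ∀ n b1 b2 D w w' M d : ℕ, b1.Prime → b2.Prime → b1 ∣ n → b2 ∣ n + g →
    n.Coprime P → (n + g).Coprime P → M.Coprime P →
    R * √t < n → (n : ℝ) ≤ 1.01 * R * √t →
    (M : ℝ) ≤ t / n → t / n < M + c ^ 2 / (200 * g) →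
    0 < D → 0 < w → 0 < w' → 0 < d → P ∣ D → ((P ∣ w ∧ w'.Coprime P) ∨ (P ∣ w' ∧ w.Coprime P)) →
    d ∣ b1 * M + w' * D → d ∣ b2 * M + w * D →
    ((b2 * w' + d = b1 * w ∧
        (t / n - M + 0.25 * (c / R) < (w' : ℝ) * D / b1) ∧ ((w' : ℝ) * D / b1 < t / n - M + 0.45 * (c / R)) ∧
        (t / n - M + 0.75 * (c / R) < (w : ℝ) * D / b2) ∧ ((w : ℝ) * D / b2 < t / n - M + 0.95 * (c / R))) ∨
      (b1 * w + d = b2 * w' ∧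
        (t / n - M + 0.25 * (c / R) < (w : ℝ) * D / b2) ∧ ((w : ℝ) * D / b2 < t / n - M + 0.45 * (c / R)) ∧
        (t / n - M + 0.75 * (c / R) < (w' : ℝ) * D / b1) ∧ ((w' : ℝ) * D / b1 < t / n - M + 0.95 * (c / R)))) →
    lam n = lam (n + g)

/-- The second moment with `P ∣ D`, `P ∣ L`, `s` coprime to `P`. -/
def SecondMomentZ : Prop := ∀ (P : ℕ) (κ δ : ℝ), 1 ≤ P → 0 < κ → κ ≤ 1 / 1000 → 0 < δ →
  ∃ b0 : ℕ, ∀ b B : ℕ,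
  b.Prime → B.Prime → b0 ≤ b → b < B → 1 + Real.log B ≤ √b → ∀ f : ℝ, 0 ≤ f → f ≤ 1 / 200 →
  ∃ Q : ℕ, 0 < Q ∧ ∃ bad : Finset ℕ, bad ⊆ range Q ∧ (bad.card : ℝ) ≤ δ * Q ∧
  ∀ M : ℕ, M % Q ∉ bad → ∃ D s L d : ℕ, 0 < D ∧ 0 < s ∧ 0 < L ∧ 0 < d ∧
    P ∣ D ∧ P ∣ L ∧ s.Coprime P ∧ B * s + d = b * L ∧
    d ∣ b * M + s * D ∧ d ∣ B * M + L * D ∧
    f + 0.3 * κ < (s : ℝ) * D / b ∧ (s : ℝ) * D / b < f + 0.4 * κ ∧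
    f + 0.8 * κ < (L : ℝ) * D / B ∧ (L : ℝ) * D / B < f + 0.9 * κ

/-- The linking statement. -/
def LinkZ : Prop :=
  ∀ (P g : ℕ) (c R eps : ℝ), 1 ≤ P → 1 ≤ g → 0 < c → c ≤ 1 → 1000 * g ≤ c * R → 0 < eps →
    ∃ T₀ : ℝ, ∀ t : ℝ, T₀ ≤ t → ConstOn P t (c * √t) →
    ∀ s : Finset ℕ, (∀ n ∈ s, R * √t < n ∧ (n : ℝ) ≤ 1.01 * R * √t ∧
      n.Coprime P ∧ (n + g).Coprime P ∧ ⌊t / n⌋₊.Coprime P ∧
      Int.fract (t / n) < c ^ 2 / (200 * g) ∧ lam n ≠ lam (n + g)) →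
    (s.card : ℝ) ≤ eps * √t

/-- Runs of length `h` in which `lam` is constant on the integers coprime to `P` are rare. -/
def NoRunsZ : Prop := ∀ P : ℕ, 1 ≤ P → ∀ δ : ℝ, 0 < δ → ∃ h : ℕ, ∃ X0 : ℝ, ∀ X : ℝ, X0 ≤ X →
  (((Icc ⌈X⌉₊ ⌊2 * X⌋₊).filter (fun x => ∀ i < h, ∀ j < h, (x + i).Coprime P →
    (x + j).Coprime P → lam (x + i) = lam (x + j))).card : ℝ) ≤ δ * X

/-- The final theorem. -/
def FinalZ : Prop := ∀ (P : ℕ) (c : ℝ), 1 ≤ P → 0 < c → ∃ t0 : ℝ, ∀ t : ℝ, t0 ≤ t →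
  (∃ n : ℕ, t < n ∧ (n : ℝ) < t + c * √t ∧ n.Coprime P ∧
    Even (ArithmeticFunction.cardFactors n)) ∧
  (∃ n : ℕ, t < n ∧ (n : ℝ) < t + c * √t ∧ n.Coprime P ∧
    Odd (ArithmeticFunction.cardFactors n))

end Pool.Agent.MRZ
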