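import Pool.Agent.Lib.MRL.NR
import Pool.Agent.Lib.MRZ.Stat

/-!
# `MRD` implies `NoRunsZ`

The coefficients coprime to `P` are handled by the Moebius function: for `d ∣ P` the Gaussian
average of `λ(dm)/(dm)` is `λ(d)/d` times a translate of the Gaussian average of `λ(m)/m`.
-/

set_option autoImplicit false

namespace Pool.Agent.MRZ.NR

open Finset MeasureTheory Pool.Agent.MRL Pool.Agent.MRL.NR

theorem energy_le' {ε h X0 Y δ : ℝ} (hh : 1 ≤ h)
    (H : ∀ X : ℝ, X0 ≤ X → ∀ T : ℝ, 1 ≤ T → T ≤ X / h → ∫ t : ℝ, ‖A X t‖ ^ 2 * g T t ≤ ε)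
    (hX0 : 4 * X0 ≤ Y) (hY : 0 < Y) (hδ1 : δ ≤ 1) (hδY : 4 * h ≤ δ * Y) (hε : 0 ≤ ε) :
    ∫ u, ‖es (Ioc ⌊Y / 4⌋₊ ⌊4 * Y⌋₊) (fun n => Real.log n) lb δ u‖ ^ 2 ≤ 3 * ε := by
  have h1 : h ≤ δ * Y / 4 := by linarith
  have h2 : 4 * (δ * Y / 4) ≤ Y := by nlinarith
  have h3 := energy_le (ε := ε) (h := δ * Y / 4) (X0 := X0) (X := Y) (hh.trans h1)
    (fun X hX T hT hTX => H X hX T hT (hTX.trans (by
      rcases le_total 0 X with hX' | hX'
      · exact div_le_div_of_nonneg_left hX' (by linarith) h1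
      · exfalso
        have h4 : 0 < δ * Y / 4 := by linarith
        have h5 : X / (δ * Y / 4) ≤ 0 := div_nonpos_of_nonpos_of_nonneg hX' h4.le
        linarith))) hX0 h2 hY hε
  have e : 4 * (δ * Y / 4) / Y = δ := by field_simp
  rw [e] at h3
  exact h3

/-- the Moebius sum over the common divisors. -/
theorem coprime_eq {n P : ℕ} (hn : n ≠ 0) (hP : P ≠ 0) :
    (if n.Coprime P then (1 : ℤ) else 0) =
      ∑ d ∈ P.divisors, if d ∣ n then ArithmeticFunction.moebius d else 0 := by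
  rw [← Finset.sum_filter]
  have h1 : P.divisors.filter (fun d => d ∣ n) = (n.gcd P).divisors := by
    ext d
    simp only [mem_filter, Nat.mem_divisors, Nat.dvd_gcd_iff, ne_eq, Nat.gcd_eq_zero_iff, hP, hn,
      not_false_eq_true, and_true, and_self]
    exact and_comm
  rw [h1]
  have h2 := ArithmeticFunction.coe_mul_zeta_apply (f := ArithmeticFunction.moebius)
    (x := n.gcd P)
  rw [← h2, ArithmeticFunction.moebius_mul_coe_zeta, ArithmeticFunction.one_apply]

/-- the coefficients at the integers coprime to `P`. -/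
noncomputable def lbP (P n : ℕ) : ℂ := if n.Coprime P then lb n else 0

theorem lam_mul' {m n : ℕ} (hm : m ≠ 0) (hn : n ≠ 0) : lam (m * n) = lam m * lam n := by
  unfold lam
  rw [ArithmeticFunction.cardFactors_mul hm hn, pow_add]

theorem lb_mul {m n : ℕ} (hm : m ≠ 0) (hn : n ≠ 0) :
    lb (m * n) = ((lam m / m : ℝ) : ℂ) * lb n := by
  unfold lb
  rw [lam_mul' hm hn]
  push_cast
  rw [mul_div_mul_comm]

/-- the Gaussian average over the multiples of `d`. -/
theorem es_dvd {X δ u : ℝ} (hX : 0 ≤ X) {d : ℕ} (hd : d ≠ 0) :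
    ∑ n ∈ Ioc ⌊X / 4⌋₊ ⌊4 * X⌋₊ with d ∣ n, lb n * (gw δ (Real.log n - u) : ℂ) =
      ((lam d / d : ℝ) : ℂ) *
        es (Ioc ⌊X / d / 4⌋₊ ⌊4 * (X / d)⌋₊) (fun n => Real.log n) lb δ (u - Real.log d) := by
  have hd0 : (0 : ℝ) < d := by exact_mod_cast Nat.pos_of_ne_zero hd
  unfold es
  rw [mul_sum]
  symm
  refine sum_bij' (fun m _ => d * m) (fun n _ => n / d) ?_ ?_ ?_ ?_ ?_
  · intro m hm
    have h := mem_Ioc.1 hm
    have h1 := (Nat.floor_lt (by positivity)).1 h.1
    have h2 := (Nat.le_floor_iff (by positivity)).1 h.2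
    rw [mem_filter, mem_Ioc]
    refine ⟨⟨?_, ?_⟩, dvd_mul_right d m⟩
    · rw [Nat.floor_lt (by positivity)]
      push_cast
      rw [div_div, mul_comm, ← div_div, div_lt_iff₀ hd0] at h1
      linarith
    · rw [Nat.le_floor_iff (by positivity)]
      push_cast
      rw [← mul_div_assoc, le_div_iff₀ hd0] at h2
      linarith
  · intro n hn
    obtain ⟨h, m, rfl⟩ := mem_filter.1 hn
    have h := mem_Ioc.1 h
    have h1 := (Nat.floor_lt (by positivity)).1 h.1
    have h2 := (Nat.le_floor_iff (by positivity)).1 h.2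
    push_cast at h1 h2
    rw [Nat.mul_div_cancel_left _ (Nat.pos_of_ne_zero hd), mem_Ioc]
    constructor
    · rw [Nat.floor_lt (by positivity), div_div, mul_comm, ← div_div, div_lt_iff₀ hd0]
      linarith
    · rw [Nat.le_floor_iff (by positivity), ← mul_div_assoc, le_div_iff₀ hd0]
      linarith
  · intro m _
    exact Nat.mul_div_cancel_left _ (Nat.pos_of_ne_zero hd)
  · intro n hn
    exact Nat.mul_div_cancel' (mem_filter.1 hn).2
  · intro m hm
    have h := mem_Ioc.1 hm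
    have hm0 : m ≠ 0 := by omega
    have hm1 : (0 : ℝ) < m := by exact_mod_cast Nat.pos_of_ne_zero hm0
    rw [lb_mul hd hm0]
    push_cast
    rw [Real.log_mul hd0.ne' hm1.ne']
    rw [show Real.log d + Real.log m - u = Real.log m - (u - Real.log d) by ring]
    ring

/-- the decomposition by Moebius. -/
theorem es_eq {X δ u : ℝ} (hX : 0 ≤ X) {P : ℕ} (hP : P ≠ 0) :
    es (Ioc ⌊X / 4⌋₊ ⌊4 * X⌋₊) (fun n => Real.log n) (lbP P) δ u =
      ∑ d ∈ P.divisors, ((ArithmeticFunction.moebius d : ℤ) : ℂ) * (((lam d / d : ℝ) : ℂ) *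
        es (Ioc ⌊X / d / 4⌋₊ ⌊4 * (X / d)⌋₊) (fun n => Real.log n) lb δ (u - Real.log d)) := by
  have h1 : ∀ n ∈ Ioc ⌊X / 4⌋₊ ⌊4 * X⌋₊, lbP P n * (gw δ (Real.log n - u) : ℂ) =
      ∑ d ∈ P.divisors, ((ArithmeticFunction.moebius d : ℤ) : ℂ) *
        (if d ∣ n then lb n * (gw δ (Real.log n - u) : ℂ) else 0) := by
    intro n hn
    have hn0 : n ≠ 0 := by
      have := mem_Ioc.1 hn
      omega
    have h2 := coprime_eq hn0 hP
    have h3 : lbP P n = ((if n.Coprime P then (1 : ℤ) else 0 : ℤ) : ℂ) * lb n := by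
      unfold lbP
      by_cases h : n.Coprime P <;> simp [h]
    rw [h3, h2]
    push_cast
    rw [sum_mul, sum_mul]
    refine sum_congr rfl fun d _ => ?_
    by_cases h : d ∣ n <;> simp [h]
    ring
  unfold es
  rw [sum_congr rfl h1, sum_comm]
  refine sum_congr rfl fun d hd => ?_
  have hd0 : d ≠ 0 := (Nat.pos_of_mem_divisors hd).ne'
  have h2 := es_dvd (X := X) (δ := δ) (u := u) hX hd0
  unfold es at h2
  rw [← h2, ← mul_sum, sum_filter]

theorem norm_coef_le {d : ℕ} (hd : d ≠ 0) :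
    ‖((ArithmeticFunction.moebius d : ℤ) : ℂ)‖ * ‖((lam d / d : ℝ) : ℂ)‖ ≤ 1 := by
  have h1 : ‖((ArithmeticFunction.moebius d : ℤ) : ℂ)‖ ≤ 1 := by
    rw [Complex.norm_intCast]
    exact_mod_cast ArithmeticFunction.abs_moebius_le_one
  have h2 : ‖((lam d / d : ℝ) : ℂ)‖ ≤ 1 := by
    rw [Complex.norm_real, Real.norm_eq_abs, abs_div, lam_abs, Nat.abs_cast]
    have : (1 : ℝ) ≤ d := by exact_mod_cast Nat.pos_of_ne_zero hd
    exact (div_le_one (by linarith)).2 this
  exact mul_le_one₀ h1 (norm_nonneg _) h2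

/-- the energy of the Gaussian averages over the integers coprime to `P`. -/
theorem energyZ {ε h X0 X δ : ℝ} (hh : 1 ≤ h)
    (H : ∀ X : ℝ, X0 ≤ X → ∀ T : ℝ, 1 ≤ T → T ≤ X / h → ∫ t : ℝ, ‖A X t‖ ^ 2 * g T t ≤ ε)
    {P : ℕ} (hP : 1 ≤ P) (hX0 : 4 * (|X0| * P) ≤ X) (hX : 0 < X) (hδ : 0 < δ) (hδ1 : δ ≤ 1)
    (hδX : 4 * (h * P) ≤ δ * X) (hε : 0 ≤ ε) :
    ∫ u, ‖es (Ioc ⌊X / 4⌋₊ ⌊4 * X⌋₊) (fun n => Real.log n) (lbP P) δ u‖ ^ 2 ≤
      (#P.divisors : ℝ) ^ 2 * (3 * ε) := by
  set F : ℕ → ℝ → ℝ := fun d u =>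
    ‖es (Ioc ⌊X / d / 4⌋₊ ⌊4 * (X / d)⌋₊) (fun n => Real.log n) lb δ (u - Real.log d)‖ ^ 2 with hF
  have hint : ∀ d ∈ P.divisors, Integrable (F d) := fun d _ => by
    have := es_int hδ (Ioc ⌊X / d / 4⌋₊ ⌊4 * (X / d)⌋₊) (fun n => Real.log n) lb
    exact this.comp_sub_right (Real.log d)
  have hpt : ∀ u, ‖es (Ioc ⌊X / 4⌋₊ ⌊4 * X⌋₊) (fun n => Real.log n) (lbP P) δ u‖ ^ 2 ≤
      (#P.divisors : ℝ) * ∑ d ∈ P.divisors, F d u := by
    intro u
    rw [es_eq hX.le (by omega : P ≠ 0)]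
    have h1 : ‖∑ d ∈ P.divisors, ((ArithmeticFunction.moebius d : ℤ) : ℂ) *
        (((lam d / d : ℝ) : ℂ) *
        es (Ioc ⌊X / d / 4⌋₊ ⌊4 * (X / d)⌋₊) (fun n => Real.log n) lb δ (u - Real.log d))‖ ≤
        ∑ d ∈ P.divisors,
          ‖es (Ioc ⌊X / d / 4⌋₊ ⌊4 * (X / d)⌋₊) (fun n => Real.log n) lb δ
            (u - Real.log d)‖ := by
      refine (norm_sum_le _ _).trans (sum_le_sum fun d hd => ?_)
      rw [norm_mul, norm_mul, ← mul_assoc]
      exact mul_le_of_le_one_left (norm_nonneg _)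
        (norm_coef_le (Nat.pos_of_mem_divisors hd).ne')
    refine (pow_le_pow_left₀ (norm_nonneg _) h1 2).trans ?_
    exact sq_sum_le_card_mul_sum_sq
  have hle : ∀ d ∈ P.divisors, ∫ u, F d u ≤ 3 * ε := by
    intro d hd
    have hd' := Nat.pos_of_mem_divisors hd
    have hd0 : (0 : ℝ) < d := by exact_mod_cast hd'
    have hdP : (d : ℝ) ≤ P := by exact_mod_cast Nat.divisor_le hd
    rw [hF]
    simp only
    rw [integral_sub_right_eq_self (fun u => ‖es (Ioc ⌊X / d / 4⌋₊ ⌊4 * (X / d)⌋₊)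
      (fun n => Real.log n) lb δ u‖ ^ 2) (Real.log d)]
    refine energy_le' (h := h) (X0 := X0) hh H ?_ (by positivity) hδ1 ?_ hε
    · rw [le_div_iff₀ hd0]
      have h1 : X0 * d ≤ |X0| * P := by
        calc X0 * d ≤ |X0| * d := mul_le_mul_of_nonneg_right (le_abs_self _) hd0.le
          _ ≤ |X0| * P := mul_le_mul_of_nonneg_left hdP (abs_nonneg _)
      linarith
    · rw [← mul_div_assoc, le_div_iff₀ hd0]
      have h1 : h * d ≤ h * P := mul_le_mul_of_nonneg_left hdP (by linarith)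
      linarith
  calc ∫ u, ‖es (Ioc ⌊X / 4⌋₊ ⌊4 * X⌋₊) (fun n => Real.log n) (lbP P) δ u‖ ^ 2
      ≤ ∫ u, (#P.divisors : ℝ) * ∑ d ∈ P.divisors, F d u := by
        refine integral_mono_of_nonneg (Filter.Eventually.of_forall fun u => by positivity) ?_
          (Filter.Eventually.of_forall hpt)
        exact (integrable_finset_sum _ hint).const_mul _
    _ = (#P.divisors : ℝ) * ∑ d ∈ P.divisors, ∫ u, F d u := by
        rw [integral_const_mul, integral_finset_sum _ hint]
    _ ≤ (#P.divisors : ℝ) * ∑ d ∈ P.divisors, (3 * ε) :=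
        mul_le_mul_of_nonneg_left (sum_le_sum hle) (Nat.cast_nonneg _)
    _ = (#P.divisors : ℝ) ^ 2 * (3 * ε) := by
        rw [sum_const, nsmul_eq_mul]
        ring

/-- the integers congruent to one. -/
theorem coprime_sum_ge {F : ℕ → ℝ} (hF : ∀ n, 0 ≤ F n) {P a m : ℕ} (hP : 1 ≤ P) {s : Finset ℕ}
    {c : ℝ} (hc : 0 ≤ c) (hs : ∀ n, a < n → n ≤ a + m → n.Coprime P → n ∈ s ∧ c ≤ F n) :
    (((m : ℝ) - P) / P) * c ≤ ∑ n ∈ s, F n := by
  set f : ℕ → ℕ := fun k => P * (a / P + 1 + k) + 1 with hf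
  have hinj : Set.InjOn f (range ((m - 1) / P) : Finset ℕ) := by
    intro x _ y _ hxy
    simp only [hf] at hxy
    have h1 : P * (a / P + 1 + x) = P * (a / P + 1 + y) := by omega
    have h2 := Nat.eq_of_mul_eq_mul_left (by omega : 0 < P) h1
    omega
  have hmem : ∀ k ∈ range ((m - 1) / P), a < f k ∧ f k ≤ a + m ∧ (f k).Coprime P := by
    intro k hk
    have hk' := mem_range.1 hk
    have h1 := Nat.div_add_mod a P
    have h2 := Nat.mod_lt a (by omega : 0 < P)
    have h3 : P * (k + 1) ≤ P * ((m - 1) / P) := Nat.mul_le_mul_left P hk'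
    have h4 := Nat.mul_div_le (m - 1) P
    have e : f k = P * (a / P) + P * (k + 1) + 1 := by
      simp only [hf]
      ring
    have h6 : P * 1 ≤ P * (k + 1) := Nat.mul_le_mul_left P (by omega)
    refine ⟨by rw [e]; omega, ?_, ?_⟩
    · rw [e]
      have h5 : 1 ≤ m := by
        by_contra h
        have : m - 1 = 0 := by omega
        rw [this, Nat.zero_div] at hk'
        omega
      omega
    · simp only [hf]
      rw [Nat.coprime_comm]
      simp
  have h1 : ∑ k ∈ range ((m - 1) / P), c ≤ ∑ n ∈ image f (range ((m - 1) / P)), F n := by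
    rw [sum_image hinj]
    exact sum_le_sum fun k hk => by
      have h := hmem k hk
      exact (hs _ h.1 h.2.1 h.2.2).2
  have h2 : ∑ n ∈ image f (range ((m - 1) / P)), F n ≤ ∑ n ∈ s, F n := by
    refine sum_le_sum_of_subset_of_nonneg ?_ fun n _ _ => hF n
    intro n hn
    obtain ⟨k, hk, rfl⟩ := mem_image.1 hn
    have h := hmem k hk
    exact (hs _ h.1 h.2.1 h.2.2).1
  refine le_trans ?_ (h1.trans h2)
  rw [sum_const, card_range, nsmul_eq_mul]
  apply mul_le_mul_of_nonneg_right _ hc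
  have hP0 : (0 : ℝ) < P := by exact_mod_cast hP
  rw [div_le_iff₀ hP0]
  have h3 := Nat.div_add_mod (m - 1) P
  have h4 := Nat.mod_lt (m - 1) (by omega : 0 < P)
  have h5 : m ≤ P * ((m - 1) / P) + P := by omega
  have h6 : (m : ℝ) ≤ P * (((m - 1) / P : ℕ) : ℝ) + P := by exact_mod_cast h5
  linarith

/-- lower bound of the Gaussian average in the middle of a run -/
theorem es_lowerZ {h X u : ℝ} {x L P : ℕ} (hP : 1 ≤ P) (hh : P ≤ h)
    (hX : 4 * ((L : ℝ) + 4 * h + 4) ≤ X) (hL : 40000 * (P * h) ≤ L) (hx1 : X ≤ x)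
    (hx2 : (x : ℝ) ≤ 2 * X)
    (hrun : ∀ i < 2 * L, ∀ j < 2 * L, (x + i).Coprime P → (x + j).Coprime P →
      lam (x + i) = lam (x + j))
    (hu1 : ((x + L : ℕ) : ℝ) ≤ Real.exp u) (hu2 : Real.exp u < ((x + L : ℕ) : ℝ) + 1) :
    1 / (60 * (P : ℝ)) ≤
      ‖es (Ioc ⌊X / 4⌋₊ ⌊4 * X⌋₊) (fun n => Real.log n) (lbP P) (4 * h / X) u‖ := by
  have hP0 : (1 : ℝ) ≤ P := by exact_mod_cast hP
  have hh1 : 1 ≤ h := hP0.trans hh
  have hPh : h ≤ P * h := le_mul_of_one_le_left (by linarith) hP0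
  have hL0 : (0 : ℝ) ≤ L := Nat.cast_nonneg _
  have hX0 : 0 < X := by linarith
  push_cast at hu1 hu2
  have hδ : 0 < 4 * h / X := by positivity
  set s : Finset ℕ := Ioc ⌊X / 4⌋₊ ⌊4 * X⌋₊ with hs
  set F : ℕ → ℝ := fun n => 1 / (n : ℝ) * gw (4 * h / X) (Real.log n - u) with hF
  have hF0 : ∀ n, 0 ≤ F n := fun n => by
    simp only [hF]
    exact mul_nonneg (by positivity) (gw_nonneg hδ _)
  have hsm : ∀ n ∈ s, X / 4 < (n : ℝ) ∧ (n : ℝ) ≤ 4 * X := by
    intro n hn
    rw [hs, Finset.mem_Ioc] at hn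
    exact ⟨(Nat.floor_lt (by positivity)).1 hn.1, (Nat.le_floor_iff (by positivity)).1 hn.2⟩
  set sc : Finset ℕ := s.filter (fun n => n.Coprime P) with hsc
  have hes : es s (fun n => Real.log n) (lbP P) (4 * h / X) u
      = ((∑ n ∈ sc, lam n * F n : ℝ) : ℂ) := by
    unfold es
    rw [hsc, sum_filter]
    push_cast
    refine Finset.sum_congr rfl fun n _ => ?_
    unfold lbP lb
    by_cases hn : n.Coprime P
    · rw [if_pos hn, if_pos hn]
      simp only [hF]
      push_cast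
      ring
    · rw [if_neg hn, if_neg hn, zero_mul, Complex.ofReal_zero]
  rw [hes, Complex.norm_real, Real.norm_eq_abs]
  -- a member of the run coprime to `P`
  obtain ⟨j0, hj0, hc0⟩ : ∃ j0 < 2 * L, (x + j0).Coprime P := by
    refine ⟨P * (x / P + 1) + 1 - x, ?_, ?_⟩
    · have h1 := Nat.div_add_mod x P
      have h2 := Nat.mod_lt x (by omega : 0 < P)
      have h3 : P * (x / P + 1) = P * (x / P) + P := by ring
      have h4 : P + 1 < 2 * L := by
        have h5 : (P : ℝ) + 1 < 2 * L := by linarith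
        exact_mod_cast h5
      omega
    · have h1 := Nat.div_add_mod x P
      have h2 := Nat.mod_lt x (by omega : 0 < P)
      have h3 : P * (x / P + 1) = P * (x / P) + P := by ring
      have e : x + (P * (x / P + 1) + 1 - x) = P * (x / P + 1) + 1 := by omega
      rw [e, Nat.coprime_comm]
      simp
  set q : ℝ := lam (x + j0) with hq
  have hlx : |q| = 1 := lam_abs _
  have h1 : q * ∑ n ∈ sc, lam n * F n ≤ |∑ n ∈ sc, lam n * F n| := by
    refine (le_abs_self _).trans ?_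
    rw [abs_mul, hlx, one_mul]
  refine le_trans ?_ h1
  have hlx2 : q * q = 1 := by
    have := congrArg (fun z => z ^ 2) hlx
    simp only [sq_abs] at this
    nlinarith
  -- the run
  set R : ℕ → Prop := fun n => x ≤ n ∧ n < x + 2 * L with hR
  have hrun' : ∀ n, R n → n.Coprime P → lam n = q := by
    intro n hn hc
    obtain ⟨j, rfl⟩ := Nat.exists_eq_add_of_le hn.1
    exact hrun j (by have := hn.2; omega) j0 hj0 hc hc0
  rw [Finset.mul_sum, ← Finset.sum_filter_add_sum_filter_not sc R]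
  have hin : ∑ n ∈ sc.filter R, q * (lam n * F n) = ∑ n ∈ sc.filter R, F n := by
    refine Finset.sum_congr rfl fun n hn => ?_
    have hn' := Finset.mem_filter.mp hn
    rw [hrun' n hn'.2 (mem_filter.1 hn'.1).2, ← mul_assoc, hlx2, one_mul]
  have hout : -(∑ n ∈ s.filter (fun n => ¬ R n), F n) ≤
      ∑ n ∈ sc.filter (fun n => ¬ R n), q * (lam n * F n) := by
    have ha : -(∑ n ∈ s.filter (fun n => ¬ R n), F n) ≤
        -(∑ n ∈ sc.filter (fun n => ¬ R n), F n) := by
      apply neg_le_neg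
      refine sum_le_sum_of_subset_of_nonneg ?_ fun n _ _ => hF0 n
      exact filter_subset_filter _ (filter_subset _ _)
    refine ha.trans ?_
    rw [← Finset.sum_neg_distrib]
    refine Finset.sum_le_sum fun n _ => ?_
    have h2 : |q * lam n| = 1 := by rw [abs_mul, hlx, lam_abs, one_mul]
    have h3 : -1 ≤ q * lam n := by
      have := neg_abs_le (q * lam n)
      rw [h2] at this
      exact this
    nlinarith [mul_le_mul_of_nonneg_right h3 (hF0 n)]
  rw [hin]
  -- the centre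
  set m : ℕ := ⌊4 * h⌋₊ with hm
  have hm1 : (m : ℝ) ≤ 4 * h := Nat.floor_le (by positivity)
  have hm2 : 4 * h - 1 < m := Nat.sub_one_lt_floor _
  have hmL : m < L := by
    have : (m : ℝ) < L := by linarith
    exact_mod_cast this
  have hcen : 0.0298 / P ≤ ∑ n ∈ sc.filter R, F n := by
    have h2 := coprime_sum_ge hF0 (P := P) (a := x + L) (m := m) hP (s := sc.filter R)
      (c := 0.0149 / h) (by positivity) (fun n hn1 hn2 hn3 => by
        have h3 : (x : ℝ) ≤ n := by exact_mod_cast (by omega : x ≤ n)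
        have h4 : (n : ℝ) ≤ x + L + m := by exact_mod_cast hn2
        have h5 : (x : ℝ) + L + 1 ≤ n := by exact_mod_cast hn1
        refine ⟨?_, ker_ge hh1 hX0 (by linarith) (by linarith) (by linarith) (by linarith)⟩
        rw [Finset.mem_filter, hsc, Finset.mem_filter]
        refine ⟨⟨?_, hn3⟩, ⟨by omega, by omega⟩⟩
        rw [hs, Finset.mem_Ioc]
        constructor
        · rw [Nat.floor_lt (by positivity)]
          linarith
        · rw [Nat.le_floor_iff (by positivity)]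
          linarith)
    refine le_trans ?_ h2
    have h6 : 2 * h ≤ (m : ℝ) - P := by linarith
    calc (0.0298 : ℝ) / P = (2 * h / P) * (0.0149 / h) := by
          field_simp
          norm_num
      _ ≤ (((m : ℝ) - P) / P) * (0.0149 / h) :=
          mul_le_mul_of_nonneg_right (div_le_div_of_nonneg_right h6 (by linarith)) (by positivity)
  -- outside
  have hLm : (1 : ℝ) < (L : ℝ) - 1 := by linarith
  have hout2 : ∑ n ∈ s.filter (fun n => ¬ R n), F n ≤ 2 * (205 * h * (1 / ((L : ℝ) - 1 - 1))) := by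
    have hsum : ∀ K : ℕ, ∑ k ∈ range K, 205 * h * (1 / ((L : ℝ) - 1 + k) ^ 2) ≤
        205 * h * (1 / ((L : ℝ) - 1 - 1)) := by
      intro K
      rw [← Finset.mul_sum]
      refine mul_le_mul_of_nonneg_left ?_ (by positivity)
      have h2 := sum_inv_sq_le hLm K
      have h3 : 0 ≤ 1 / ((L : ℝ) - 1 - 1 + K) := by
        have : (0 : ℝ) ≤ K := Nat.cast_nonneg _
        apply div_nonneg zero_le_one
        linarith
      linarith
    rw [← Finset.sum_filter_add_sum_filter_not (s.filter (fun n => ¬ R n)) (fun n => n < x)]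
    have hA1 : ∑ n ∈ (s.filter (fun n => ¬ R n)).filter (fun n => n < x), F n ≤
        205 * h * (1 / ((L : ℝ) - 1 - 1)) := by
      refine le_trans ?_ (hsum x)
      have h2 : ∀ n ∈ (s.filter (fun n => ¬ R n)).filter (fun n => n < x),
          F n ≤ 205 * h * (1 / ((L : ℝ) - 1 + ((x - 1 - n : ℕ) : ℝ)) ^ 2) := by
        intro n hn
        rw [Finset.mem_filter, Finset.mem_filter] at hn
        have h3 := hsm n hn.1.1
        have h4 : ((x - 1 - n : ℕ) : ℝ) = (x : ℝ) - 1 - n := by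
          rw [Nat.cast_sub (by omega), Nat.cast_sub (by omega), Nat.cast_one]
        have hn5 : (n : ℝ) + 1 ≤ x := by exact_mod_cast hn.2
        refine ker_le hh1 hX0 h3.1 h3.2 (by linarith) ?_ ?_
        · rw [h4]; linarith
        · rw [abs_sub_comm, abs_of_nonneg (by linarith), h4]
          linarith
      refine (Finset.sum_le_sum h2).trans ?_
      have h5 : ∑ n ∈ (s.filter (fun n => ¬ R n)).filter (fun n => n < x),
          205 * h * (1 / ((L : ℝ) - 1 + ((x - 1 - n : ℕ) : ℝ)) ^ 2) =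
          ∑ k ∈ ((s.filter (fun n => ¬ R n)).filter (fun n => n < x)).image
            (fun n => x - 1 - n), 205 * h * (1 / ((L : ℝ) - 1 + (k : ℝ)) ^ 2) := by
        rw [Finset.sum_image]
        intro a ha b hb hab
        have h6 := (Finset.mem_filter.mp ha).2
        have h7 := (Finset.mem_filter.mp hb).2
        simp only at hab
        omega
      rw [h5]
      refine Finset.sum_le_sum_of_subset_of_nonneg ?_ fun k _ _ => by positivity
      intro k hk
      obtain ⟨n, hn, rfl⟩ := Finset.mem_image.mp hk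
      have h6 := (Finset.mem_filter.mp hn).2
      rw [Finset.mem_range]
      omega
    have hA2 : ∑ n ∈ (s.filter (fun n => ¬ R n)).filter (fun n => ¬ n < x), F n ≤
        205 * h * (1 / ((L : ℝ) - 1 - 1)) := by
      refine le_trans ?_ (hsum (⌊4 * X⌋₊ + 1))
      have h2 : ∀ n ∈ (s.filter (fun n => ¬ R n)).filter (fun n => ¬ n < x),
          F n ≤ 205 * h * (1 / ((L : ℝ) - 1 + ((n - (x + 2 * L) : ℕ) : ℝ)) ^ 2) := by
        intro n hn
        rw [Finset.mem_filter, Finset.mem_filter] at hn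
        have h3 := hsm n hn.1.1
        have hge : x + 2 * L ≤ n := by
          by_contra hcon
          exact hn.1.2 ⟨by omega, by omega⟩
        have h4 : ((n - (x + 2 * L) : ℕ) : ℝ) = (n : ℝ) - (x + 2 * L) := by
          rw [Nat.cast_sub hge]; push_cast; ring
        have hn5 : (x : ℝ) + 2 * L ≤ n := by exact_mod_cast hge
        refine ker_le hh1 hX0 h3.1 h3.2 (by linarith) ?_ ?_
        · rw [h4]; linarith
        · rw [abs_of_nonneg (by linarith), h4]
          linarith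
      refine (Finset.sum_le_sum h2).trans ?_
      have h5 : ∑ n ∈ (s.filter (fun n => ¬ R n)).filter (fun n => ¬ n < x),
          205 * h * (1 / ((L : ℝ) - 1 + ((n - (x + 2 * L) : ℕ) : ℝ)) ^ 2) =
          ∑ k ∈ ((s.filter (fun n => ¬ R n)).filter (fun n => ¬ n < x)).image
            (fun n => n - (x + 2 * L)), 205 * h * (1 / ((L : ℝ) - 1 + (k : ℝ)) ^ 2) := by
        rw [Finset.sum_image]
        intro a ha b hb hab
        have ha' := Finset.mem_filter.mp ha
        have hb' := Finset.mem_filter.mp hb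
        have ha2 := (Finset.mem_filter.mp ha'.1).2
        have hb2 := (Finset.mem_filter.mp hb'.1).2
        have ha3 : x + 2 * L ≤ a := by
          by_contra hcon
          exact ha2 ⟨by omega, by omega⟩
        have hb3 : x + 2 * L ≤ b := by
          by_contra hcon
          exact hb2 ⟨by omega, by omega⟩
        simp only at hab
        omega
      rw [h5]
      refine Finset.sum_le_sum_of_subset_of_nonneg ?_ fun k _ _ => by positivity
      intro k hk
      obtain ⟨n, hn, rfl⟩ := Finset.mem_image.mp hk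
      have h6 := (Finset.mem_filter.mp (Finset.mem_filter.mp hn).1).1
      rw [hs, Finset.mem_Ioc] at h6
      rw [Finset.mem_range]
      omega
    linarith
  have hfin : 2 * (205 * h * (1 / ((L : ℝ) - 1 - 1))) ≤ 0.0103 / P := by
    have h2 : 39998 * (P * h) ≤ (L : ℝ) - 1 - 1 := by linarith
    have h3 : 1 / ((L : ℝ) - 1 - 1) ≤ 1 / (39998 * (P * h)) :=
      one_div_le_one_div_of_le (by positivity) h2
    calc 2 * (205 * h * (1 / ((L : ℝ) - 1 - 1))) ≤ 2 * (205 * h * (1 / (39998 * (P * h)))) := by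
          have : 0 ≤ 205 * h := by positivity
          nlinarith [mul_le_mul_of_nonneg_left h3 this]
      _ = (410 / 39998) / P := by
          field_simp
          norm_num
      _ ≤ 0.0103 / P := by
          apply div_le_div_of_nonneg_right _ (by linarith)
          norm_num
  have hend : 1 / (60 * (P : ℝ)) ≤ 0.0298 / P - 0.0103 / P := by
    have e : (0.0298 : ℝ) / P - 0.0103 / P = 0.0195 / P := by ring
    rw [e, div_le_div_iff₀ (by positivity) (by positivity)]
    nlinarith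
  linarith

/-- **`MRD` implies `NoRunsZ`.** -/
theorem noRunsZ (H : MRD) : NoRunsZ := by
  intro P hP δ hδ
  have hP0 : (1 : ℝ) ≤ P := by exact_mod_cast hP
  set τ : ℝ := (#P.divisors : ℝ) with hτ
  have hτ0 : 0 < τ := by
    rw [hτ]
    exact_mod_cast card_pos.2 ⟨1, Nat.one_mem_divisors.2 (by omega)⟩
  obtain ⟨h0, hh0, X0, hX0⟩ := H (δ / (40000 * P ^ 2 * τ ^ 2)) (by positivity)
  set h : ℝ := h0 * P with hhd
  have hhP : (P : ℝ) ≤ h := le_mul_of_one_le_left (by linarith) hh0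
  have hh1 : 1 ≤ h := hP0.trans hhP
  set L : ℕ := ⌈40000 * (P * h)⌉₊ with hLd
  have hL : 40000 * (P * h) ≤ L := Nat.le_ceil _
  refine ⟨2 * L, max (4 * (|X0| * P)) (4 * ((L : ℝ) + 4 * h + 4)), fun X hX => ?_⟩
  have hX1 : 4 * (|X0| * P) ≤ X := (le_max_left _ _).trans hX
  have hX2 : 4 * ((L : ℝ) + 4 * h + 4) ≤ X := (le_max_right _ _).trans hX
  have hL0 : (0 : ℝ) ≤ L := Nat.cast_nonneg _
  have hXpos : 0 < X := by linarith
  set R : Finset ℕ := (Icc ⌈X⌉₊ ⌊2 * X⌋₊).filter (fun x => ∀ i < 2 * L, ∀ j < 2 * L,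
    (x + i).Coprime P → (x + j).Coprime P → lam (x + i) = lam (x + j)) with hR
  have hδ1 : 4 * h / X ≤ 1 := by
    rw [div_le_one hXpos]
    linarith
  have hen := energyZ (δ := 4 * h / X) hh0 hX0 hP hX1 hXpos (by positivity) hδ1
    (by rw [div_mul_cancel₀ _ hXpos.ne']) (by positivity)
  set E : ℝ → ℝ := fun u =>
    ‖es (Ioc ⌊X / 4⌋₊ ⌊4 * X⌋₊) (fun n => Real.log n) (lbP P) (4 * h / X) u‖ ^ 2 with hE
  have hEi : Integrable E := es_int (by positivity) _ _ _
  set I : ℕ → Set ℝ := fun x =>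
    Set.Ico (Real.log ((x + L : ℕ) : ℝ)) (Real.log (((x + L : ℕ) : ℝ) + 1)) with hI
  have hmem : ∀ x ∈ R, X ≤ (x : ℝ) ∧ (x : ℝ) ≤ 2 * X ∧ ∀ i < 2 * L, ∀ j < 2 * L,
      (x + i).Coprime P → (x + j).Coprime P → lam (x + i) = lam (x + j) := by
    intro x hx
    rw [hR, Finset.mem_filter, Finset.mem_Icc] at hx
    exact ⟨Nat.ceil_le.1 hx.1.1, (Nat.le_floor_iff (by positivity)).1 hx.1.2, hx.2⟩
  have hdisj : Set.Pairwise (↑R : Set ℕ) (Function.onFun Disjoint I) := by
    intro x hx y hy hxy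
    have hx0 : (0 : ℝ) < ((x + L : ℕ) : ℝ) := by
      push_cast; linarith [(hmem x hx).1]
    have hy0 : (0 : ℝ) < ((y + L : ℕ) : ℝ) := by
      push_cast; linarith [(hmem y hy).1]
    rw [Function.onFun, Set.disjoint_left]
    intro u hux huy
    simp only [hI, Set.mem_Ico] at hux huy
    have a1 := (Real.log_le_iff_le_exp hx0).1 hux.1
    have a2 := (Real.lt_log_iff_exp_lt (by linarith)).1 hux.2
    have b1 := (Real.log_le_iff_le_exp hy0).1 huy.1
    have b2 := (Real.lt_log_iff_exp_lt (by linarith)).1 huy.2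
    have c1 : ((x + L : ℕ) : ℝ) < ((y + L : ℕ) : ℝ) + 1 := lt_of_le_of_lt a1 b2
    have c2 : ((y + L : ℕ) : ℝ) < ((x + L : ℕ) : ℝ) + 1 := lt_of_le_of_lt b1 a2
    have c3 : x + L < y + L + 1 := by exact_mod_cast c1
    have c4 : y + L < x + L + 1 := by exact_mod_cast c2
    exact hxy (by omega)
  have hunion : ∑ x ∈ R, ∫ u in I x, E u ≤ ∫ u, E u := by
    rw [← integral_biUnion_finset R (fun x _ => measurableSet_Ico) hdisj
      (fun x _ => hEi.integrableOn)]
    exact setIntegral_le_integral hEi (Filter.Eventually.of_forall fun u => by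
      simp only [hE, Pi.zero_apply]; positivity)
  have hone : ∀ x ∈ R, (1 / (60 * (P : ℝ))) ^ 2 * (1 / (3 * X)) ≤ ∫ u in I x, E u := by
    intro x hx
    obtain ⟨hx1, hx2, hx3⟩ := hmem x hx
    have hx0 : (0 : ℝ) < ((x + L : ℕ) : ℝ) := by push_cast; linarith
    have h1 : ∫ _ in I x, (1 / (60 * (P : ℝ))) ^ 2 ≤ ∫ u in I x, E u := by
      refine setIntegral_mono_on ?_ hEi.integrableOn measurableSet_Ico fun u hu => ?_
      · exact integrableOn_const (by simp [hI])
      · simp only [hI, Set.mem_Ico] at hu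
        have a1 := (Real.log_le_iff_le_exp hx0).1 hu.1
        have a2 := (Real.lt_log_iff_exp_lt (by linarith)).1 hu.2
        have h2 := es_lowerZ hP hhP hX2 hL hx1 hx2 hx3 a1 a2
        simp only [hE]
        exact pow_le_pow_left₀ (by positivity) h2 2
    refine le_trans ?_ h1
    rw [setIntegral_const]
    simp only [hI, measureReal_def, Real.volume_Ico, smul_eq_mul]
    have h3 : (((x + L : ℕ) : ℝ) + 1 - ((x + L : ℕ) : ℝ)) / (3 * X) ≤
        Real.log (((x + L : ℕ) : ℝ) + 1) - Real.log ((x + L : ℕ) : ℝ) := by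
      apply log_spacing_real hx0 (by linarith)
      push_cast
      linarith
    have h4 : (((x + L : ℕ) : ℝ) + 1 - ((x + L : ℕ) : ℝ)) = 1 := by ring
    rw [h4] at h3
    have h5 : 0 ≤ Real.log (((x + L : ℕ) : ℝ) + 1) - Real.log ((x + L : ℕ) : ℝ) :=
      le_trans (by positivity) h3
    rw [ENNReal.toReal_ofReal h5, mul_comm]
    exact mul_le_mul_of_nonneg_right h3 (by positivity)
  have hcard : (R.card : ℝ) * ((1 / (60 * (P : ℝ))) ^ 2 * (1 / (3 * X))) ≤
      τ ^ 2 * (3 * (δ / (40000 * P ^ 2 * τ ^ 2))) := by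
    calc (R.card : ℝ) * ((1 / (60 * (P : ℝ))) ^ 2 * (1 / (3 * X)))
        = ∑ _x ∈ R, (1 / (60 * (P : ℝ))) ^ 2 * (1 / (3 * X)) := by
          rw [Finset.sum_const, nsmul_eq_mul]
      _ ≤ ∑ x ∈ R, ∫ u in I x, E u := Finset.sum_le_sum hone
      _ ≤ ∫ u, E u := hunion
      _ ≤ τ ^ 2 * (3 * (δ / (40000 * P ^ 2 * τ ^ 2))) := hen
  have h6 : (R.card : ℝ) * ((1 / (60 * (P : ℝ))) ^ 2 * (1 / (3 * X))) =
      R.card / (10800 * P ^ 2 * X) := by
    field_simp
    ring
  have h7 : τ ^ 2 * (3 * (δ / (40000 * P ^ 2 * τ ^ 2))) * (10800 * P ^ 2 * X) =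
      (32400 / 40000) * (δ * X) := by
    field_simp
    ring
  rw [h6, div_le_iff₀ (by positivity), h7] at hcard
  nlinarith [mul_pos hδ hXpos]

end Pool.Agent.MRZ.NR

namespace Pool.Agent.MRZ

open Pool.Agent.MRL in
/-- **`MRD` implies `NoRunsZ`.** -/
theorem noRunsZ (H : MRD) : NoRunsZ := NR.noRunsZ H

end Pool.Agent.MRZ
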