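import Mathlib

/-! TANK MR, quantitative lift (helper14, helper1): the pairs `(u, v)` with `u v` in a small
exceptional set and `u` of size `√t` are few. Elementary, self-contained. -/

set_option autoImplicit false

namespace Pool.Agent.MRZ

open Finset

/-- `∑_{u ≤ U} d(u) ≤ U (1 + log U)`. -/
theorem sum_divisors_card_le (U : ℕ) :
    (∑ u ∈ Icc 1 U, (u.divisors.card : ℝ)) ≤ U * (1 + Real.log U) := by
  have h1 : (∑ u ∈ Icc 1 U, u.divisors.card) = ∑ d ∈ Icc 1 U, U / d := by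
    have h2 : ∀ u ∈ Icc 1 U, u.divisors.card = ∑ d ∈ Icc 1 U, if d ∣ u then 1 else 0 := by
      intro u hu
      rw [Finset.mem_Icc] at hu
      rw [← Finset.card_filter]
      congr 1
      ext d
      simp only [Nat.mem_divisors, Finset.mem_filter, Finset.mem_Icc]
      constructor
      · rintro ⟨h, h0⟩
        exact ⟨⟨Nat.pos_of_dvd_of_pos h (by omega), (Nat.le_of_dvd (by omega) h).trans hu.2⟩, h⟩
      · rintro ⟨_, h⟩
        exact ⟨h, by omega⟩
    rw [Finset.sum_congr rfl h2, Finset.sum_comm]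
    apply Finset.sum_congr rfl
    intro d hd
    rw [← Finset.card_filter]
    have h3 := Nat.Ioc_filter_dvd_card_eq_div U d
    rw [← h3]
    congr 1
  have h2 : (∑ u ∈ Icc 1 U, (u.divisors.card : ℝ)) = ∑ d ∈ Icc 1 U, ((U / d : ℕ) : ℝ) := by
    exact_mod_cast h1
  rw [h2]
  have h3 : (∑ d ∈ Icc 1 U, ((U / d : ℕ) : ℝ)) ≤ ∑ d ∈ Icc 1 U, (U : ℝ) * (d : ℝ)⁻¹ := by
    apply Finset.sum_le_sum
    intro d hd
    have := @Nat.cast_div_le ℝ _ _ _ U d
    rw [div_eq_mul_inv] at this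
    exact this
  refine h3.trans ?_
  rw [← Finset.mul_sum]
  have h4 := harmonic_le_one_add_log U
  rw [harmonic_eq_sum_Icc] at h4
  push_cast at h4
  exact mul_le_mul_of_nonneg_left h4 (Nat.cast_nonneg U)

/-- The number of multiples of `u` in a short interval. -/
theorem mult_count {t ℓ : ℝ} (E : Finset ℕ) (hE : ∀ N ∈ E, t < (N : ℝ) ∧ (N : ℝ) < t + ℓ)
    (hl : 0 ≤ ℓ) (u : ℕ) (hu : 0 < u) :
    (((E.filter (fun N => u ∣ N)).card : ℕ) : ℝ) ≤ ℓ / u + 1 := by
  have hu' : (0 : ℝ) < u := by exact_mod_cast hu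
  by_cases hne : (E.filter (fun N => u ∣ N)).Nonempty
  swap
  · rw [Finset.not_nonempty_iff_eq_empty] at hne
    rw [hne]
    simp only [Finset.card_empty, Nat.cast_zero]
    positivity
  -- the quotients lie in an interval of length `ℓ / u`
  set S := (E.filter (fun N => u ∣ N)).image (fun N => N / u) with hS
  have hcard : (E.filter (fun N => u ∣ N)).card = S.card := by
    rw [hS, Finset.card_image_of_injOn]
    intro a ha b hb hab
    simp only [Finset.coe_filter, Set.mem_ofPred_eq] at ha hb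
    have h1 := Nat.div_mul_cancel ha.2
    have h2 := Nat.div_mul_cancel hb.2
    simp only at hab
    rw [← h1, ← h2, hab]
  rw [hcard]
  have hSne : S.Nonempty := hne.image _
  have hbd : ∀ x ∈ S, t < (x : ℝ) * u ∧ (x : ℝ) * u < t + ℓ := by
    intro x hx
    rw [hS, Finset.mem_image] at hx
    obtain ⟨N, hN, rfl⟩ := hx
    rw [Finset.mem_filter] at hN
    have h1 : ((N / u : ℕ) : ℝ) * u = N := by exact_mod_cast Nat.div_mul_cancel hN.2
    rw [h1]
    exact hE N hN.1
  have hsub : S ⊆ Icc (S.min' hSne) (S.max' hSne) := by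
    intro x hx
    rw [Finset.mem_Icc]
    exact ⟨S.min'_le x hx, S.le_max' x hx⟩
  have h1 := Finset.card_le_card hsub
  rw [Nat.card_Icc] at h1
  have h2 := hbd _ (S.min'_mem hSne)
  have h3 := hbd _ (S.max'_mem hSne)
  have h4 : S.min' hSne ≤ S.max' hSne := S.min'_le_max' hSne
  have h5 : (S.card : ℝ) ≤ (S.max' hSne : ℝ) + 1 - (S.min' hSne : ℝ) := by
    have : ((S.max' hSne + 1 - S.min' hSne : ℕ) : ℝ) = (S.max' hSne : ℝ) + 1 - (S.min' hSne : ℝ) := by
      rw [Nat.cast_sub (by omega)]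
      push_cast
      ring
    rw [← this]
    exact_mod_cast h1
  refine h5.trans ?_
  have h6 : (S.max' hSne : ℝ) - (S.min' hSne : ℝ) ≤ ℓ / u := by
    rw [le_div_iff₀ hu']
    nlinarith [h2.1, h3.2]
  linarith

/-- The divisor sum over the small divisors of the exceptional integers. -/
theorem sum_div_E {c a1 a2 : ℝ} (hc : 0 < c) (h1 : 0 < a1) {t : ℝ} (ht : 1 ≤ t)
    (E : Finset ℕ) (hE : ∀ N ∈ E, t < (N : ℝ) ∧ (N : ℝ) < t + c * √t) :
    (∑ N ∈ E, ∑ u ∈ N.divisors.filter (fun u : ℕ => a1 * √t ≤ (u : ℝ) ∧ (u : ℝ) ≤ a2 * √t),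
      (u.divisors.card : ℝ)) ≤
      (c / a1 + 1) * ((⌊a2 * √t⌋₊ : ℝ) * (1 + Real.log ⌊a2 * √t⌋₊)) := by
  have hst : 0 < √t := Real.sqrt_pos.2 (by linarith)
  have hswap : (∑ N ∈ E, ∑ u ∈ N.divisors.filter
        (fun u : ℕ => a1 * √t ≤ (u : ℝ) ∧ (u : ℝ) ≤ a2 * √t), (u.divisors.card : ℝ)) =
      ∑ u ∈ (Icc 1 ⌊a2 * √t⌋₊).filter (fun u : ℕ => a1 * √t ≤ (u : ℝ)),
        ∑ N ∈ E.filter (fun N => u ∣ N), (u.divisors.card : ℝ) := by
    apply Finset.sum_comm'
    intro N u
    simp only [Finset.mem_filter, Nat.mem_divisors, Finset.mem_Icc]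
    constructor
    · rintro ⟨hN, ⟨hd, h0⟩, hu1, hu2⟩
      exact ⟨⟨hN, hd⟩, ⟨Nat.pos_of_dvd_of_pos hd (Nat.pos_of_ne_zero h0), Nat.le_floor hu2⟩, hu1⟩
    · rintro ⟨⟨hN, hd⟩, ⟨hu0, hu2⟩, hu1⟩
      have h0 : (N : ℝ) ≠ 0 := by
        have := (hE N hN).1
        linarith
      refine ⟨hN, ⟨hd, by exact_mod_cast h0⟩, hu1, ?_⟩
      exact (Nat.le_floor_iff' (by omega)).1 hu2
  rw [hswap]
  have hone : ∀ u ∈ (Icc 1 ⌊a2 * √t⌋₊).filter (fun u : ℕ => a1 * √t ≤ (u : ℝ)),
      ∑ N ∈ E.filter (fun N => u ∣ N), (u.divisors.card : ℝ) ≤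
        (c / a1 + 1) * (u.divisors.card : ℝ) := by
    intro u hu
    rw [Finset.mem_filter, Finset.mem_Icc] at hu
    rw [Finset.sum_const, nsmul_eq_mul]
    apply mul_le_mul_of_nonneg_right _ (Nat.cast_nonneg _)
    refine (mult_count E hE (by positivity) u (by omega)).trans ?_
    have hu0 : (0 : ℝ) < u := by exact_mod_cast hu.1.1
    have : c * √t / u ≤ c / a1 := by
      rw [div_le_div_iff₀ hu0 h1]
      nlinarith [hu.2]
    linarith
  refine (Finset.sum_le_sum hone).trans ?_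
  rw [← Finset.mul_sum]
  apply mul_le_mul_of_nonneg_left _ (by positivity)
  refine le_trans ?_ (sum_divisors_card_le ⌊a2 * √t⌋₊)
  apply Finset.sum_le_sum_of_subset_of_nonneg (Finset.filter_subset _ _)
  intro i _ _
  positivity

open scoped Pointwise in
theorem card_divisors_mul_le (a b : ℕ) :
    (a * b).divisors.card ≤ a.divisors.card * b.divisors.card := by
  rw [Nat.divisors_mul]
  exact Finset.card_mul_le

theorem floor_log_le {a : ℝ} (ha : 0 < a) : ∃ t1 : ℝ, ∀ t : ℝ, t1 ≤ t →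
    (⌊a * √t⌋₊ : ℝ) * (1 + Real.log ⌊a * √t⌋₊) ≤ a * √t * Real.log t := by
  refine ⟨max 1 ((Real.exp 1 * a) ^ 2), fun t ht => ?_⟩
  have ht1 : 1 ≤ t := (le_max_left _ _).trans ht
  have ht2 : (Real.exp 1 * a) ^ 2 ≤ t := (le_max_right _ _).trans ht
  have hst : 0 < √t := Real.sqrt_pos.2 (by linarith)
  have hsq : √t * √t = t := Real.mul_self_sqrt (by linarith)
  have hea : Real.exp 1 * a ≤ √t := by
    have h0 : 0 ≤ Real.exp 1 * a := by positivity
    rw [← Real.sqrt_sq h0]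
    exact Real.sqrt_le_sqrt ht2
  have hlog : 0 ≤ Real.log t := Real.log_nonneg ht1
  have hfl : (⌊a * √t⌋₊ : ℝ) ≤ a * √t := Nat.floor_le (by positivity)
  rcases Nat.eq_zero_or_pos ⌊a * √t⌋₊ with h0 | h0
  · rw [h0]
    simp only [Nat.cast_zero, zero_mul]
    positivity
  · have h0' : (0 : ℝ) < (⌊a * √t⌋₊ : ℝ) := by exact_mod_cast h0
    have h3 : 1 + Real.log ⌊a * √t⌋₊ ≤ Real.log t := by
      have h4 : Real.log ⌊a * √t⌋₊ ≤ Real.log (a * √t) := Real.log_le_log h0' hfl
      have h5 : 1 + Real.log (a * √t) = Real.log (Real.exp 1 * (a * √t)) := by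
        rw [Real.log_mul (Real.exp_pos 1).ne' (by positivity), Real.log_exp]
      have h6 : Real.log (Real.exp 1 * (a * √t)) ≤ Real.log t := by
        apply Real.log_le_log (by positivity)
        nlinarith
      linarith
    calc (⌊a * √t⌋₊ : ℝ) * (1 + Real.log ⌊a * √t⌋₊)
        ≤ (⌊a * √t⌋₊ : ℝ) * Real.log t := mul_le_mul_of_nonneg_left h3 h0'.le
      _ ≤ a * √t * Real.log t := mul_le_mul_of_nonneg_right hfl hlog

/-- The balanced factorizations `N = u v`, `a1 √t ≤ u ≤ a2 √t`, of the members of a set of at most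
`η √t / (log t)²` integers of `(t, t + c √t)` number at most `ε √t`. -/
theorem touch_pairs' {c a1 a2 ε : ℝ} (hc : 0 < c) (h1 : 0 < a1) (h2 : 0 < a2) (hε : 0 < ε) :
    ∃ η : ℝ, 0 < η ∧ ∃ t0 : ℝ, ∀ t : ℝ, t0 ≤ t → ∀ E : Finset ℕ,
      (∀ N ∈ E, t < (N : ℝ) ∧ (N : ℝ) < t + c * √t) →
      (E.card : ℝ) ≤ η * √t / (Real.log t) ^ 2 →
      ((∑ N ∈ E, (N.divisors.filter
        (fun u : ℕ => a1 * √t ≤ (u : ℝ) ∧ (u : ℝ) ≤ a2 * √t)).card : ℕ) : ℝ) ≤ ε * √t := by
  set K : ℝ := (c / a1 + 1) * a2 + (c / (1 / a2) + 1) * (2 / a1) with hK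
  have hKpos : 0 < K := by positivity
  set M : ℝ := 2 * K / ε with hM
  have hMpos : 0 < M := by positivity
  obtain ⟨t1, ht1⟩ := floor_log_le h2
  obtain ⟨t2, ht2⟩ := floor_log_le (a := 2 / a1) (by positivity)
  refine ⟨ε / (2 * M ^ 2), by positivity, max (max 3 (c ^ 2)) (max t1 t2), ?_⟩
  intro t ht E hE hcard
  have h3 : 3 ≤ t := ((le_max_left _ _).trans (le_max_left _ _)).trans ht
  have h4 : c ^ 2 ≤ t := ((le_max_right _ _).trans (le_max_left _ _)).trans ht
  have h5 : t1 ≤ t := ((le_max_left _ _).trans (le_max_right _ _)).trans ht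
  have h6 : t2 ≤ t := ((le_max_right _ _).trans (le_max_right _ _)).trans ht
  have hst : 0 < √t := Real.sqrt_pos.2 (by linarith)
  have hsq : √t * √t = t := Real.mul_self_sqrt (by linarith)
  have hcs : c ≤ √t := by
    rw [← Real.sqrt_sq hc.le]
    exact Real.sqrt_le_sqrt h4
  have hL : 0 < Real.log t := Real.log_pos (by linarith)
  set L : ℝ := Real.log t with hLdef
  set Z : ℝ := M * L with hZ
  have hZpos : 0 < Z := by positivity
  have hNpos : ∀ N ∈ E, 0 < N := by
    intro N hN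
    have h7 := (hE N hN).1
    have h8 : (0 : ℝ) < N := by linarith
    exact_mod_cast h8
  set F : ℕ → Finset ℕ := fun N => N.divisors.filter
    (fun u : ℕ => a1 * √t ≤ (u : ℝ) ∧ (u : ℝ) ≤ a2 * √t) with hF
  -- pointwise bound
  have hpt : ∀ N ∈ E, ((F N).card : ℝ) ≤ Z ^ 2 + (∑ u ∈ F N, (u.divisors.card : ℝ)) / Z +
      (∑ u ∈ F N, ((N / u).divisors.card : ℝ)) / Z := by
    intro N hN
    have hN0 := hNpos N hN
    -- the good divisors
    have hgood : (((F N).filter (fun u => (u.divisors.card : ℝ) ≤ Z ∧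
        ((N / u).divisors.card : ℝ) ≤ Z)).card : ℝ) ≤ Z ^ 2 := by
      by_cases hne : ((F N).filter (fun u => (u.divisors.card : ℝ) ≤ Z ∧
        ((N / u).divisors.card : ℝ) ≤ Z)).Nonempty
      · obtain ⟨u, hu⟩ := hne
        rw [Finset.mem_filter] at hu
        obtain ⟨hu1, hu2, hu3⟩ := hu
        rw [hF] at hu1
        simp only [Finset.mem_filter, Nat.mem_divisors] at hu1
        have h7 : (((F N).filter (fun u => (u.divisors.card : ℝ) ≤ Z ∧
            ((N / u).divisors.card : ℝ) ≤ Z)).card : ℝ) ≤ (N.divisors.card : ℝ) := by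
          have : ((F N).filter (fun u => (u.divisors.card : ℝ) ≤ Z ∧
            ((N / u).divisors.card : ℝ) ≤ Z)).card ≤ N.divisors.card := by
            apply Finset.card_le_card
            exact (Finset.filter_subset _ _).trans (Finset.filter_subset _ _)
          exact_mod_cast this
        have h8 : (N.divisors.card : ℝ) ≤ (u.divisors.card : ℝ) * ((N / u).divisors.card : ℝ) := by
          have h9 := card_divisors_mul_le u (N / u)
          rw [Nat.mul_div_cancel' hu1.1.1] at h9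
          exact_mod_cast h9
        calc _ ≤ (N.divisors.card : ℝ) := h7
          _ ≤ (u.divisors.card : ℝ) * ((N / u).divisors.card : ℝ) := h8
          _ ≤ Z * Z := mul_le_mul hu2 hu3 (Nat.cast_nonneg _) hZpos.le
          _ = Z ^ 2 := by ring
      · rw [Finset.not_nonempty_iff_eq_empty] at hne
        rw [hne]
        simp only [Finset.card_empty, Nat.cast_zero]
        positivity
    have hbad : (((F N).filter (fun u => ¬ ((u.divisors.card : ℝ) ≤ Z ∧
        ((N / u).divisors.card : ℝ) ≤ Z))).card : ℝ) ≤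
        (∑ u ∈ F N, (u.divisors.card : ℝ)) / Z +
        (∑ u ∈ F N, ((N / u).divisors.card : ℝ)) / Z := by
      rw [Finset.card_eq_sum_ones, Nat.cast_sum, ← add_div, ← Finset.sum_add_distrib,
        Finset.sum_div]
      refine le_trans ?_ (Finset.sum_le_sum_of_subset_of_nonneg
        (Finset.filter_subset (fun u => ¬ ((u.divisors.card : ℝ) ≤ Z ∧
        ((N / u).divisors.card : ℝ) ≤ Z)) (F N)) (fun i _ _ => by positivity))
      apply Finset.sum_le_sum
      intro u hu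
      rw [Finset.mem_filter] at hu
      have hu2 := hu.2
      rw [not_and_or, not_le, not_le] at hu2
      rw [Nat.cast_one, le_div_iff₀ hZpos, one_mul]
      have e1 : (0 : ℝ) ≤ (u.divisors.card : ℝ) := Nat.cast_nonneg _
      have e2 : (0 : ℝ) ≤ ((N / u).divisors.card : ℝ) := Nat.cast_nonneg _
      rcases hu2 with h | h <;> linarith
    have hsplit := Finset.card_filter_add_card_filter_not (s := F N)
      (fun u => (u.divisors.card : ℝ) ≤ Z ∧ ((N / u).divisors.card : ℝ) ≤ Z)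
    have hsplit' : ((F N).card : ℝ) = (((F N).filter (fun u => (u.divisors.card : ℝ) ≤ Z ∧
        ((N / u).divisors.card : ℝ) ≤ Z)).card : ℝ) +
        (((F N).filter (fun u => ¬ ((u.divisors.card : ℝ) ≤ Z ∧
        ((N / u).divisors.card : ℝ) ≤ Z))).card : ℝ) := by
      exact_mod_cast hsplit.symm
    rw [hsplit']
    linarith
  -- the complementary divisors
  have hcomp : (∑ N ∈ E, ∑ u ∈ F N, ((N / u).divisors.card : ℝ)) ≤
      ∑ N ∈ E, ∑ u ∈ N.divisors.filter
        (fun u : ℕ => (1 / a2) * √t ≤ (u : ℝ) ∧ (u : ℝ) ≤ (2 / a1) * √t),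
        (u.divisors.card : ℝ) := by
    apply Finset.sum_le_sum
    intro N hN
    have hN0 := hNpos N hN
    have hinj : Set.InjOn (fun u => N / u) (F N : Set ℕ) := by
      intro x hx y hy hxy
      simp only [hF, Finset.coe_filter, Nat.mem_divisors, Set.mem_ofPred_eq] at hx hy
      have e1 := Nat.div_mul_cancel hx.1.1
      have e2 := Nat.div_mul_cancel hy.1.1
      simp only at hxy
      rw [hxy] at e1
      have e3 : 0 < N / y := by
        rcases Nat.eq_zero_or_pos (N / y) with h | h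
        · rw [h] at e2; omega
        · exact h
      exact Nat.eq_of_mul_eq_mul_left e3 (e1.trans e2.symm)
    rw [← Finset.sum_image (f := fun v : ℕ => (v.divisors.card : ℝ)) hinj]
    apply Finset.sum_le_sum_of_subset_of_nonneg
    · intro v hv
      rw [Finset.mem_image] at hv
      obtain ⟨u, hu, rfl⟩ := hv
      simp only [hF, Finset.mem_filter, Nat.mem_divisors] at hu
      obtain ⟨⟨hud, _⟩, hu1, hu2⟩ := hu
      have e1 : ((N / u : ℕ) : ℝ) * u = N := by exact_mod_cast Nat.div_mul_cancel hud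
      have hu0 : (0 : ℝ) < u := lt_of_lt_of_le (by positivity) hu1
      have hv0 : (0 : ℝ) ≤ ((N / u : ℕ) : ℝ) := Nat.cast_nonneg _
      obtain ⟨hN1, hN2⟩ := hE N hN
      rw [Finset.mem_filter, Nat.mem_divisors]
      refine ⟨⟨Nat.div_dvd_of_dvd hud, by omega⟩, ?_, ?_⟩
      · rw [div_mul_eq_mul_div, one_mul, div_le_iff₀ h2]
        have : √t * √t ≤ ((N / u : ℕ) : ℝ) * a2 * √t := by
          rw [hsq]
          calc t ≤ ((N / u : ℕ) : ℝ) * u := by rw [e1]; exact hN1.le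
            _ ≤ ((N / u : ℕ) : ℝ) * (a2 * √t) := mul_le_mul_of_nonneg_left hu2 hv0
            _ = _ := by ring
        exact le_of_mul_le_mul_right this hst
      · rw [div_mul_eq_mul_div, le_div_iff₀ h1]
        have : ((N / u : ℕ) : ℝ) * a1 * √t ≤ 2 * √t * √t := by
          calc ((N / u : ℕ) : ℝ) * a1 * √t = ((N / u : ℕ) : ℝ) * (a1 * √t) := by ring
            _ ≤ ((N / u : ℕ) : ℝ) * u := mul_le_mul_of_nonneg_left hu1 hv0
            _ = N := e1
            _ ≤ t + c * √t := hN2.le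
            _ ≤ √t * √t + √t * √t := by nlinarith
            _ = 2 * √t * √t := by ring
        exact le_of_mul_le_mul_right this hst
    · intro i _ _
      positivity
  have hA := sum_div_E (a2 := a2) hc h1 (by linarith : (1 : ℝ) ≤ t) E hE
  have hB := sum_div_E (a2 := 2 / a1) hc (by positivity : (0 : ℝ) < 1 / a2)
    (by linarith : (1 : ℝ) ≤ t) E hE
  have hA' := hA.trans (mul_le_mul_of_nonneg_left (ht1 t h5) (by positivity))
  have hB' := hB.trans (mul_le_mul_of_nonneg_left (ht2 t h6) (by positivity))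
  have hsum : (∑ N ∈ E, ((F N).card : ℝ)) ≤ (E.card : ℝ) * Z ^ 2 +
      (∑ N ∈ E, ∑ u ∈ F N, (u.divisors.card : ℝ)) / Z +
      (∑ N ∈ E, ∑ u ∈ F N, ((N / u).divisors.card : ℝ)) / Z := by
    refine (Finset.sum_le_sum hpt).trans (le_of_eq ?_)
    rw [Finset.sum_add_distrib, Finset.sum_add_distrib, Finset.sum_const, nsmul_eq_mul,
      Finset.sum_div, Finset.sum_div]
  have hfirst : (E.card : ℝ) * Z ^ 2 ≤ ε / 2 * √t := by
    calc (E.card : ℝ) * Z ^ 2 ≤ (ε / (2 * M ^ 2) * √t / L ^ 2) * Z ^ 2 :=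
          mul_le_mul_of_nonneg_right hcard (by positivity)
      _ = ε / 2 * √t := by
          rw [hZ]
          field_simp
  have hsecond : (∑ N ∈ E, ∑ u ∈ F N, (u.divisors.card : ℝ)) / Z +
      (∑ N ∈ E, ∑ u ∈ F N, ((N / u).divisors.card : ℝ)) / Z ≤ ε / 2 * √t := by
    rw [← add_div, div_le_iff₀ hZpos]
    have e1 : ε / 2 * √t * Z = K * √t * L := by
      rw [hZ, hM]
      field_simp
    rw [e1]
    have e2 : K * √t * L = (c / a1 + 1) * (a2 * √t * L) +
        (c / (1 / a2) + 1) * (2 / a1 * √t * L) := by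
      rw [hK]; ring
    rw [e2]
    exact add_le_add hA' (hcomp.trans hB')
  have hgoal : ((∑ N ∈ E, (F N).card : ℕ) : ℝ) = ∑ N ∈ E, ((F N).card : ℝ) := by
    push_cast
    rfl
  rw [hgoal]
  linarith

/-- The version with `√t / (log t)³`. -/
theorem touch_pairs {c a1 a2 ε : ℝ} (hc : 0 < c) (h1 : 0 < a1) (h2 : 0 < a2) (hε : 0 < ε) :
    ∃ t0 : ℝ, ∀ t : ℝ, t0 ≤ t → ∀ E : Finset ℕ,
      (∀ N ∈ E, t < (N : ℝ) ∧ (N : ℝ) < t + c * √t) →
      (E.card : ℝ) ≤ √t / (Real.log t) ^ 3 →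
      ((∑ N ∈ E, (N.divisors.filter
        (fun u : ℕ => a1 * √t ≤ (u : ℝ) ∧ (u : ℝ) ≤ a2 * √t)).card : ℕ) : ℝ) ≤ ε * √t := by
  obtain ⟨η, hη, t0, h0⟩ := touch_pairs' hc h1 h2 hε
  refine ⟨max (max 3 t0) (Real.exp (1 / η)), fun t ht E hE hcard => ?_⟩
  have h3 : 3 ≤ t := ((le_max_left _ _).trans (le_max_left _ _)).trans ht
  have h4 : t0 ≤ t := ((le_max_right _ _).trans (le_max_left _ _)).trans ht
  have h5 : Real.exp (1 / η) ≤ t := (le_max_right _ _).trans ht
  apply h0 t h4 E hE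
  refine hcard.trans ?_
  have hL : 0 < Real.log t := Real.log_pos (by linarith)
  have hL2 : 1 / η ≤ Real.log t := (Real.le_log_iff_exp_le (by linarith)).2 h5
  rw [div_le_div_iff₀ (by positivity) (by positivity)]
  have h6 : 1 ≤ η * Real.log t := by
    rw [div_le_iff₀ hη] at hL2
    linarith
  have hst : 0 ≤ √t := Real.sqrt_nonneg t
  calc √t * Real.log t ^ 2 = 1 * (√t * Real.log t ^ 2) := by ring
    _ ≤ (η * Real.log t) * (√t * Real.log t ^ 2) := mul_le_mul_of_nonneg_right h6 (by positivity)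
    _ = η * √t * Real.log t ^ 3 := by ring

end Pool.Agent.MRZ
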