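import Pool.Agent.Lib.PO69.E5
import Pool.Agent.Lib.MRZ.Stat

/-! TANK MR, lift to integers coprime to `P`: assembly of the linking statement `LinkZ`. helper4. -/

set_option autoImplicit false

namespace Pool.Agent.MRZ

open Finset Pool.Agent.MRL Pool.Agent.PO69

/-- the output of `SecondMoment` for an ordered pair of distinct primes -/
def SMoutZ (P : ℕ) (κ δ f : ℝ) (b1 b2 : ℕ) (Q : ℕ) (bad : Finset ℕ) : Prop :=
  0 < Q ∧ (bad.card : ℝ) ≤ δ * Q ∧ ∀ M : ℕ, M % Q ∉ bad → ∃ D w w' d : ℕ, 0 < D ∧ 0 < w ∧ 0 < w' ∧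
    0 < d ∧ P ∣ D ∧ ((P ∣ w ∧ w'.Coprime P) ∨ (P ∣ w' ∧ w.Coprime P)) ∧ d ∣ b1 * M + w' * D ∧ d ∣ b2 * M + w * D ∧
    ((b2 * w' + d = b1 * w ∧
        f + 0.3 * κ < (w' : ℝ) * D / b1 ∧ (w' : ℝ) * D / b1 < f + 0.4 * κ ∧
        f + 0.8 * κ < (w : ℝ) * D / b2 ∧ (w : ℝ) * D / b2 < f + 0.9 * κ) ∨
      (b1 * w + d = b2 * w' ∧
        f + 0.3 * κ < (w : ℝ) * D / b2 ∧ (w : ℝ) * D / b2 < f + 0.4 * κ ∧
        f + 0.8 * κ < (w' : ℝ) * D / b1 ∧ (w' : ℝ) * D / b1 < f + 0.9 * κ))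

theorem sm_symZ (h2 : SecondMomentZ) (P : ℕ) (hP : 1 ≤ P) (κ δ : ℝ) (hκ : 0 < κ) (hκ1 : κ ≤ 1 / 1000) (hδ : 0 < δ) :
    ∃ b0 : ℕ, ∀ b1 b2 : ℕ, b1.Prime → b2.Prime → b0 ≤ b1 → b0 ≤ b2 → b1 ≠ b2 →
      1 + Real.log b1 ≤ √(b2 : ℝ) → 1 + Real.log b2 ≤ √(b1 : ℝ) → ∀ f : ℝ, 0 ≤ f → f ≤ 1 / 200 →
      ∃ Q : ℕ, ∃ bad : Finset ℕ, SMoutZ P κ δ f b1 b2 Q bad := by
  obtain ⟨b0, hb0⟩ := h2 P κ δ hP hκ hκ1 hδ
  refine ⟨b0, fun b1 b2 hp1 hp2 hb1 hb2 hne hl1 hl2 f hf hf' => ?_⟩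
  rcases Nat.lt_or_gt_of_ne hne with hlt | hlt
  · obtain ⟨Q, hQ, bad, _, hbad, h⟩ := hb0 b1 b2 hp1 hp2 hb1 hlt hl2 f hf hf'
    refine ⟨Q, bad, hQ, hbad, fun M hM => ?_⟩
    obtain ⟨D, s, L, d, hD, hs, hL, hd, i1, i2, i3, e1, e2, e3, w1, w2, w3, w4⟩ := h M hM
    exact ⟨D, L, s, d, hD, hL, hs, hd, i1, Or.inl ⟨i2, i3⟩, e2, e3, Or.inl ⟨e1, w1, w2, w3, w4⟩⟩
  · obtain ⟨Q, hQ, bad, _, hbad, h⟩ := hb0 b2 b1 hp2 hp1 hb2 hlt hl1 f hf hf'
    refine ⟨Q, bad, hQ, hbad, fun M hM => ?_⟩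
    obtain ⟨D, s, L, d, hD, hs, hL, hd, i1, i2, i3, e1, e2, e3, w1, w2, w3, w4⟩ := h M hM
    exact ⟨D, s, L, d, hD, hs, hL, hd, i1, Or.inr ⟨i2, i3⟩, e3, e2, Or.inr ⟨e1, w1, w2, w3, w4⟩⟩

/-- the bound for one pair of primes and one cell -/
theorem pair_boundZ (h1 : ChainZ) (h3 : Equi) (P g : ℕ) (hP : 1 ≤ P) (hg : 1 ≤ g) (c R : ℝ)
    (hc : 0 < c) (hc1 : c ≤ 1) (hRg : 1000 * (g : ℝ) ≤ c * R) (b1 b2 : ℕ) (hp1 : b1.Prime) (hp2 : b2.Prime) (hne : b1 ≠ b2) (f δ : ℝ)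
    (hf : 0 ≤ f) (hf' : f ≤ 1 / 200) (Q : ℕ) (bad : Finset ℕ)
    (hSM : SMoutZ P (c / R) δ f b1 b2 Q bad) (ε1 : ℝ) (hε1 : 0 < ε1) (hδ1 : δ ≤ 1) :
    ∃ T0 : ℝ, ∀ t : ℝ, T0 ≤ t →
    ConstOn P t (c * √t) →
    ∀ s : Finset ℕ, (∀ n ∈ s, R * √t < n ∧ (n : ℝ) ≤ 1.01 * R * √t ∧
      n.Coprime P ∧ (n + g).Coprime P ∧ ⌊t / n⌋₊.Coprime P ∧
      Int.fract (t / n) < c ^ 2 / (200 * g) ∧ lam n ≠ lam (n + g) ∧ b1 ∣ n ∧ b2 ∣ n + g ∧
      f ≤ Int.fract (t / n) ∧ Int.fract (t / n) ≤ f + 0.05 * (c / R)) →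
    (s.card : ℝ) ≤ (δ * (0.05 * (c / R) * (0.01 * R)) / (b1 * b2) + ε1) * √t := by
  have hg' : (1 : ℝ) ≤ g := by exact_mod_cast hg
  have hR : 1000 ≤ c * R := by linarith
  have hR0 : 0 < R := by
    by_contra hneg
    have : c * R ≤ 0 := mul_nonpos_of_nonneg_of_nonpos hc.le (not_lt.1 hneg)
    linarith
  have hκ0 : 0 < c / R := by positivity
  have hκ1 : c / R ≤ 1 / 1000 := by
    rw [div_le_div_iff₀ hR0 (by norm_num)]
    nlinarith
  obtain ⟨hQ, hbad, hgood⟩ := hSM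
  have hQ' : (0 : ℝ) < Q := by exact_mod_cast hQ
  have hb1 : (0 : ℝ) < b1 := by exact_mod_cast hp1.pos
  have hb2 : (0 : ℝ) < b2 := by exact_mod_cast hp2.pos
  have hco : Nat.Coprime b1 b2 := (Nat.coprime_primes hp1 hp2).2 hne
  obtain ⟨r, hr1, hr2⟩ := Nat.chineseRemainder hco 0 (b2 * g - g)
  obtain ⟨Tc, hTc⟩ := h1 P g c R hP hg hc hc1 hRg
  have hE := fun M0 : ℕ => h3 (b1 * b2) r Q M0 f (f + 0.05 * (c / R)) R (1.01 * R) (ε1 / Q)
    (Nat.mul_pos hp1.pos hp2.pos) hQ hf (by linarith) (by norm_num at hκ1 ⊢; linarith) hR0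
    (by linarith) (by positivity)
  choose T hT using hE
  refine ⟨max 1 (max Tc (∑ M0 ∈ bad, |T M0|)), fun t ht hyp s hs => ?_⟩
  have ht1 : 1 ≤ t := (le_max_left _ _).trans ht
  have ht2 : Tc ≤ t := ((le_max_left _ _).trans (le_max_right _ _)).trans ht
  have ht3 : ∑ M0 ∈ bad, |T M0| ≤ t := ((le_max_right _ _).trans (le_max_right _ _)).trans ht
  have ht0 : 0 < t := by linarith
  have hsq : 0 < √t := Real.sqrt_pos.2 ht0
  have hRt : 0 < R * √t := by positivity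
  -- all `M` are bad
  have hM : ∀ n ∈ s, ⌊t / n⌋₊ % Q ∈ bad := by
    intro n hn
    by_contra hnb
    obtain ⟨g1, g2, gP1, gP2, gP3, g3, g4, g5, g6, g7, g8⟩ := hs n hn
    obtain ⟨D, w, w', d, hD, hw, hw', hd, i1, i2, e1, e2, hwin⟩ := hgood _ hnb
    apply g4
    have hn0 : (0 : ℝ) < n := by linarith
    have h5 : (0 : ℝ) ≤ t / n := by positivity
    have h6 : ((⌊t / (n : ℝ)⌋₊ : ℕ) : ℝ) = ((⌊t / (n : ℝ)⌋ : ℤ) : ℝ) :=
      natCast_floor_eq_intCast_floor h5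
    have hfr : t / n - (⌊t / (n : ℝ)⌋₊ : ℕ) = Int.fract (t / n) := by
      rw [h6]; exact Int.self_sub_floor _
    refine hTc t ht2 hyp n b1 b2 D w w' _ d hp1 hp2 g5 g6 gP1 gP2 gP3 g1 g2 (Nat.floor_le h5) ?_
      hD hw hw' hd i1 i2 e1 e2 ?_
    · linarith
    · rw [hfr]
      rcases hwin with ⟨a1, a2, a3, a4, a5⟩ | ⟨a1, a2, a3, a4, a5⟩
      · exact Or.inl ⟨a1, by linarith, by linarith, by linarith, by linarith⟩
      · exact Or.inr ⟨a1, by linarith, by linarith, by linarith, by linarith⟩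
  have hcard : (s.card : ℝ) = ∑ M0 ∈ bad, (((s.filter fun n : ℕ => ⌊t / n⌋₊ % Q = M0).card : ℕ) : ℝ) := by
    rw [← Nat.cast_sum]
    congr 1
    exact card_eq_sum_card_fiberwise hM
  have heach : ∀ M0 ∈ bad, (((s.filter fun n : ℕ => ⌊t / n⌋₊ % Q = M0).card : ℕ) : ℝ) ≤
      (0.05 * (c / R) * (0.01 * R) / (b1 * b2 * Q) + ε1 / Q) * √t := by
    intro M0 hM0
    have hT0 : T M0 ≤ t := by
      have : |T M0| ≤ ∑ M0 ∈ bad, |T M0| :=
        single_le_sum (f := fun M0 => |T M0|) (fun _ _ => abs_nonneg _) hM0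
      linarith [le_abs_self (T M0)]
    have := hT M0 t hT0 (s.filter fun n : ℕ => ⌊t / n⌋₊ % Q = M0) (by
      intro n hn
      rw [mem_filter] at hn
      obtain ⟨g1, g2, gP1, gP2, gP3, g3, g4, g5, g6, g7, g8⟩ := hs n hn.1
      refine ⟨g1.le, g2, ?_, by rw [← hn.2, Nat.mod_mod], g7, g8⟩
      have k1 : n ≡ r [MOD b1] := ((Nat.modEq_zero_iff_dvd.2 g5).trans hr1.symm)
      have k2 : n ≡ r [MOD b2] := by
        refine Nat.ModEq.trans ?_ hr2.symm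
        have : n + g ≡ b2 * g - g + g [MOD b2] := by
          rw [Nat.sub_add_cancel (Nat.le_mul_of_pos_left g hp2.pos)]
          exact (Nat.modEq_zero_iff_dvd.2 g6).trans (Nat.modEq_zero_iff_dvd.2 ⟨g, rfl⟩).symm
        exact Nat.ModEq.add_right_cancel' g this
      exact (Nat.modEq_and_modEq_iff_modEq_mul hco).1 ⟨k1, k2⟩)
    refine this.trans (le_of_eq ?_)
    push_cast
    have e1 : f + 0.05 * (c / R) - f = 0.05 * (c / R) := by ring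
    have e2 : 1.01 * R - R = 0.01 * R := by ring
    rw [e1, e2]
  rw [hcard]
  refine (sum_le_sum heach).trans ?_
  rw [sum_const, nsmul_eq_mul]
  have hA : 0 ≤ (0.05 * (c / R) * (0.01 * R) / (b1 * b2 * Q) + ε1 / Q) * √t := by positivity
  refine (mul_le_mul_of_nonneg_right hbad hA).trans ?_
  have e1 : δ * Q * ((0.05 * (c / R) * (0.01 * R) / (b1 * b2 * Q) + ε1 / Q) * √t) =
      (δ * (0.05 * (c / R) * (0.01 * R)) / (b1 * b2) + δ * ε1) * √t := by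
    field_simp
  rw [e1]
  apply mul_le_mul_of_nonneg_right _ hsq.le
  nlinarith

theorem linkZ (h1 : ChainZ) (h2 : SecondMomentZ) (h3 : Equi) (h4 : SieveDensity) (h5 : PrimeSet) :
    LinkZ := by
  intro P0 g c R eps hP0 hg hc hc1 hRg he
  have hg' : (1 : ℝ) ≤ g := by exact_mod_cast hg
  have hR : 1000 ≤ c * R := by linarith
  have hR0 : 0 < R := by
    by_contra hneg
    have : c * R ≤ 0 := mul_nonpos_of_nonneg_of_nonpos hc.le (not_lt.1 hneg)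
    linarith
  set κ : ℝ := c / R with hκ
  have hκ0 : 0 < κ := by positivity
  have hκ1 : κ ≤ 1 / 1000 := by
    rw [hκ, div_le_div_iff₀ hR0 (by norm_num)]
    nlinarith
  set S : ℝ := max 1 (Real.log (0.16 * R / eps)) with hS
  have hS1 : 1 ≤ S := le_max_left _ _
  have hSe : Real.exp (-S) ≤ eps / (0.16 * R) := by
    have h6 : Real.log (0.16 * R / eps) ≤ S := le_max_right _ _
    have h7 : 0.16 * R / eps ≤ Real.exp S := by
      rw [← Real.log_le_iff_le_exp (by positivity)]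
      exact h6
    rw [Real.exp_neg, ← one_div, div_le_div_iff₀ (Real.exp_pos _) (by positivity)]
    rw [div_le_iff₀ he] at h7
    linarith
  set δ : ℝ := min 1 (eps / (0.08 * R * (S + 1) ^ 2)) with hδ
  have hδ0 : 0 < δ := lt_min one_pos (by positivity)
  have hδ1 : δ ≤ 1 := min_le_left _ _
  have hδ2 : δ * (0.01 * R * (S + 1) ^ 2) ≤ eps / 8 := by
    have h6 : δ ≤ eps / (0.08 * R * (S + 1) ^ 2) := min_le_right _ _
    calc δ * (0.01 * R * (S + 1) ^ 2) ≤ eps / (0.08 * R * (S + 1) ^ 2) * (0.01 * R * (S + 1) ^ 2) := by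
          gcongr
      _ = eps / 8 := by
          field_simp
          norm_num
  obtain ⟨b0, hb0⟩ := sm_symZ h2 P0 hP0 κ δ hκ0 hκ1 hδ0
  obtain ⟨P, hP, hPS, hPS', hPlog⟩ := h5 S (by linarith) (max b0 (g + 1))
  have hPp : ∀ p ∈ P, p.Prime := fun p hp => (hP p hp).1
  obtain ⟨C0, hC0⟩ := h4 P hPp 0
  obtain ⟨C1, hC1⟩ := h4 P hPp g
  set J : ℕ := ⌊c ^ 2 / (200 * g) / (0.05 * κ)⌋₊ with hJ
  have h05 : 0 < 0.05 * κ := by positivity
  have hJ' : (J : ℝ) * (0.05 * κ) ≤ c ^ 2 / (200 * g) := by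
    have : (J : ℝ) ≤ c ^ 2 / (200 * g) / (0.05 * κ) := Nat.floor_le (by positivity)
    rwa [le_div_iff₀ h05] at this
  have hc2 : c ^ 2 ≤ 1 := by nlinarith
  have hc3 : c ^ 2 / (200 * g) ≤ 1 / 200 := by
    rw [div_le_div_iff₀ (by positivity) (by norm_num)]
    nlinarith
  set I : Finset (ℕ × ℕ × ℕ) := (P ×ˢ P ×ˢ range (J + 1)) with hI
  set I' : Finset (ℕ × ℕ × ℕ) := I.filter (fun i => i.1 ≠ i.2.1) with hI'
  set ε1 : ℝ := eps / (8 * (I'.card + 1)) with hε1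
  have hε10 : 0 < ε1 := by positivity
  have hpair : ∀ i : ℕ × ℕ × ℕ, ∃ T0 : ℝ, i ∈ I' → ∀ t : ℝ, T0 ≤ t →
    ConstOn P0 t (c * √t) →
    ∀ s : Finset ℕ, (∀ n ∈ s, R * √t < n ∧ (n : ℝ) ≤ 1.01 * R * √t ∧
      n.Coprime P0 ∧ (n + g).Coprime P0 ∧ ⌊t / n⌋₊.Coprime P0 ∧
      Int.fract (t / n) < c ^ 2 / (200 * g) ∧ lam n ≠ lam (n + g) ∧ i.1 ∣ n ∧ i.2.1 ∣ n + g ∧
      (i.2.2 : ℝ) * (0.05 * κ) ≤ Int.fract (t / n) ∧
        Int.fract (t / n) ≤ (i.2.2 : ℝ) * (0.05 * κ) + 0.05 * κ) →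
    (s.card : ℝ) ≤ (δ * (0.05 * κ * (0.01 * R)) / (i.1 * i.2.1) + ε1) * √t := by
    intro i
    by_cases hi : i ∈ I'
    · obtain ⟨b1, b2, j⟩ := i
      simp only [hI', hI, mem_filter, mem_product, mem_range] at hi
      obtain ⟨⟨hb1, hb2, hj⟩, hne⟩ := hi
      have hjf : (j : ℝ) * (0.05 * κ) ≤ c ^ 2 / (200 * g) := by
        have : (j : ℝ) ≤ J := by exact_mod_cast Nat.lt_succ_iff.1 hj
        exact (mul_le_mul_of_nonneg_right this h05.le).trans hJ'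
      have hjf0 : 0 ≤ (j : ℝ) * (0.05 * κ) := by positivity
      obtain ⟨Q, bad, hSM⟩ := hb0 b1 b2 (hPp b1 hb1) (hPp b2 hb2) ((le_max_left _ _).trans (hP b1 hb1).2)
        ((le_max_left _ _).trans (hP b2 hb2).2) hne
        (hPlog b1 hb1 b2 hb2) (hPlog b2 hb2 b1 hb1) ((j : ℝ) * (0.05 * κ)) hjf0
        (by linarith)
      obtain ⟨T0, hT0⟩ := pair_boundZ h1 h3 P0 g hP0 hg c R hc hc1 hRg b1 b2 (hPp b1 hb1) (hPp b2 hb2) hne
        ((j : ℝ) * (0.05 * κ)) δ hjf0 (by linarith) Q bad hSM ε1 hε10 hδ1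
      exact ⟨T0, fun _ => hT0⟩
    · exact ⟨0, fun h => absurd h hi⟩
  choose T hT using hpair
  set CC : ℝ := |C0| + |C1| with hCC
  refine ⟨max 1 (max (∑ i ∈ I', |T i|) ((4 * CC / eps) ^ 2)), fun t ht hyp s hs => ?_⟩
  have ht1 : 1 ≤ t := (le_max_left _ _).trans ht
  have ht2 : ∑ i ∈ I', |T i| ≤ t := ((le_max_left _ _).trans (le_max_right _ _)).trans ht
  have ht3 : (4 * CC / eps) ^ 2 ≤ t := ((le_max_right _ _).trans (le_max_right _ _)).trans ht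
  have ht0 : 0 < t := by linarith
  have hsq : 0 < √t := Real.sqrt_pos.2 ht0
  have hRt : 0 < R * √t := by positivity
  have hCCt : CC ≤ eps / 4 * √t := by
    have : 4 * CC / eps ≤ √t := Real.le_sqrt_of_sq_le ht3
    rw [div_le_iff₀ he] at this
    linarith
  classical
  set A1 : Finset ℕ := s.filter (fun n => ∀ p ∈ P, ¬ p ∣ n + 0) with hA1
  set A2 : Finset ℕ := s.filter (fun n => ∀ p ∈ P, ¬ p ∣ n + g) with hA2
  set E : ℕ × ℕ × ℕ → Finset ℕ := fun i => s.filter (fun n => i.1 ∣ n ∧ i.2.1 ∣ n + g ∧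
      (i.2.2 : ℝ) * (0.05 * κ) ≤ Int.fract (t / n) ∧
        Int.fract (t / n) ≤ (i.2.2 : ℝ) * (0.05 * κ) + 0.05 * κ) with hE
  have hcover : s ⊆ (A1 ∪ A2) ∪ I'.biUnion E := by
    intro n hn
    obtain ⟨g1, g2, gP1, gP2, gP3, g3, g4⟩ := hs n hn
    rw [mem_union, mem_union]
    by_cases k1 : ∀ p ∈ P, ¬ p ∣ n + 0
    · exact Or.inl (Or.inl (mem_filter.2 ⟨hn, k1⟩))
    by_cases k2 : ∀ p ∈ P, ¬ p ∣ n + g
    · exact Or.inl (Or.inr (mem_filter.2 ⟨hn, k2⟩))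
    right
    push Not at k1 k2
    obtain ⟨b1, hb1, hd1⟩ := k1
    obtain ⟨b2, hb2, hd2⟩ := k2
    rw [add_zero] at hd1
    have hne : b1 ≠ b2 := by
      rintro rfl
      have h6 : b1 ∣ g := (Nat.dvd_add_right hd1).1 hd2
      have h7 : g + 1 ≤ b1 := (le_max_right _ _).trans (hP b1 hb1).2
      have h8 := Nat.le_of_dvd (by omega) h6
      omega
    have hfr0 : 0 ≤ Int.fract (t / (n : ℝ)) := Int.fract_nonneg _
    rw [mem_biUnion]
    refine ⟨(b1, b2, ⌊Int.fract (t / (n : ℝ)) / (0.05 * κ)⌋₊), ?_, ?_⟩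
    · simp only [hI', hI, mem_filter, mem_product, mem_range]
      refine ⟨⟨hb1, hb2, ?_⟩, hne⟩
      apply Nat.lt_succ_of_le
      apply Nat.floor_le_floor
      gcongr
    · simp only [hE, mem_filter]
      have k3 : ((⌊Int.fract (t / (n : ℝ)) / (0.05 * κ)⌋₊ : ℕ) : ℝ) ≤
          Int.fract (t / (n : ℝ)) / (0.05 * κ) := Nat.floor_le (by positivity)
      have k4 := Nat.lt_floor_add_one (Int.fract (t / (n : ℝ)) / (0.05 * κ))
      rw [le_div_iff₀ h05] at k3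
      rw [div_lt_iff₀ h05] at k4
      exact ⟨hn, hd1, hd2, k3, by linarith⟩
  have hcs : (s.card : ℝ) ≤ (A1.card : ℝ) + A2.card + ∑ i ∈ I', ((E i).card : ℝ) := by
    have k1 := (card_le_card hcover).trans (card_union_le _ _)
    have k2 := card_union_le A1 A2
    have k3 : (I'.biUnion E).card ≤ ∑ i ∈ I', (E i).card := card_biUnion_le
    have k4 : s.card ≤ A1.card + A2.card + ∑ i ∈ I', (E i).card := by omega
    calc (s.card : ℝ) ≤ ((A1.card + A2.card + ∑ i ∈ I', (E i).card : ℕ) : ℝ) := by exact_mod_cast k4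
      _ = _ := by push_cast; ring
  have hprod : ∏ p ∈ P, (1 - 1 / (p : ℝ)) ≤ eps / (0.16 * R) := by
    refine (prod_one_sub_le P hPp).trans (le_trans ?_ hSe)
    apply Real.exp_le_exp.2
    linarith
  have hYX : 1.01 * R * √t - R * √t = 0.01 * R * √t := by ring
  have hApr : (1.01 * R * √t - R * √t) * ∏ p ∈ P, (1 - 1 / (p : ℝ)) ≤ eps / 16 * √t := by
    rw [hYX]
    calc 0.01 * R * √t * ∏ p ∈ P, (1 - 1 / (p : ℝ)) ≤ 0.01 * R * √t * (eps / (0.16 * R)) := by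
          gcongr
      _ = eps / 16 * √t := by
          field_simp
          norm_num
  have hA1c : (A1.card : ℝ) ≤ eps / 16 * √t + |C0| := by
    have := hC0 (R * √t) (1.01 * R * √t) hRt.le (by linarith) A1 (by
      intro n hn
      rw [hA1, mem_filter] at hn
      obtain ⟨g1, g2, -⟩ := hs n hn.1
      exact ⟨g1.le, g2, hn.2⟩)
    linarith [le_abs_self C0]
  have hA2c : (A2.card : ℝ) ≤ eps / 16 * √t + |C1| := by
    have := hC1 (R * √t) (1.01 * R * √t) hRt.le (by linarith) A2 (by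
      intro n hn
      rw [hA2, mem_filter] at hn
      obtain ⟨g1, g2, -⟩ := hs n hn.1
      exact ⟨g1.le, g2, hn.2⟩)
    linarith [le_abs_self C1]
  have hEc : ∀ i ∈ I', ((E i).card : ℝ) ≤
      (δ * (0.05 * κ * (0.01 * R)) / (i.1 * i.2.1) + ε1) * √t := by
    intro i hi
    have hTi : T i ≤ t := by
      have : |T i| ≤ ∑ i ∈ I', |T i| := single_le_sum (f := fun i => |T i|)
        (fun _ _ => abs_nonneg _) hi
      linarith [le_abs_self (T i)]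
    refine hT i hi t hTi hyp (E i) ?_
    intro n hn
    simp only [hE, mem_filter] at hn
    obtain ⟨hn, q1, q2, q3, q4⟩ := hn
    obtain ⟨g1, g2, gP1, gP2, gP3, g3, g4⟩ := hs n hn
    exact ⟨g1, g2, gP1, gP2, gP3, g3, g4, q1, q2, q3, q4⟩
  have hEs : ∑ i ∈ I', ((E i).card : ℝ) ≤ eps / 4 * √t := by
    refine (sum_le_sum hEc).trans ?_
    rw [← sum_mul]
    apply mul_le_mul_of_nonneg_right _ hsq.le
    rw [sum_add_distrib, sum_const, nsmul_eq_mul]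
    have k1 : (I'.card : ℝ) * ε1 ≤ eps / 8 := by
      rw [hε1]
      calc (I'.card : ℝ) * (eps / (8 * (I'.card + 1))) ≤ (I'.card + 1) * (eps / (8 * (I'.card + 1))) := by
            gcongr
            linarith
        _ = eps / 8 := by field_simp
    have k2 : ∑ i ∈ I', δ * (0.05 * κ * (0.01 * R)) / ((i.1 : ℝ) * i.2.1) ≤
        ∑ i ∈ I, δ * (0.05 * κ * (0.01 * R)) / ((i.1 : ℝ) * i.2.1) := by
      apply sum_le_sum_of_subset_of_nonneg (filter_subset _ _)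
      intro i _ _
      positivity
    have k3 : ∑ i ∈ I, δ * (0.05 * κ * (0.01 * R)) / ((i.1 : ℝ) * i.2.1) =
        δ * (0.01 * R) * (((J : ℝ) + 1) * (0.05 * κ)) * (∑ p ∈ P, 1 / (p : ℝ)) ^ 2 := by
      rw [hI, sum_product, sq, sum_mul_sum, mul_sum]
      apply sum_congr rfl
      intro a _
      rw [sum_product, mul_sum]
      apply sum_congr rfl
      intro b _
      simp only [sum_const, card_range, nsmul_eq_mul]
      push_cast
      field_simp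
    have k4 : ((J : ℝ) + 1) * (0.05 * κ) ≤ 1 := by
      have : ((J : ℝ) + 1) * (0.05 * κ) = J * (0.05 * κ) + 0.05 * κ := by ring
      rw [this]
      norm_num at hκ1 ⊢
      linarith
    have hsum0 : 0 ≤ ∑ p ∈ P, 1 / (p : ℝ) := by linarith
    have k5 : δ * (0.01 * R) * (((J : ℝ) + 1) * (0.05 * κ)) * (∑ p ∈ P, 1 / (p : ℝ)) ^ 2 ≤
        δ * (0.01 * R) * 1 * (S + 1) ^ 2 := by
      gcongr
    have k6 : δ * (0.01 * R) * 1 * (S + 1) ^ 2 = δ * (0.01 * R * (S + 1) ^ 2) := by ring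
    linarith
  have e9 : 0 ≤ eps * √t := by positivity
  have : |C0| + |C1| ≤ eps / 4 * √t := hCCt
  linarith

end Pool.Agent.MRZ
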