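import Pool.Agent.Lib.PO69.Assemble
import Pool.Agent.Lib.MRZ.E1
import Pool.Agent.Lib.MRZ.E1E
import Pool.Agent.Lib.MRZ.Link
import Pool.Agent.Lib.MRZ.LinkR
import Pool.Agent.Lib.MRZ.NRZ
import Pool.Agent.Lib.MRZ.FinalR
import Pool.Agent.Lib.MRZ.Typ
import Pool.Agent.Lib.MRZ.SMZF
import Pool.Agent.Lib.MRZ.Touch75
import Pool.Agent.Lib.MRQ.FinalQ

/-! TANK MR: assembly of the versions with a modulus `P`. (helper69) -/

set_option autoImplicit false

namespace Pool.Agent.MRZ

open Pool.Agent.MRL Pool.Agent.PO69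

theorem noRunsZ_all : NoRunsZ := noRunsZ mrd_all

theorem finalZ_of (hSM : SecondMomentZ) : FinalZ :=
  finalZ (linkZ chainZ hSM equi sieve_density (prime_set mertensLower)) noRunsZ_all

theorem finalR_of (hSM : SecondMomentZ) : FinalR :=
  finalR (linkR chainE hSM equi sieve_density (prime_set mertensLower)) noRunsZ_all

/-- at least `√t / (log t)^(7/5)` integers coprime to `P` of each parity in `(t, t + c √t)`. -/
theorem finalQ_of (hSM : SecondMomentZ) :
    Pool.Agent.MRQ.FinalQ (fun t => (Real.log t) ^ (7 / 5 : ℝ)) :=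
  Pool.Agent.MRQ.finalQ (finalR_of hSM) fun _ _ _ _ hc h1 h2 hε =>
    touch_pairs75 typ hc h1 h2 hε

theorem finalZ_all : FinalZ := finalZ_of secondMomentZ

theorem finalR_all : FinalR := finalR_of secondMomentZ

theorem finalQ_all : Pool.Agent.MRQ.FinalQ (fun t => (Real.log t) ^ (7 / 5 : ℝ)) :=
  finalQ_of secondMomentZ

end Pool.Agent.MRZ
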