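import Pool.Agent.Lib.MRZ.Stat

/-!
# TANK MR: the end of the argument for integers coprime to `P` (helper69)

`core`: if, for one large `t` and all gaps `g ≤ P`, few `n` near `R √t` violate `lam n = lam (n + g)`,
then this contradicts `NoRunsZ`.  `finalZ`: `LinkZ` and `NoRunsZ` give `FinalZ`.
-/

set_option autoImplicit false

namespace Pool.Agent.MRZ

open Finset Pool.Agent.MRL

/-- A change of `lam` between two integers coprime to `P` gives one between two such integers at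
distance at most `P`. -/
theorem exists_change {P : ℕ} (hP : 1 ≤ P) : ∀ k a : ℕ, a.Coprime P → (a + k).Coprime P →
    lam a ≠ lam (a + k) → ∃ n g : ℕ, a ≤ n ∧ 1 ≤ g ∧ g ≤ P ∧ n + g ≤ a + k ∧ n.Coprime P ∧
      (n + g).Coprime P ∧ lam n ≠ lam (n + g) := by
  intro k
  induction k using Nat.strong_induction_on with
  | _ k ih =>
    intro a ha hak hne
    have hk : 1 ≤ k := by
      rcases Nat.eq_zero_or_pos k with h | h
      · subst h; exact absurd rfl hne
      · exact h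
    by_cases hkP : k ≤ P
    · exact ⟨a, k, le_rfl, hk, hkP, le_rfl, ha, hak, hne⟩
    · push Not at hkP
      have haP : (a + P).Coprime P := by simpa using ha
      by_cases h : lam a = lam (a + P)
      · obtain ⟨n, g, h1, h2, h3, h4, h5⟩ := ih (k - P) (by omega) (a + P) haP
          (by rw [show a + P + (k - P) = a + k by omega]; exact hak)
          (by rw [show a + P + (k - P) = a + k by omega, ← h]; exact hne)
        exact ⟨n, g, by omega, h2, h3, by omega, h5⟩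
      · exact ⟨a, P, le_rfl, hP, le_rfl, by omega, ha, haP, h⟩

/-- The runs. -/
noncomputable def runs (P h : ℕ) (X : ℝ) : Finset ℕ :=
  (Icc ⌈X⌉₊ ⌊2 * X⌋₊).filter (fun x => ∀ i < h, ∀ j < h, (x + i).Coprime P →
    (x + j).Coprime P → lam (x + i) = lam (x + j))

/-- The counting step, for one `t = S²`. -/
theorem count_step {P h : ℕ} {R S κ : ℝ} (hP : 1 ≤ P) (hκ0 : 0 < κ) (hκ1 : κ < 1)
    (hh : 1 ≤ h) (hR : 0 < R) (hRh : 400 * (h : ℝ) ≤ κ * R ^ 2)
    (hS : 0 < S) (hS1 : 4000 * (P : ℝ) * R ≤ S)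
    (hMR : ((runs P h (R * S)).card : ℝ) ≤ κ * R * S / (1000 * P))
    (hbad : ∀ g : ℕ, 1 ≤ g → g ≤ P → ∀ s : Finset ℕ, (∀ n ∈ s, R * S < n ∧ (n : ℝ) ≤ 1.01 * R * S ∧
      n.Coprime P ∧ (n + g).Coprime P ∧ ⌊S ^ 2 / (n : ℝ)⌋₊.Coprime P ∧
      Int.fract (S ^ 2 / n) < κ ∧ lam n ≠ lam (n + g)) →
      (s.card : ℝ) ≤ κ * R * S / (2000 * h * P ^ 2)) :
    False := by
  classical
  have hh0 : (1 : ℝ) ≤ h := by exact_mod_cast hh
  have hP0 : (1 : ℝ) ≤ P := by exact_mod_cast hP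
  have hSR4 : 4000 * (P : ℝ) ≤ S / R := by
    rw [le_div_iff₀ hR]; exact hS1
  have hSR : 4000 ≤ S / R := by linarith
  set Bad : ℕ → Finset ℕ := fun g => (Finset.range (⌊2 * (R * S)⌋₊ + 1)).filter (fun n : ℕ =>
      R * S < n ∧ (n : ℝ) ≤ 1.01 * R * S ∧ n.Coprime P ∧ (n + g).Coprime P ∧
      ⌊S ^ 2 / (n : ℝ)⌋₊.Coprime P ∧
      Int.fract (S ^ 2 / n) < κ ∧ lam n ≠ lam (n + g)) with hBad
  have hbad' : ∀ g ∈ Icc 1 P, ((Bad g).card : ℝ) ≤ κ * R * S / (2000 * h * P ^ 2) := by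
    intro g hg
    rw [mem_Icc] at hg
    apply hbad g hg.1 hg.2
    intro n hn
    simp only [hBad, Finset.mem_filter] at hn
    exact hn.2
  -- the index set of `M`
  set I0 := (Finset.Icc ⌈S / (1.005 * R)⌉₊ ⌊S / R - 1⌋₊) with hI0
  set I := I0.filter (fun M => M.Coprime P) with hI
  -- the starting points of runs
  let A : ℕ → Finset ℕ := fun M =>
    (Finset.Ioc ⌊S ^ 2 / (M + κ)⌋₊ (⌊S ^ 2 / M⌋₊ + 1 - h))
  have hIM : ∀ M ∈ I, S / (1.005 * R) ≤ M ∧ (M : ℝ) ≤ S / R - 1 := by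
    intro M hM
    rw [hI, mem_filter, hI0, Finset.mem_Icc] at hM
    refine ⟨Nat.ceil_le.mp hM.1.1, ?_⟩
    have : (0 : ℝ) ≤ S / R - 1 := by linarith
    exact (Nat.le_floor_iff this).mp hM.1.2
  have hIP : ∀ M ∈ I, M.Coprime P := fun M hM => (mem_filter.1 hM).2
  have hMpos : ∀ M ∈ I, (0 : ℝ) < M := by
    intro M hM
    exact lt_of_lt_of_le (by positivity) (hIM M hM).1
  -- basic facts on elements of A M
  have hA : ∀ M ∈ I, ∀ x ∈ A M, S ^ 2 / (M + κ) < x ∧ (x : ℝ) + h ≤ S ^ 2 / M + 1 ∧ 0 < x := by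
    intro M hM x hx
    have hM0 := hMpos M hM
    rw [Finset.mem_Ioc] at hx
    obtain ⟨h1, h2⟩ := hx
    have h3 : S ^ 2 / (M + κ) < x := Nat.lt_of_floor_lt h1
    have h4 : x + h ≤ ⌊S ^ 2 / (M : ℝ)⌋₊ + 1 := by omega
    have h5 : ((⌊S ^ 2 / (M : ℝ)⌋₊ : ℕ) : ℝ) ≤ S ^ 2 / M := Nat.floor_le (by positivity)
    have h6 : ((x + h : ℕ) : ℝ) ≤ ((⌊S ^ 2 / (M : ℝ)⌋₊ + 1 : ℕ) : ℝ) := by exact_mod_cast h4
    push_cast at h6
    exact ⟨h3, by linarith, by omega⟩
  -- consequences: for j < h the point x + j lies in the cell and in J_M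
  have hpt : ∀ M ∈ I, ∀ x ∈ A M, ∀ j : ℕ, j < h →
      R * S < ((x + j : ℕ) : ℝ) ∧ ((x + j : ℕ) : ℝ) ≤ 1.005 * R * S ∧
      (M : ℝ) ≤ S ^ 2 / ((x + j : ℕ) : ℝ) ∧ S ^ 2 / ((x + j : ℕ) : ℝ) < M + κ := by
    intro M hM x hx j hj
    obtain ⟨hI1, hI2⟩ := hIM M hM
    have hM0 := hMpos M hM
    obtain ⟨hx1, hx2, hx3⟩ := hA M hM x hx
    have hj' : (j : ℝ) + 1 ≤ h := by exact_mod_cast hj
    have hxr : (0 : ℝ) < x := by exact_mod_cast hx3
    have hj0 : (0 : ℝ) ≤ j := by positivity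
    push_cast
    have hMk : 0 < (M : ℝ) + κ := by linarith
    have e1 : S ^ 2 / (M + κ) < x + j := by linarith
    have e2 : (x : ℝ) + j ≤ S ^ 2 / M := by linarith
    have hxj : (0 : ℝ) < x + j := by linarith
    refine ⟨?_, ?_, ?_, ?_⟩
    · refine lt_of_le_of_lt ?_ e1
      rw [le_div_iff₀ hMk]
      have : (M : ℝ) + κ ≤ S / R := by linarith
      calc R * S * (M + κ) ≤ R * S * (S / R) := by
            apply mul_le_mul_of_nonneg_left this (by positivity)
        _ = S ^ 2 := by field_simp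
    · refine le_trans e2 ?_
      rw [div_le_iff₀ hM0]
      have : 1.005 * R * S * (S / (1.005 * R)) ≤ 1.005 * R * S * M := by
        apply mul_le_mul_of_nonneg_left hI1 (by positivity)
      have h2 : 1.005 * R * S * (S / (1.005 * R)) = S ^ 2 := by field_simp
      linarith
    · rw [le_div_iff₀ hxj]
      rw [le_div_iff₀ hM0] at e2
      linarith
    · rw [div_lt_iff₀ hxj]
      rw [div_lt_iff₀ hMk] at e1
      linarith
  -- disjointness
  have hdisj : ∀ M ∈ I, ∀ M' ∈ I, M ≠ M' → Disjoint (A M) (A M') := by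
    intro M hM M' hM' hne
    rw [Finset.disjoint_left]
    intro x hx hx'
    apply hne
    have h1 := hpt M hM x hx 0 (by omega)
    have h2 := hpt M' hM' x hx' 0 (by omega)
    have h3 : (M : ℝ) < M' + 1 := by linarith [h1.2.2.1, h2.2.2.2]
    have h4 : (M' : ℝ) < M + 1 := by linarith [h2.2.2.1, h1.2.2.2]
    have h5 : M < M' + 1 := by exact_mod_cast h3
    have h6 : M' < M + 1 := by exact_mod_cast h4
    omega
  -- size of A M
  have hcardA : ∀ M ∈ I, κ * R ^ 2 / 2 ≤ ((A M).card : ℝ) := by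
    intro M hM
    obtain ⟨hI1, hI2⟩ := hIM M hM
    have hM0 := hMpos M hM
    have hMk : 0 < (M : ℝ) + κ := by linarith
    have h1 : (S ^ 2 / M : ℝ) < ⌊S ^ 2 / (M : ℝ)⌋₊ + 1 := Nat.lt_floor_add_one _
    have h2 : ((⌊S ^ 2 / (M + κ)⌋₊ : ℕ) : ℝ) ≤ S ^ 2 / (M + κ) := Nat.floor_le (by positivity)
    have h3 : κ * R ^ 2 ≤ S ^ 2 / M - S ^ 2 / (M + κ) := by
      have : S ^ 2 / M - S ^ 2 / (M + κ) = S ^ 2 * κ / (M * (M + κ)) := by
        field_simp
        ring
      rw [this, le_div_iff₀ (by positivity)]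
      have h4 : (M : ℝ) + κ ≤ S / R := by linarith
      have h5 : (M : ℝ) ≤ S / R := by linarith
      have h6 : (M : ℝ) * (M + κ) ≤ (S / R) * (S / R) :=
        mul_le_mul h5 h4 hMk.le (by positivity)
      calc κ * R ^ 2 * (M * (M + κ)) ≤ κ * R ^ 2 * ((S / R) * (S / R)) := by
            apply mul_le_mul_of_nonneg_left h6 (by positivity)
        _ = S ^ 2 * κ := by field_simp
    have h7 : (A M).card = ⌊S ^ 2 / (M : ℝ)⌋₊ + 1 - h - ⌊S ^ 2 / ((M : ℝ) + κ)⌋₊ := by
      simp only [A, Nat.card_Ioc]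
    have h8 : (⌊S ^ 2 / (M : ℝ)⌋₊ : ℝ) + 1 - h - ⌊S ^ 2 / ((M : ℝ) + κ)⌋₊ ≤ ((A M).card : ℝ) := by
      rw [h7]
      have : ((⌊S ^ 2 / (M : ℝ)⌋₊ + 1 : ℕ) : ℝ) - h - ⌊S ^ 2 / ((M : ℝ) + κ)⌋₊ ≤
          ((⌊S ^ 2 / (M : ℝ)⌋₊ + 1 - h - ⌊S ^ 2 / ((M : ℝ) + κ)⌋₊ : ℕ) : ℝ) := by
        have hz : ((⌊S ^ 2 / (M : ℝ)⌋₊ + 1 : ℕ) : ℤ) - h - ⌊S ^ 2 / ((M : ℝ) + κ)⌋₊ ≤
          ((⌊S ^ 2 / (M : ℝ)⌋₊ + 1 - h - ⌊S ^ 2 / ((M : ℝ) + κ)⌋₊ : ℕ) : ℤ) := by
          omega
        exact_mod_cast hz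
      push_cast at this ⊢
      linarith
    linarith
  -- number of M
  have hcardI : 0.004 * (S / R) / P ≤ (I.card : ℝ) := by
    have h6 : S / (1.005 * R) ≤ 0.9951 * (S / R) := by
      rw [div_le_iff₀ (by positivity)]
      have : 0.9951 * (S / R) * (1.005 * R) = 0.9951 * 1.005 * S := by
        field_simp
      rw [this]
      nlinarith
    set a : ℝ := S / (1.005 * R) with ha
    set b : ℝ := S / R - 1 with hb
    have ha0 : 0 ≤ a := by positivity
    have hb0 : 0 ≤ b := by linarith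
    -- `k` with `a ≤ P k + 1 ≤ b`
    set k1 : ℕ := ⌈a / P⌉₊ with hk1
    set k2 : ℕ := ⌊(b - 1) / P⌋₊ with hk2
    have hinj : ∀ k ∈ Icc k1 k2, P * k + 1 ∈ I := by
      intro k hk
      rw [mem_Icc] at hk
      have e1 : a / P ≤ k := Nat.ceil_le.1 hk.1
      have e2 : (k : ℝ) ≤ (b - 1) / P := by
        have : (0 : ℝ) ≤ (b - 1) / P := div_nonneg (by linarith) (by linarith)
        exact (Nat.le_floor_iff this).1 hk.2
      rw [div_le_iff₀ (by linarith)] at e1
      rw [le_div_iff₀ (by linarith)] at e2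
      rw [hI, mem_filter, hI0, mem_Icc]
      refine ⟨⟨?_, ?_⟩, ?_⟩
      · apply Nat.ceil_le.2
        push_cast
        linarith
      · apply Nat.le_floor
        push_cast
        linarith
      · have : Nat.Coprime (1 + P * k) P := by simp
        rw [add_comm]; exact this
    have hle : (Icc k1 k2).card ≤ I.card := by
      apply card_le_card_of_injOn (fun k => P * k + 1) (fun k hk => hinj k hk)
      intro x _ y _ hxy
      simp only [add_left_inj] at hxy
      exact Nat.eq_of_mul_eq_mul_left (by omega) hxy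
    have hcardK : (b - 1) / P - a / P - 1 ≤ ((Icc k1 k2).card : ℝ) := by
      rw [Nat.card_Icc]
      have e1 : (k1 : ℝ) < a / P + 1 := Nat.ceil_lt_add_one (by positivity)
      have e2 : (b - 1) / P < (k2 : ℝ) + 1 := Nat.lt_floor_add_one _
      have e3 : (k2 : ℝ) + 1 - k1 ≤ ((k2 + 1 - k1 : ℕ) : ℝ) := by
        have hz : (k2 : ℤ) + 1 - k1 ≤ ((k2 + 1 - k1 : ℕ) : ℤ) := by omega
        exact_mod_cast hz
      linarith
    have hle' : ((Icc k1 k2).card : ℝ) ≤ I.card := by exact_mod_cast hle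
    have h9 : 0.004 * (S / R) / P ≤ (b - 1) / P - a / P - 1 := by
      have : (b - 1) / P - a / P - 1 = (b - 1 - a - P) / P := by field_simp
      rw [this]
      apply div_le_div_of_nonneg_right _ (by linarith)
      linarith
    linarith
  -- union
  set G := I.biUnion A with hG
  have hGcard : (G.card : ℝ) = ∑ M ∈ I, ((A M).card : ℝ) := by
    rw [hG, Finset.card_biUnion (fun M hM M' hM' hne => hdisj M hM M' hM' hne)]
    push_cast
    rfl
  have hGlow : 0.002 * (κ * R * S / P) ≤ (G.card : ℝ) := by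
    rw [hGcard]
    calc 0.002 * (κ * R * S / P) = 0.004 * (S / R) / P * (κ * R ^ 2 / 2) := by
          field_simp
          ring
      _ ≤ (I.card : ℝ) * (κ * R ^ 2 / 2) := by
          apply mul_le_mul_of_nonneg_right hcardI (by positivity)
      _ = ∑ M ∈ I, (κ * R ^ 2 / 2) := by simp
      _ ≤ _ := Finset.sum_le_sum hcardA
  -- every element of G is exceptional or near a bad one
  have hcover : G ⊆ runs P h (R * S) ∪
      (Icc 1 P).biUnion (fun g => (Finset.range h).biUnion (fun j => (Bad g).image (fun n => n - j))) := by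
    intro x hx
    rw [hG, Finset.mem_biUnion] at hx
    obtain ⟨M, hM, hxM⟩ := hx
    have hM0 := hMpos M hM
    by_cases hex : ∀ i < h, ∀ j < h, (x + i).Coprime P →
      (x + j).Coprime P → lam (x + i) = lam (x + j)
    · apply Finset.mem_union_left
      rw [runs, Finset.mem_filter, Finset.mem_Icc]
      have h0 := hpt M hM x hxM 0 (by omega)
      simp only [add_zero] at h0
      refine ⟨⟨?_, ?_⟩, hex⟩
      · exact Nat.ceil_le.mpr h0.1.le
      · apply Nat.le_floor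
        have : 0 < R * S := by positivity
        linarith [h0.2.1]
    · apply Finset.mem_union_right
      push Not at hex
      obtain ⟨i, hi, j, hj, hci, hcj, hne⟩ := hex
      -- the change
      obtain ⟨n, g, h1, h2, h3, h4, h5, h6, h7⟩ : ∃ n g : ℕ, x ≤ n ∧ 1 ≤ g ∧ g ≤ P ∧
          n + g < x + h ∧ n.Coprime P ∧ (n + g).Coprime P ∧ lam n ≠ lam (n + g) := by
        rcases le_total i j with hij | hij
        · obtain ⟨n, g, q1, q2, q3, q4, q5⟩ := exists_change hP (j - i) (x + i) hci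
            (by rw [show x + i + (j - i) = x + j by omega]; exact hcj)
            (by rw [show x + i + (j - i) = x + j by omega]; exact hne)
          exact ⟨n, g, by omega, q2, q3, by omega, q5⟩
        · obtain ⟨n, g, q1, q2, q3, q4, q5⟩ := exists_change hP (i - j) (x + j) hcj
            (by rw [show x + j + (i - j) = x + i by omega]; exact hci)
            (by rw [show x + j + (i - j) = x + i by omega]; exact hne.symm)
          exact ⟨n, g, by omega, q2, q3, by omega, q5⟩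
      rw [Finset.mem_biUnion]
      refine ⟨g, mem_Icc.2 ⟨h2, h3⟩, ?_⟩
      rw [Finset.mem_biUnion]
      refine ⟨n - x, Finset.mem_range.mpr (by omega), ?_⟩
      rw [Finset.mem_image]
      refine ⟨n, ?_, by omega⟩
      have hpt' := hpt M hM x hxM (n - x) (by omega)
      rw [show x + (n - x) = n by omega] at hpt'
      obtain ⟨p1, p2, p3, p4⟩ := hpt'
      simp only [hBad, Finset.mem_filter, Finset.mem_range]
      have hRS : 0 < R * S := by positivity
      have hflN : ⌊S ^ 2 / (n : ℝ)⌋₊ = M := by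
        rw [Nat.floor_eq_iff (by positivity)]
        exact ⟨p3, by linarith⟩
      refine ⟨?_, p1, ?_, h5, h6, ?_, ?_, h7⟩
      · have : n ≤ ⌊2 * (R * S)⌋₊ := by
          apply Nat.le_floor
          linarith
        omega
      · linarith
      · rw [hflN]; exact hIP M hM
      · have hfl : ⌊S ^ 2 / (n : ℝ)⌋ = (M : ℤ) := by
          rw [Int.floor_eq_iff]
          constructor
          · exact_mod_cast p3
          · have : S ^ 2 / (n : ℝ) < (M : ℝ) + 1 := by linarith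
            exact_mod_cast this
        rw [← Int.self_sub_floor, hfl]
        have : ((M : ℤ) : ℝ) = (M : ℝ) := by norm_cast
        rw [this]
        linarith
  have hcard := Finset.card_le_card hcover
  have h1 : (G.card : ℝ) ≤ (runs P h (R * S)).card + ∑ g ∈ Icc 1 P, (h : ℝ) * ((Bad g).card : ℝ) := by
    have e1 : ∀ g, ((Finset.range h).biUnion (fun j => (Bad g).image (fun n => n - j))).card
        ≤ h * (Bad g).card := by
      intro g
      refine le_trans Finset.card_biUnion_le ?_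
      refine le_trans (Finset.sum_le_sum (fun j _ => Finset.card_image_le)) ?_
      simp
    have e2 : G.card ≤ (runs P h (R * S)).card + ∑ g ∈ Icc 1 P, h * (Bad g).card := by
      refine hcard.trans ((Finset.card_union_le _ _).trans ?_)
      apply Nat.add_le_add_left
      exact Finset.card_biUnion_le.trans (Finset.sum_le_sum fun g _ => e1 g)
    exact_mod_cast e2
  have h2 : ∑ g ∈ Icc 1 P, (h : ℝ) * ((Bad g).card : ℝ) ≤ κ * R * S / (2000 * P) := by
    calc ∑ g ∈ Icc 1 P, (h : ℝ) * ((Bad g).card : ℝ)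
        ≤ ∑ g ∈ Icc 1 P, (h : ℝ) * (κ * R * S / (2000 * h * P ^ 2)) := by
          apply sum_le_sum
          intro g hg
          exact mul_le_mul_of_nonneg_left (hbad' g hg) (by positivity)
      _ = κ * R * S / (2000 * P) := by
          rw [sum_const, Nat.card_Icc, nsmul_eq_mul, Nat.add_sub_cancel]
          field_simp
  have h5 : 0 < κ * R * S / P := by positivity
  have h6 : κ * R * S / (2000 * P) = 0.0005 * (κ * R * S / P) := by
    field_simp; norm_num
  have h7 : κ * R * S / (1000 * P) = 0.001 * (κ * R * S / P) := by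
    field_simp; norm_num
  rw [h6] at h2
  rw [h7] at hMR
  linarith

/-- The core: for one pair `R`, `eps`, few violations for all gaps `g ≤ P` is contradictory. -/
theorem core (hNR : NoRunsZ) (P : ℕ) (hP : 1 ≤ P) (c : ℝ) (hc : 0 < c) (hc1 : c ≤ 1) :
    ∃ R eps : ℝ, 1000 * (P : ℝ) ≤ c * R ∧ 0 < eps ∧ ∃ T0 : ℝ, ∀ t : ℝ, T0 ≤ t →
      (∀ g : ℕ, 1 ≤ g → g ≤ P → ∀ s : Finset ℕ, (∀ n ∈ s, R * √t < n ∧
        (n : ℝ) ≤ 1.01 * R * √t ∧ n.Coprime P ∧ (n + g).Coprime P ∧ ⌊t / n⌋₊.Coprime P ∧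
        Int.fract (t / n) < c ^ 2 / (200 * g) ∧ lam n ≠ lam (n + g)) →
        (s.card : ℝ) ≤ eps * √t) → False := by
  have hP0 : (1 : ℝ) ≤ P := by exact_mod_cast hP
  set κ : ℝ := c ^ 2 / (200 * P) with hκ
  have hκ0 : 0 < κ := by rw [hκ]; positivity
  have hκ1 : κ < 1 := by
    rw [hκ, div_lt_one (by positivity)]
    nlinarith
  obtain ⟨h', X₀, hX⟩ := hNR P hP (κ / (1000 * P)) (by positivity)
  obtain ⟨h, hh⟩ : ∃ h : ℕ, h = h' + 1 := ⟨_, rfl⟩
  have hh1 : 1 ≤ h := by omega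
  have hh0 : (1 : ℝ) ≤ h := by exact_mod_cast hh1
  set R : ℝ := (1000 + 400 * h) * P / c with hR
  have hR1000 : 1000 * (P : ℝ) ≤ c * R := by
    rw [hR, mul_div_cancel₀ _ hc.ne']
    nlinarith
  have hR0 : 0 < R := by rw [hR]; positivity
  have hRh : 400 * (h : ℝ) ≤ κ * R ^ 2 := by
    have : κ * R ^ 2 = (1000 + 400 * h) ^ 2 * P / 200 := by
      rw [hκ, hR]
      field_simp
    rw [this, le_div_iff₀ (by norm_num)]
    nlinarith
  refine ⟨R, κ * R / (2000 * h * P ^ 2), hR1000, by positivity,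
    max ((4000 * P * R) ^ 2) (max 1 ((X₀ / R) ^ 2)), fun t ht hbad => ?_⟩
  have ht2 : (4000 * P * R) ^ 2 ≤ t := le_trans (le_max_left _ _) ht
  have ht1 : 1 ≤ t := le_trans (le_trans (le_max_left _ _) (le_max_right _ _)) ht
  have ht3 : (X₀ / R) ^ 2 ≤ t := le_trans (le_trans (le_max_right _ _) (le_max_right _ _)) ht
  have ht0 : 0 < t := by linarith
  set S := √t with hSdef
  have hS0 : 0 < S := Real.sqrt_pos.mpr ht0
  have hSt : S ^ 2 = t := Real.sq_sqrt ht0.le
  have hS1 : 4000 * P * R ≤ S := Real.le_sqrt_of_sq_le ht2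
  have hS2 : X₀ / R ≤ S := Real.le_sqrt_of_sq_le ht3
  have hS3 : X₀ ≤ R * S := by
    rw [div_le_iff₀ hR0] at hS2
    linarith
  have hM := hX (R * S) hS3
  refine count_step (P := P) (R := R) (S := S) (κ := κ) (h := h) hP hκ0 hκ1 hh1 hR0 hRh hS0 hS1 ?_ ?_
  · have hsub : runs P h (R * S) ⊆ (Icc ⌈R * S⌉₊ ⌊2 * (R * S)⌋₊).filter (fun x => ∀ i < h',
        ∀ j < h', (x + i).Coprime P → (x + j).Coprime P → lam (x + i) = lam (x + j)) := by
      intro x hx
      rw [runs, Finset.mem_filter] at hx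
      rw [Finset.mem_filter]
      exact ⟨hx.1, fun i hi j hj => hx.2 i (by omega) j (by omega)⟩
    have h1 : ((runs P h (R * S)).card : ℝ) ≤ (((Icc ⌈R * S⌉₊ ⌊2 * (R * S)⌋₊).filter (fun x =>
        ∀ i < h', ∀ j < h', (x + i).Coprime P → (x + j).Coprime P →
          lam (x + i) = lam (x + j))).card : ℝ) := by
      exact_mod_cast Finset.card_le_card hsub
    refine le_trans h1 (le_trans hM (le_of_eq ?_))
    ring
  · intro g hg1 hg2 s hs
    rw [hSt] at hs
    have hg0 : (1 : ℝ) ≤ g := by exact_mod_cast hg1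
    have hgP : (g : ℝ) ≤ P := by exact_mod_cast hg2
    refine le_trans (hbad g hg1 hg2 s fun n hn => ?_) (le_of_eq ?_)
    · obtain ⟨q1, q2, q3, q4, q5, q6, q7⟩ := hs n hn
      refine ⟨q1, q2, q3, q4, q5, lt_of_lt_of_le q6 ?_, q7⟩
      rw [hκ]
      apply div_le_div_of_nonneg_left (by positivity) (by positivity)
      linarith
    · ring

theorem lam_of_even {n : ℕ} (h : Even (ArithmeticFunction.cardFactors n)) : lam n = 1 := by
  unfold lam
  exact h.neg_one_pow

theorem lam_of_odd {n : ℕ} (h : Odd (ArithmeticFunction.cardFactors n)) : lam n = -1 := by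
  unfold lam
  exact h.neg_one_pow

/-- both parities among the integers coprime to `P` in `(t, t + ℓ)`. -/
def BothPar (P : ℕ) (t ℓ : ℝ) : Prop :=
  (∃ n : ℕ, t < n ∧ (n : ℝ) < t + ℓ ∧ n.Coprime P ∧ Even (ArithmeticFunction.cardFactors n)) ∧
  (∃ n : ℕ, t < n ∧ (n : ℝ) < t + ℓ ∧ n.Coprime P ∧ Odd (ArithmeticFunction.cardFactors n))

theorem constOn_of_not {P : ℕ} {t ℓ : ℝ} (h : ¬ BothPar P t ℓ) : ConstOn P t ℓ := by
  unfold BothPar at h
  rw [not_and_or] at h
  intro m n hm hm' hmP hn hn' hnP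
  rcases h with h | h
  · have key : ∀ k : ℕ, t < k → (k : ℝ) < t + ℓ → k.Coprime P → lam k = -1 := by
      intro k hk hk' hkP
      apply lam_of_odd
      rw [← Nat.not_even_iff_odd]
      intro he
      exact h ⟨k, hk, hk', hkP, he⟩
    rw [key m hm hm' hmP, key n hn hn' hnP]
  · have key : ∀ k : ℕ, t < k → (k : ℝ) < t + ℓ → k.Coprime P → lam k = 1 := by
      intro k hk hk' hkP
      apply lam_of_even
      rw [← Nat.not_odd_iff_even]
      intro he
      exact h ⟨k, hk, hk', hkP, he⟩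
    rw [key m hm hm' hmP, key n hn hn' hnP]

theorem BothPar.mono {P : ℕ} {t ℓ ℓ' : ℝ} (h : BothPar P t ℓ) (hl : ℓ ≤ ℓ') : BothPar P t ℓ' := by
  obtain ⟨⟨m, hm, hm', hmP, he⟩, ⟨n, hn, hn', hnP, ho⟩⟩ := h
  exact ⟨⟨m, hm, by linarith, hmP, he⟩, ⟨n, hn, by linarith, hnP, ho⟩⟩

/-- For finitely many eventual statements. -/
theorem eventually_fin (F : Finset ℕ) (p : ℕ → ℝ → Prop) (h : ∀ g ∈ F, ∃ T : ℝ, ∀ t, T ≤ t → p g t) :
    ∃ T : ℝ, ∀ t, T ≤ t → ∀ g ∈ F, p g t := by
  classical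
  induction F using Finset.induction_on with
  | empty => exact ⟨0, fun t _ g hg => absurd hg (Finset.notMem_empty g)⟩
  | insert a F ha ih =>
    obtain ⟨T1, h1⟩ := ih fun g hg => h g (mem_insert_of_mem hg)
    obtain ⟨T2, h2⟩ := h a (mem_insert_self _ _)
    refine ⟨max T1 T2, fun t ht g hg => ?_⟩
    rw [mem_insert] at hg
    rcases hg with rfl | hg
    · exact h2 t ((le_max_right _ _).trans ht)
    · exact h1 t ((le_max_left _ _).trans ht) g hg

/-- **The end** (coprime to `P`). -/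
theorem finalZ (hlink : LinkZ) (hNR : NoRunsZ) : FinalZ := by
  have key : ∀ (P : ℕ) (c : ℝ), 1 ≤ P → 0 < c → c ≤ 1 → ∃ t₀ : ℝ, ∀ t : ℝ, t₀ ≤ t →
      BothPar P t (c * √t) := by
    intro P c hP hc hc1
    obtain ⟨R, eps, hR, heps, T0, hT⟩ := core hNR P hP c hc hc1
    have hev := eventually_fin (Icc 1 P) (fun g t => ConstOn P t (c * √t) →
      ∀ s : Finset ℕ, (∀ n ∈ s, R * √t < n ∧ (n : ℝ) ≤ 1.01 * R * √t ∧
        n.Coprime P ∧ (n + g).Coprime P ∧ ⌊t / n⌋₊.Coprime P ∧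
        Int.fract (t / n) < c ^ 2 / (200 * g) ∧ lam n ≠ lam (n + g)) →
        (s.card : ℝ) ≤ eps * √t) (by
      intro g hg
      rw [mem_Icc] at hg
      have hgP : (g : ℝ) ≤ P := by exact_mod_cast hg.2
      exact hlink P g c R eps hP hg.1 hc hc1 (by linarith) heps)
    obtain ⟨T1, hT1⟩ := hev
    refine ⟨max T0 T1, fun t ht => ?_⟩
    by_contra hnot
    have hconst := constOn_of_not hnot
    refine hT t ((le_max_left _ _).trans ht) fun g hg1 hg2 s hs => ?_
    exact hT1 t ((le_max_right _ _).trans ht) g (mem_Icc.2 ⟨hg1, hg2⟩) hconst s hs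
  intro P c hP hc
  rcases le_total c 1 with h1 | h1
  · exact key P c hP hc h1
  · obtain ⟨t₀, ht⟩ := key P 1 hP one_pos le_rfl
    refine ⟨t₀, fun t h => (ht t h).mono ?_⟩
    exact mul_le_mul_of_nonneg_right h1 (Real.sqrt_nonneg t)

end Pool.Agent.MRZ
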