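import Pool.Agent.Lib.PO69.E2Sum
import Pool.Agent.Lib.PO69.E2Cnt
import Pool.Agent.Lib.PO69.GcdSumB
import Pool.Agent.Lib.MRZ.SMCop
import Pool.Agent.Lib.MRZ.Stat

/-! The second moment with a modulus `P`: `P ∣ D`, `P ∣ L`, `s` coprime to `P`. -/

set_option autoImplicit false

namespace Pool.Agent.MRZ

open Finset Pool.Agent.Lib.PO69

section gen

variable {κ X0 : ℝ} {b B P : ℕ}

/-- expected number with modulus -/
noncomputable def rhoZ (κ X0 : ℝ) (b B P : ℕ) (p : ℕ × ℕ) : ℝ :=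
  ((Ico (lo κ X0 b (p.1 * P)) (hi κ X0 b (p.1 * P))).card : ℝ) / (dd (b * P) B p : ℕ)

theorem rhoZ_nonneg (p : ℕ × ℕ) : 0 ≤ rhoZ κ X0 b B P p := by
  unfold rhoZ; positivity

theorem windowZ {p : ℕ × ℕ} {D : ℕ} (h : Adm κ X0 (b * P) B p) (hκ : 0 < κ)
    (hX : 0.35 * κ ≤ X0) (hb : 0 < b) (hB : 0 < B) (hP : 0 < P)
    (hD : D ∈ Ico (lo κ X0 b (p.1 * P)) (hi κ X0 b (p.1 * P))) :
    X0 - 0.05 * κ < (p.1 : ℝ) * ((P * D : ℕ) : ℝ) / b ∧
    (p.1 : ℝ) * ((P * D : ℕ) : ℝ) / b < X0 + 0.05 * κ ∧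
    X0 + 0.45 * κ < ((P * p.2 : ℕ) : ℝ) * ((P * D : ℕ) : ℝ) / B ∧
    ((P * p.2 : ℕ) : ℝ) * ((P * D : ℕ) : ℝ) / B < X0 + 0.55 * κ := by
  obtain ⟨h1, h2⟩ := mem_lohi hb (Nat.mul_pos h.pos.1 hP) hD
  have hX0 : 0 < X0 := by linarith
  have hs : (0 : ℝ) < p.1 := by exact_mod_cast h.pos.1
  have hL : (0 : ℝ) < p.2 := by exact_mod_cast h.pos.2
  have hb' : (0 : ℝ) < b := by exact_mod_cast hb
  have hB' : (0 : ℝ) < B := by exact_mod_cast hB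
  have hP' : (0 : ℝ) < P := by exact_mod_cast hP
  have eY : ((p.1 * P : ℕ) : ℝ) * D / b = (p.1 : ℝ) * ((P * D : ℕ) : ℝ) / b := by
    push_cast; ring
  rw [eY] at h1 h2
  set Y : ℝ := (p.1 : ℝ) * ((P * D : ℕ) : ℝ) / b with hY
  have hY0 : 0 < Y := by
    have : 0.01 * κ < X0 := by linarith
    linarith
  set z : ℝ := ((b * P : ℕ) : ℝ) * p.2 / (B * p.1) with hz
  have hz1 : 1 + 0.49 * κ / X0 < z := by
    rw [hz, lt_div_iff₀ (by positivity)]; exact h.2.2.1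
  have hz2 : z < 1 + 0.51 * κ / X0 := by
    rw [hz, div_lt_iff₀ (by positivity)]; exact h.2.2.2
  have hzY : ((P * p.2 : ℕ) : ℝ) * ((P * D : ℕ) : ℝ) / B = z * Y := by
    rw [hz, hY]
    push_cast
    field_simp
  have hκX : κ / X0 * X0 = κ := by field_simp
  have hκX1 : κ / X0 * κ ≤ 3 * κ := by
    have : κ / X0 ≤ 3 := by
      rw [div_le_iff₀ hX0]; linarith
    nlinarith
  have hκX0 : 0 < κ / X0 := by positivity
  have e1 : 0.49 * κ / X0 = 0.49 * (κ / X0) := by ring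
  have e2 : 0.51 * κ / X0 = 0.51 * (κ / X0) := by ring
  rw [e1] at hz1
  rw [e2] at hz2
  rw [hzY]
  refine ⟨by linarith, by linarith, ?_, ?_⟩
  · have h3 : (1 + 0.49 * (κ / X0)) * (X0 - 0.01 * κ) < z * Y :=
      mul_lt_mul'' hz1 h1 (by positivity) (by linarith)
    nlinarith
  · have h3 : z * Y < (1 + 0.51 * (κ / X0)) * (X0 + 0.01 * κ) :=
      mul_lt_mul'' hz2 h2 (by linarith) hY0.le
    nlinarith

theorem hi_leZ {p : ℕ × ℕ} (h : Adm κ X0 (b * P) B p) (hκ : 0 < κ) (hX : 0.35 * κ ≤ X0)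
    (hX1 : X0 ≤ 0.006) (hb : 0 < b) (hbB : b < B) (hP : 0 < P)
    (hbig : 100 ≤ κ * ((b : ℝ) / (p.1 * P : ℕ))) :
    hi κ X0 b (p.1 * P) ≤ lo κ X0 b (p.1 * P) + dd (b * P) B p := by
  have hX0 : 0 < X0 := by linarith
  have hs : (0 : ℝ) < p.1 := by exact_mod_cast h.pos.1
  have hs1 : (1 : ℝ) ≤ p.1 := by exact_mod_cast h.pos.1
  have hb' : (0 : ℝ) < b := by exact_mod_cast hb
  have hB' : (b : ℝ) < B := by exact_mod_cast hbB
  have hsP : 0 < p.1 * P := Nat.mul_pos h.pos.1 hP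
  have hsP' : (1 : ℝ) ≤ (p.1 * P : ℕ) := by exact_mod_cast hsP
  have h1 := card_lohi_le (X0 := X0) hκ hX hb hsP hbig
  have h2 := h.d_gt hκ hX0 (by omega)
  have h3 : 0.03 * κ * (b / (p.1 * P : ℕ)) ≤ 0.49 * (κ / X0) * (B * p.1) := by
    have h4 : (b : ℝ) / (p.1 * P : ℕ) ≤ B * p.1 := by
      have : (b : ℝ) / (p.1 * P : ℕ) ≤ b := div_le_self hb'.le hsP'
      nlinarith
    have h5 : 0.03 * κ ≤ 0.49 * (κ / X0) := by
      have : κ ≤ κ / X0 := by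
        rw [le_div_iff₀ hX0]
        nlinarith
      linarith
    have h6 : (0 : ℝ) ≤ (b : ℝ) / (p.1 * P : ℕ) := by positivity
    have h7 : 0 ≤ 0.49 * (κ / X0) := by positivity
    exact mul_le_mul h5 h4 h6 h7
  rw [Nat.card_Ico] at h1
  have h8 : ((hi κ X0 b (p.1 * P) - lo κ X0 b (p.1 * P) : ℕ) : ℝ)
      < ((b * P * p.2 - B * p.1 : ℕ) : ℝ) := by
    linarith
  have h9 : hi κ X0 b (p.1 * P) - lo κ X0 b (p.1 * P) < b * P * p.2 - B * p.1 := by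
    exact_mod_cast h8
  unfold dd
  omega

theorem rho_geZ {p : ℕ × ℕ} (h : Adm κ X0 (b * P) B p) (hκ : 0 < κ) (hX : 0.35 * κ ≤ X0)
    (hb : 0 < b) (hB : 0 < B) (hP : 0 < P) (hbig : 100 ≤ κ * ((b : ℝ) / (p.1 * P : ℕ))) :
    0.019 * (X0 * b / (P * (B * (p.1 : ℝ) ^ 2))) ≤ rhoZ κ X0 b B P p := by
  have hX0 : 0 < X0 := by linarith
  have hs : (0 : ℝ) < p.1 := by exact_mod_cast h.pos.1
  have hb' : (0 : ℝ) < b := by exact_mod_cast hb
  have hB' : (0 : ℝ) < B := by exact_mod_cast hB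
  have hP' : (0 : ℝ) < P := by exact_mod_cast hP
  have h1 := card_lohi_ge (X0 := X0) hκ hX hb (Nat.mul_pos h.pos.1 hP) hbig
  have h2 := h.d_gt hκ hX0 hB
  have h3 := h.d_lt hκ hX0 hB
  have h4 : 0 < ((b * P * p.2 - B * p.1 : ℕ) : ℝ) := lt_trans (by positivity) h2
  unfold rhoZ dd
  rw [le_div_iff₀ h4]
  refine le_trans ?_ h1
  calc 0.019 * (X0 * b / (P * (B * (p.1 : ℝ) ^ 2))) * ((b * P * p.2 - B * p.1 : ℕ) : ℝ)
      ≤ 0.019 * (X0 * b / (P * (B * (p.1 : ℝ) ^ 2))) * (0.51 * (κ / X0) * (B * p.1)) :=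
        mul_le_mul_of_nonneg_left h3.le (by positivity)
    _ = 0.019 * 0.51 * κ * (b / (p.1 * P : ℕ)) := by
        push_cast
        field_simp
    _ ≤ 0.01 * κ * (b / (p.1 * P : ℕ)) := by
        have : 0 < κ * ((b : ℝ) / (p.1 * P : ℕ)) := by linarith
        nlinarith

theorem rho_leZ {p : ℕ × ℕ} (h : Adm κ X0 (b * P) B p) (hκ : 0 < κ) (hX : 0.35 * κ ≤ X0)
    (hb : 0 < b) (hB : 0 < B) (hP : 0 < P) (hbig : 100 ≤ κ * ((b : ℝ) / (p.1 * P : ℕ))) :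
    rhoZ κ X0 b B P p ≤ 0.07 * (X0 * b / B) := by
  have hX0 : 0 < X0 := by linarith
  have hs : (0 : ℝ) < p.1 := by exact_mod_cast h.pos.1
  have hs1 : (1 : ℝ) ≤ p.1 := by exact_mod_cast h.pos.1
  have hb' : (0 : ℝ) < b := by exact_mod_cast hb
  have hB' : (0 : ℝ) < B := by exact_mod_cast hB
  have hsP : 0 < p.1 * P := Nat.mul_pos h.pos.1 hP
  have hsP' : (1 : ℝ) ≤ (p.1 * P : ℕ) := by exact_mod_cast hsP
  have h1 := card_lohi_le (X0 := X0) hκ hX hb hsP hbig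
  have h2 := h.d_gt hκ hX0 hB
  have h4 : 0 < ((b * P * p.2 - B * p.1 : ℕ) : ℝ) := lt_trans (by positivity) h2
  unfold rhoZ dd
  rw [div_le_iff₀ h4]
  refine h1.trans ?_
  calc 0.03 * κ * (b / (p.1 * P : ℕ)) ≤ 0.07 * 0.49 * κ * (b * p.1) := by
        have : (b : ℝ) / (p.1 * P : ℕ) ≤ b * p.1 := by
          have : (b : ℝ) / (p.1 * P : ℕ) ≤ b := div_le_self hb'.le hsP'
          nlinarith
        have h5 : 0 < κ * (b * p.1) := by positivity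
        have h6 : κ * (b / (p.1 * P : ℕ)) ≤ κ * (b * p.1) :=
          mul_le_mul_of_nonneg_left this hκ.le
        nlinarith
    _ = 0.07 * (X0 * b / B) * (0.49 * (κ / X0) * (B * p.1)) := by
        field_simp
    _ ≤ _ := mul_le_mul_of_nonneg_left h2.le (by positivity)

/-- gcd bound by the determinant. -/
theorem gcd_leZ {a : ℕ} {p q : ℕ × ℕ} (hp : Adm κ X0 a B p) (hq : Adm κ X0 a B q) (hne : p ≠ q)
    (hκ : 0 < κ) (hX : 0.35 * κ ≤ X0) (ha : 0 < a) (hb : 0 < b) (hba : b ≤ a) (hB : B.Prime)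
    (W0 : ℕ) (hpW : p.1 ≤ W0) (hqW : q.1 ≤ W0) (hcop : Nat.Coprime a (a * p.2 - B * p.1)) :
    ((Nat.gcd (a * p.2 - B * p.1) (a * q.2 - B * q.1) : ℕ) : ℝ) ≤ 3 * (W0 : ℝ) ^ 2 * (B / b) := by
  have hX0 : 0 < X0 := by linarith
  have hdvd := hp.gcd_dvd_det hq hκ hX0 hB hcop
  have hdet := hp.det_ne hq hne
  have h1 : ((Nat.gcd (a * p.2 - B * p.1) (a * q.2 - B * q.1) : ℕ) : ℤ)
      ≤ |((p.1 : ℤ) * q.2 - q.1 * p.2)| :=
    Int.le_of_dvd (abs_pos.2 hdet) ((dvd_abs _ _).2 hdvd)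
  have h2 : ((Nat.gcd (a * p.2 - B * p.1) (a * q.2 - B * q.1) : ℕ) : ℝ)
      ≤ |((p.1 : ℝ) * q.2 - q.1 * p.2)| := by
    exact_mod_cast h1
  refine h2.trans ?_
  have ha' : (0 : ℝ) < a := by exact_mod_cast ha
  have hb' : (0 : ℝ) < b := by exact_mod_cast hb
  have hba' : (b : ℝ) ≤ a := by exact_mod_cast hba
  have hB' : (0 : ℝ) < B := by exact_mod_cast hB.pos
  have hκX : κ / X0 ≤ 20 / 7 := by
    rw [div_le_iff₀ hX0]; linarith
  have key : ∀ r : ℕ × ℕ, Adm κ X0 a B r → r.1 ≤ W0 → (r.2 : ℝ) ≤ 3 * W0 * (B / b) := by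
    intro r hr hrW
    have h3 := hr.2.2.2
    have hrW' : (r.1 : ℝ) ≤ W0 := by exact_mod_cast hrW
    have e2 : 0.51 * κ / X0 = 0.51 * (κ / X0) := by ring
    rw [e2] at h3
    have h4 : (a : ℝ) * r.2 ≤ 3 * (B * W0) := by
      have h5 : (1 + 0.51 * (κ / X0)) * ((B : ℝ) * r.1) ≤ 3 * (B * W0) := by
        have h6 : (B : ℝ) * r.1 ≤ B * W0 := mul_le_mul_of_nonneg_left hrW' hB'.le
        have h7 : 0 ≤ (B : ℝ) * r.1 := by positivity
        have h8 : 1 + 0.51 * (κ / X0) ≤ 3 := by linarith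
        exact mul_le_mul h8 h6 h7 (by norm_num)
      linarith
    have h9 : (b : ℝ) * r.2 ≤ a * r.2 := mul_le_mul_of_nonneg_right hba' (Nat.cast_nonneg _)
    rw [mul_div_assoc', le_div_iff₀ hb']
    linarith
  have hp2 := key p hp hpW
  have hq2 := key q hq hqW
  have hpW' : (p.1 : ℝ) ≤ W0 := by exact_mod_cast hpW
  have hqW' : (q.1 : ℝ) ≤ W0 := by exact_mod_cast hqW
  have hW0 : (0 : ℝ) ≤ W0 := Nat.cast_nonneg _
  have hr0 : 0 ≤ (B : ℝ) / b := by positivity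
  have a1 : (p.1 : ℝ) * q.2 ≤ 3 * (W0 : ℝ) ^ 2 * (B / b) := by
    calc (p.1 : ℝ) * q.2 ≤ W0 * (3 * W0 * (B / b)) :=
          mul_le_mul hpW' hq2 (by positivity) hW0
      _ = _ := by ring
  have a2 : (q.1 : ℝ) * p.2 ≤ 3 * (W0 : ℝ) ^ 2 * (B / b) := by
    calc (q.1 : ℝ) * p.2 ≤ W0 * (3 * W0 * (B / b)) :=
          mul_le_mul hqW' hp2 (by positivity) hW0
      _ = _ := by ring
  rw [abs_le]
  have a3 : (0 : ℝ) ≤ (p.1 : ℝ) * q.2 := by positivity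
  have a4 : (0 : ℝ) ≤ (q.1 : ℝ) * p.2 := by positivity
  constructor <;> linarith

/-- one mixed moment -/
theorem mixedZ {p q : ℕ × ℕ} (hp : Adm κ X0 (b * P) B p) (hq : Adm κ X0 (b * P) B q) (Q : ℕ)
    (hκ : 0 < κ) (hX : 0.35 * κ ≤ X0) (hb : b.Prime) (hB : B.Prime) (hbB : b < B)
    (hP : 1 ≤ P) (hPb : P < b) (hpP : ¬ p.1 ∣ P) (hqP : ¬ q.1 ∣ P)
    (hpb : p.1 < b) (hqb : q.1 < b) (hbp : 100 ≤ κ * ((b : ℝ) / (p.1 * P : ℕ)))
    (hQ : dd (b * P) B p * dd (b * P) B q ∣ Q) :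
    ∑ M ∈ range Q, cnt b (p.1 * P) (dd (b * P) B p) (lo κ X0 b (p.1 * P)) (hi κ X0 b (p.1 * P)) M
        * cnt b (q.1 * P) (dd (b * P) B q) (lo κ X0 b (q.1 * P)) (hi κ X0 b (q.1 * P)) M
      ≤ (rhoZ κ X0 b B P p * rhoZ κ X0 b B P q
        + 0.07 * (X0 * b / B) * (3 * (X0 / κ) / B)
          * (Nat.gcd (b * P * p.2 - B * p.1) (b * P * q.2 - B * q.1) : ℕ)) * Q := by
  have hX0 : 0 < X0 := by linarith
  have hltp := hp.lt hκ hX0 hB.pos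
  have hltq := hq.lt hκ hX0 hB.pos
  obtain ⟨p1, p2, p3, p4⟩ := copZ hb hB hp.1 hbB hpb hPb hP hpP hp.2.1 hltp
  obtain ⟨q1, q2, q3, q4⟩ := copZ hb hB hq.1 hbB hqb hPb hP hqP hq.2.1 hltq
  have hdp : 0 < dd (b * P) B p := Nat.sub_pos_of_lt hltp
  have hdq : 0 < dd (b * P) B q := Nat.sub_pos_of_lt hltq
  have hcs : Nat.Coprime (q.1 * P) (Nat.gcd (dd (b * P) B p) (dd (b * P) B q)) :=
    Nat.Coprime.coprime_dvd_right (Nat.gcd_dvd_right _ _) q2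
  have hm := sum_cnt_mul b (p.1 * P) (dd (b * P) B p) (lo κ X0 b (p.1 * P))
    (hi κ X0 b (p.1 * P)) (q.1 * P) (dd (b * P) B q)
    (lo κ X0 b (q.1 * P)) (hi κ X0 b (q.1 * P)) Q hdp hdq p1 q1 hQ hcs
  refine hm.trans ?_
  refine mul_le_mul_of_nonneg_right ?_ (Nat.cast_nonneg _)
  have hdp' : (0 : ℝ) < (dd (b * P) B p : ℕ) := by exact_mod_cast hdp
  have hdq' : (0 : ℝ) < (dd (b * P) B q : ℕ) := by exact_mod_cast hdq
  have hg0 : 0 < Nat.gcd (dd (b * P) B p) (dd (b * P) B q) := Nat.gcd_pos_of_pos_left _ hdp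
  have hg' : (0 : ℝ) < (Nat.gcd (dd (b * P) B p) (dd (b * P) B q) : ℕ) := by exact_mod_cast hg0
  have e1 : ((Nat.gcd (dd (b * P) B p) (dd (b * P) B q) : ℕ) : ℝ)
      / ((dd (b * P) B p : ℕ) * (dd (b * P) B q : ℕ))
      * (((Ico (lo κ X0 b (p.1 * P)) (hi κ X0 b (p.1 * P))).card : ℝ)
        * (((Ico (lo κ X0 b (q.1 * P)) (hi κ X0 b (q.1 * P))).card : ℝ) /
          (Nat.gcd (dd (b * P) B p) (dd (b * P) B q) : ℕ) + 1))
      = rhoZ κ X0 b B P p * rhoZ κ X0 b B P q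
        + rhoZ κ X0 b B P p * (1 / (dd (b * P) B q : ℕ))
          * (Nat.gcd (dd (b * P) B p) (dd (b * P) B q) : ℕ) := by
    unfold rhoZ
    field_simp
  rw [e1]
  have h1 : rhoZ κ X0 b B P p ≤ 0.07 * (X0 * b / B) := rho_leZ hp hκ hX hb.pos hB.pos hP hbp
  have h2 : 1 / ((dd (b * P) B q : ℕ) : ℝ) ≤ 3 * (X0 / κ) / B := hq.inv_d_le hκ hX0 hB.pos
  have h3 : rhoZ κ X0 b B P p * (1 / (dd (b * P) B q : ℕ))
      ≤ 0.07 * (X0 * b / B) * (3 * (X0 / κ) / B) :=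
    mul_le_mul h1 h2 (by positivity) (le_trans (rhoZ_nonneg p) h1)
  have h4 : rhoZ κ X0 b B P p * (1 / (dd (b * P) B q : ℕ))
        * (Nat.gcd (dd (b * P) B p) (dd (b * P) B q) : ℕ)
      ≤ 0.07 * (X0 * b / B) * (3 * (X0 / κ) / B)
        * (Nat.gcd (dd (b * P) B p) (dd (b * P) B q) : ℕ) :=
    mul_le_mul_of_nonneg_right h3 hg'.le
  unfold dd at h4 ⊢
  linarith

end gen

open Classical in
/-- the family -/
noncomputable def FZ (κ X0 : ℝ) (b B P w0 W0 : ℕ) : Finset (ℕ × ℕ) :=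
  (((Icc w0 W0).filter (fun s => s.Prime ∧ ¬ s ∣ P)) ×ˢ range (3 * B * W0)).filter
    (fun p => Adm κ X0 (b * P) B p)

theorem mem_FZ {κ X0 : ℝ} {b B P w0 W0 : ℕ} {p : ℕ × ℕ} (h : p ∈ FZ κ X0 b B P w0 W0) :
    w0 ≤ p.1 ∧ p.1 ≤ W0 ∧ ¬ p.1 ∣ P ∧ Adm κ X0 (b * P) B p := by
  classical
  unfold FZ at h
  rw [mem_filter, mem_product, mem_filter, mem_Icc] at h
  exact ⟨h.1.1.1.1, h.1.1.1.2, h.1.1.2.2, h.2⟩

/-- lower bound of the total expectation. -/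
theorem EN_geZ {κ X0 : ℝ} {b B P w0 W0 : ℕ} (hκ : 0 < κ) (hX : 0.35 * κ ≤ X0)
    (hX1 : X0 ≤ 0.006) (hb : 0 < b) (hbB : b < B) (hP : 1 ≤ P) (hw0 : 2 * P ≤ κ * w0)
    (hbig : 100 * (W0 * P) ≤ κ * b) :
    9.5e-5 * κ / (P : ℝ) ^ 2
        * (∑ s ∈ (Icc w0 W0).filter (fun s => s.Prime ∧ ¬ s ∣ P), 1 / (s : ℝ))
      ≤ ∑ p ∈ FZ κ X0 b B P w0 W0, rhoZ κ X0 b B P p := by
  classical
  have hX0 : 0 < X0 := by linarith
  have hb' : (0 : ℝ) < b := by exact_mod_cast hb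
  have hbB' : (b : ℝ) < B := by exact_mod_cast hbB
  have hB' : (0 : ℝ) < B := by linarith
  have hP' : (1 : ℝ) ≤ P := by exact_mod_cast hP
  have hP0 : (0 : ℝ) < P := by linarith
  have hbP : 0 < b * P := Nat.mul_pos hb hP
  have hκX : κ / X0 ≤ 20 / 7 := by
    rw [div_le_iff₀ hX0]; linarith
  have e0 : ∑ p ∈ FZ κ X0 b B P w0 W0, rhoZ κ X0 b B P p
      = ∑ s ∈ (Icc w0 W0).filter (fun s => s.Prime ∧ ¬ s ∣ P), ∑ L ∈ range (3 * B * W0),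
        if Adm κ X0 (b * P) B (s, L) then rhoZ κ X0 b B P (s, L) else 0 := by
    unfold FZ
    rw [sum_filter, sum_product]
  rw [e0, mul_sum]
  refine sum_le_sum fun s hs => ?_
  rw [mem_filter, mem_Icc] at hs
  have hs0 : (0 : ℝ) < s := by exact_mod_cast hs.2.1.pos
  have hsW : (s : ℝ) ≤ W0 := by exact_mod_cast hs.1.2
  have hsw : (w0 : ℝ) ≤ s := by exact_mod_cast hs.1.1
  have hbs : 100 ≤ κ * ((b : ℝ) / (s * P : ℕ)) := by
    push_cast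
    rw [← mul_div_assoc, le_div_iff₀ (by positivity)]
    have : (s : ℝ) * P ≤ W0 * P := mul_le_mul_of_nonneg_right hsW hP0.le
    linarith
  rw [← sum_filter]
  have h1 : ∀ L ∈ (range (3 * B * W0)).filter (fun L => Adm κ X0 (b * P) B (s, L)),
      0.019 * (X0 * b / (P * (B * (s : ℝ) ^ 2))) ≤ rhoZ κ X0 b B P (s, L) := by
    intro L hL
    rw [mem_filter] at hL
    exact rho_geZ hL.2 hκ hX hb (by omega) hP hbs
  have h2 := card_nsmul_le_sum _ _ _ h1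
  rw [nsmul_eq_mul] at h2
  refine le_trans ?_ h2
  have h3 := count_L' κ X0 (b * P) B s (3 * B * W0) hκ hX0 hbP hs.2.1 (by
    push_cast
    have g1 : 1 ≤ (B : ℝ) / b := by
      rw [le_div_iff₀ hb']; linarith
    have g2 : 2 ≤ κ * s / P := by
      rw [le_div_iff₀ hP0]
      nlinarith
    have g3 : 300 ≤ κ * s / P / X0 := by
      rw [le_div_iff₀ hX0]
      nlinarith
    have g4 : 0.02 * (κ / X0) * ((B : ℝ) * s / (b * P)) = 0.02 * (κ * s / P / X0) * (B / b) := by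
      field_simp
    rw [g4]
    nlinarith) (by
    intro L hL
    have e2 : 0.51 * κ / X0 = 0.51 * (κ / X0) := by ring
    rw [e2] at hL
    have hb1 : (1 : ℝ) ≤ (b * P : ℕ) := by exact_mod_cast hbP
    have h4 : (L : ℝ) < 3 * B * W0 := by
      have h5 : (1 + 0.51 * (κ / X0)) * ((B : ℝ) * s) ≤ 3 * (B * W0) := by
        have h6 : (B : ℝ) * s ≤ B * W0 := mul_le_mul_of_nonneg_left hsW hB'.le
        exact mul_le_mul (by linarith) h6 (by positivity) (by norm_num)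
      have h7 : (L : ℝ) ≤ (b * P : ℕ) * L := by
        have : (0 : ℝ) ≤ L := Nat.cast_nonneg L
        nlinarith
      linarith
    exact_mod_cast h4)
  have h4 : 0 ≤ 0.019 * (X0 * b / (P * (B * (s : ℝ) ^ 2))) := by positivity
  refine le_trans ?_ (mul_le_mul_of_nonneg_right h3 h4)
  have e3 : 0.005 * (κ / X0) * ((B : ℝ) * s / (b * P : ℕ))
      * (0.019 * (X0 * b / (P * (B * (s : ℝ) ^ 2))))
      = 9.5e-5 * κ / (P : ℝ) ^ 2 * (1 / s) := by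
    push_cast
    field_simp
    norm_num
  rw [e3]

/-- upper bound of the sum of the gcd's. -/
theorem gcd_totalZ {κ X0 : ℝ} {b B P w0 W0 : ℕ} (hκ : 0 < κ)
    (hX : 0.35 * κ ≤ X0) (hb : b.Prime) (hB : B.Prime) (hbB : b < B) (hP : 1 ≤ P) (hPb : P < b)
    (hW0 : 1 ≤ W0) (hw0 : 1 ≤ w0) (hWb : W0 < b) :
    ∑ p ∈ FZ κ X0 b B P w0 W0, ∑ q ∈ (FZ κ X0 b B P w0 W0).erase p,
      ((Nat.gcd (b * P * p.2 - B * p.1) (b * P * q.2 - B * q.1) : ℕ) : ℝ)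
      ≤ (W0 : ℝ) ^ 2 * (37 * (W0 : ℝ) ^ 4 * (B / b) ^ 2 * (1 + Real.log B)) := by
  classical
  have hX0 : 0 < X0 := by linarith
  have hb' : (0 : ℝ) < b := by exact_mod_cast hb.pos
  have hbB' : (b : ℝ) < B := by exact_mod_cast hbB
  have hB' : (0 : ℝ) < B := by linarith
  have hB1 : (1 : ℝ) ≤ B := by exact_mod_cast hB.one_lt.le
  have hP' : (1 : ℝ) ≤ P := by exact_mod_cast hP
  have hbP : 0 < b * P := Nat.mul_pos hb.pos hP
  have hκX : κ / X0 ≤ 20 / 7 := by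
    rw [div_le_iff₀ hX0]; linarith
  have hr1 : 1 ≤ (B : ℝ) / b := by
    rw [le_div_iff₀ hb']; linarith
  have h0 := off_total (FZ κ X0 b B P w0 W0)
    ((Icc w0 W0).filter (fun s => s.Prime ∧ ¬ s ∣ P))
    (37 * (W0 : ℝ) ^ 4 * (B / b) ^ 2 * (1 + Real.log B))
    (fun p q => ((Nat.gcd (b * P * p.2 - B * p.1) (b * P * q.2 - B * q.1) : ℕ) : ℝ)) ?_ ?_
  · refine h0.trans ?_
    have h1 : (((Icc w0 W0).filter (fun s => s.Prime ∧ ¬ s ∣ P)).card : ℝ) ≤ W0 := by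
      have h2 : ((Icc w0 W0).filter (fun s => s.Prime ∧ ¬ s ∣ P)).card ≤ (Icc w0 W0).card :=
        card_filter_le _ _
      rw [Nat.card_Icc] at h2
      have h3 : ((Icc w0 W0).filter (fun s => s.Prime ∧ ¬ s ∣ P)).card ≤ W0 := by omega
      exact_mod_cast h3
    have hlog : 0 ≤ Real.log B := Real.log_nonneg hB1
    have h4 : 0 ≤ 37 * (W0 : ℝ) ^ 4 * (B / b) ^ 2 * (1 + Real.log B) := by positivity
    exact mul_le_mul_of_nonneg_right (pow_le_pow_left₀ (Nat.cast_nonneg _) h1 2) h4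
  · intro p hp
    have := mem_FZ hp
    rw [mem_filter, mem_Icc]
    exact ⟨⟨this.1, this.2.1⟩, this.2.2.2.1, this.2.2.1⟩
  · intro s hs s' hs' A hA0
    rw [mem_filter, mem_Icc] at hs hs'
    have hsW : (s : ℝ) ≤ W0 := by exact_mod_cast hs.1.2
    have hsW' : (s' : ℝ) ≤ W0 := by exact_mod_cast hs'.1.2
    obtain ⟨l, h, hA, hlen⟩ := count_L_le κ X0 (b * P) B s hκ hX0 hbP (A.image Prod.fst) (by
      intro L hL
      rw [mem_image] at hL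
      obtain ⟨x, hx, rfl⟩ := hL
      exact (mem_FZ (hA0 x hx).1).2.2.2)
    obtain ⟨l', h', hA', hlen'⟩ := count_L_le κ X0 (b * P) B s' hκ hX0 hbP (A.image Prod.snd) (by
      intro L hL
      rw [mem_image] at hL
      obtain ⟨x, hx, rfl⟩ := hL
      exact (mem_FZ (hA0 x hx).2.1).2.2.2)
    have hΛ : ∀ s : ℝ, 0 ≤ s → s ≤ W0 →
        0.02 * (κ / X0) * (B * s / (b * P : ℕ)) + 1 ≤ 2 * (W0 : ℝ) * (B / b) := by
      intro s hs0 hs
      have hbb : (b : ℝ) ≤ (b * P : ℕ) := by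
        push_cast
        nlinarith
      have h1 : (B : ℝ) * s / (b * P : ℕ) ≤ W0 * (B / b) := by
        rw [mul_div_assoc', mul_comm (W0 : ℝ) (B : ℝ)]
        exact div_le_div₀ (by positivity) (mul_le_mul_of_nonneg_left hs hB'.le) hb' hbb
      have h2 : 0.02 * (κ / X0) ≤ 1 := by linarith
      have h3 : 0 ≤ (B : ℝ) * s / (b * P : ℕ) := by positivity
      have h4 : (1 : ℝ) ≤ W0 * (B / b) := by
        have : (1 : ℝ) ≤ W0 := by exact_mod_cast hW0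
        nlinarith
      nlinarith
    by_cases hAe : A = ∅
    · rw [hAe, sum_empty]
      have hlog : 0 ≤ Real.log B := Real.log_nonneg hB1
      positivity
    obtain ⟨x0, hx0⟩ := nonempty_iff_ne_empty.2 hAe
    have c1 := mem_FZ (hA0 x0 hx0).1
    have c2 := mem_FZ (hA0 x0 hx0).2.1
    have hsb : s < b := by omega
    have hsb' : s' < b := by omega
    obtain ⟨_, _, _, p4⟩ := copZ (L := x0.1) hb hB hs.2.1 hbB hsb hPb hP hs.2.2 c1.2.2.2.2.1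
      (c1.2.2.2.lt hκ hX0 hB.pos)
    obtain ⟨_, _, _, q4⟩ := copZ (L := x0.2) hb hB hs'.2.1 hbB hsb' hPb hP hs'.2.2 c2.2.2.2.2.1
      (c2.2.2.2.lt hκ hX0 hB.pos)
    have hmain := gcd_sum' (b * P) B s s' l h l' h' ⌊3 * (W0 : ℝ) ^ 2 * (B / b)⌋₊
      (2 * (W0 : ℝ) * (B / b)) p4 q4 A (by
        intro x hx
        have hx1 := mem_Ico.1 (hA (mem_image_of_mem _ hx))
        have hx2 := mem_Ico.1 (hA' (mem_image_of_mem _ hx))
        obtain ⟨hF1, hF2, hne⟩ := hA0 x hx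
        have a1 := mem_FZ hF1
        have a2 := mem_FZ hF2
        have hl1 := a1.2.2.2.lt hκ hX0 hB.pos
        have hl2 := a2.2.2.2.lt hκ hX0 hB.pos
        refine ⟨hx1.1, hx1.2, hx2.1, hx2.2, hl1, hl2, ?_⟩
        obtain ⟨_, _, r3, _⟩ := copZ (L := x.1) hb hB hs.2.1 hbB hsb hPb hP hs.2.2 a1.2.2.2.2.1 hl1
        exact Nat.le_floor (gcd_leZ a1.2.2.2 a2.2.2.2 hne hκ hX hbP hb.pos
          (Nat.le_mul_of_pos_right b hP) hB W0 a1.2.1 a2.2.1 r3))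
      (hlen.trans (hΛ s (Nat.cast_nonneg _) hsW)) (hlen'.trans (hΛ s' (Nat.cast_nonneg _) hsW'))
    exact hmain.trans (T_le W0 B b hW0 hb.pos hbB)

end Pool.Agent.MRZ
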